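import Pool.Agent.Y129.TDefs

/-!
# Classes generated by algebraic correspondences: definitions
-/

open CategoryTheory AlgebraicGeometry Finset

universe u v w

namespace Pool.Agent.Y129

section Alg

variable {K : Type*} [Field K] {A B C : Type*} [Ring A] [Algebra K A] [Ring B] [Algebra K B]
  [Ring C] [Algebra K C]

/-- The elements `s (z * p a)` for the elements `z` of the sets `S j`. (If `p` and `s` are the
pull-back and the push-forward for the projections of a product and the sets `S j` consist of the
classes of algebraic cycles, then these are the images of `a` under algebraic correspondences.) -/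
def corrImages (p : A →ₐ[K] C) (s : C →ₗ[K] B) (S : ℕ → Set C) (a : A) : Set B :=
  {x | ∃ j, ∃ z ∈ S j, s (z * p a) = x}

/-- For all elements `z` of `S` with `tr (c * z) = 0` for all `c ∈ S` the endomorphism
`a ↦ s (z * p a)` is nilpotent. -/
def NilpotentFor (p : A →ₐ[K] C) (s : C →ₗ[K] A) (tr : C →ₗ[K] K) (S : Submodule K C) : Prop :=
  ∀ z ∈ S, (∀ c ∈ S, tr (c * z) = 0) →
    IsNilpotent ((s ∘ₗ LinearMap.mulLeft K z ∘ₗ p.toLinearMap : A →ₗ[K] A) : Module.End K A)

end Alg

open Pool.Agent.H914 Pool.Agent.H914.VarClass Pool.Agent.H914.VarClass.Obj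
  Pool.Agent.H914.WeilCohomology Pool.Agent.H281R3.HT

variable {k : Type u} [Field k] {𝒱 : VarClass k} {ops : CycleOps 𝒱}

/-- The images of the class `c` on a power of `X` under algebraic correspondences
`x ↦ pr₂_* (cl z · pr₁^* x)`, in the cohomology of the product of `n + 1` copies of `X`. -/
noncomputable def images (W : WeilCohomology.{u, v} ops) (X : 𝒱.Obj) (c : Σ m, W.H (pw X m))
    (n : ℕ) : Set (W.H (pw X n)) :=
  corrImages (W.map (fst (pw X c.1) (pw X n))) (W.push (snd (pw X c.1) (pw X n)))
    (algClasses W ((pw X c.1).prod (pw X n))) c.2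

/-- The space of the classes on the product of `n + 1` copies of `X` which is spanned by the
classes of algebraic cycles and by the images of the classes `c i` on powers of `X` under algebraic
correspondences. -/
noncomputable def genBy (W : WeilCohomology.{u, v} ops) (X : 𝒱.Obj) {r : ℕ}
    (c : Fin r → Σ m, W.H (pw X m)) (n : ℕ) : Submodule W.K (W.H (pw X n)) :=
  algSpan W (pw X n) ⊔ Submodule.span W.K (⋃ i, images W X (c i) n)

/-- Every correspondence on a power of `X`, with coefficients in `W.K`, which is numerically
trivial (its intersection number with every algebraic cycle is zero), acts as a nilpotent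
endomorphism of the cohomology. -/
def NumNilpotent (W : WeilCohomology.{u, v} ops) (X : 𝒱.Obj) : Prop :=
  ∀ n, NilpotentFor (W.map (fst (pw X n) (pw X n))) (W.push (snd (pw X n) (pw X n)))
    (W.tr ((pw X n).prod (pw X n))) (algSpan W ((pw X n).prod (pw X n)))

end Pool.Agent.Y129
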