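import Pool.Agent.Y129.CatCons

/-!
# The asymptotic argument
-/

open Module LinearMap Finset Filter Topology

namespace Pool.Agent.Y129

section Real

/-- A positive log-convex sequence of natural numbers whose growth is `q ^ n` up to a polynomial
factor and whose quotients are at most `q`: the quotients converge to `q`. -/
theorem tendsto_quot {α : ℕ → ℕ} {q c : ℕ} (hpos : ∀ n, 0 < α n)
    (hconv : ∀ n, α (n + 1) ^ 2 ≤ α n * α (n + 2)) (hle : ∀ n, α (n + 1) ≤ q * α n)
    (hgrow : ∀ n, q ^ (n + 1) ≤ (n + 2) ^ c * α n) :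
    Tendsto (fun n => (α (n + 1) : ℝ) / α n) atTop (𝓝 (q : ℝ)) := by
  have hpos' : ∀ n, (0 : ℝ) < α n := fun n => by exact_mod_cast hpos n
  have hmono : Monotone (fun n => (α (n + 1) : ℝ) / α n) := by
    apply monotone_nat_of_le_succ
    intro n
    rw [div_le_div_iff₀ (hpos' n) (hpos' (n + 1))]
    have := hconv n
    have h2 : ((α (n + 1) ^ 2 : ℕ) : ℝ) ≤ ((α n * α (n + 2) : ℕ) : ℝ) := by exact_mod_cast this
    push_cast at h2
    nlinarith
  have hbd : ∀ n, (α (n + 1) : ℝ) / α n ≤ q := by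
    intro n
    rw [div_le_iff₀ (hpos' n)]
    exact_mod_cast hle n
  have hbdd : BddAbove (Set.range (fun n => (α (n + 1) : ℝ) / α n)) := by
    refine ⟨q, ?_⟩
    rintro _ ⟨n, rfl⟩
    exact hbd n
  have hlim := tendsto_atTop_ciSup hmono hbdd
  set r : ℝ := ⨆ n, (α (n + 1) : ℝ) / α n with hr
  have hr1 : ∀ n, (α (n + 1) : ℝ) / α n ≤ r := fun n => le_ciSup hbdd n
  have hrq : r ≤ q := ciSup_le hbd
  have hr0 : 0 < r := lt_of_lt_of_le (div_pos (hpos' 1) (hpos' 0)) (hr1 0)
  have hαr : ∀ n, (α n : ℝ) ≤ α 0 * r ^ n := by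
    intro n
    induction n with
    | zero => simp
    | succ n ih =>
      have h1 := hr1 n
      rw [div_le_iff₀ (hpos' n)] at h1
      calc (α (n + 1) : ℝ) ≤ r * α n := h1
        _ ≤ r * (α 0 * r ^ n) := mul_le_mul_of_nonneg_left ih hr0.le
        _ = α 0 * r ^ (n + 1) := by ring
  rcases eq_or_lt_of_le hrq with h | h
  · rw [← h]
    exact hlim
  · exfalso
    have hq0 : (0 : ℝ) < q := lt_of_lt_of_le hr0 hrq
    have hR : 1 < (q : ℝ) / r := by
      rw [lt_div_iff₀ hr0, one_mul]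
      exact h
    have h1 := tendsto_pow_const_div_const_pow_of_one_lt c hR
    -- shift by two
    have h2 : Tendsto (fun n : ℕ => ((n + 2 : ℕ) : ℝ) ^ c / ((q : ℝ) / r) ^ (n + 2)) atTop
        (𝓝 0) := (tendsto_add_atTop_iff_nat 2).2 h1
    have h3 : ∀ n : ℕ, (q : ℝ) / (α 0 * ((q : ℝ) / r) ^ 2) ≤
        ((n + 2 : ℕ) : ℝ) ^ c / ((q : ℝ) / r) ^ (n + 2) := by
      intro n
      have h4 : ((q ^ (n + 1) : ℕ) : ℝ) ≤ (((n + 2) ^ c * α n : ℕ) : ℝ) := by
        exact_mod_cast hgrow n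
      push_cast at h4
      have h5 : (q : ℝ) ^ (n + 1) ≤ ((n : ℝ) + 2) ^ c * (α 0 * r ^ n) :=
        h4.trans (mul_le_mul_of_nonneg_left (hαr n) (by positivity))
      rw [div_le_div_iff₀ (by have := hpos' 0; positivity) (by positivity)]
      push_cast
      have h6 : (q : ℝ) * ((q : ℝ) / r) ^ (n + 2) =
          ((q : ℝ) ^ (n + 1) / r ^ n) * ((q : ℝ) / r) ^ 2 := by
        rw [pow_add, div_pow, div_pow, pow_succ]
        field_simp
        ring
      rw [h6, ← mul_assoc]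
      apply mul_le_mul_of_nonneg_right _ (by positivity)
      rw [div_le_iff₀ (by positivity)]
      calc (q : ℝ) ^ (n + 1) ≤ ((n : ℝ) + 2) ^ c * (α 0 * r ^ n) := h5
        _ = ((n : ℝ) + 2) ^ c * α 0 * r ^ n := by ring
    have h4 : (q : ℝ) / (α 0 * ((q : ℝ) / r) ^ 2) ≤ 0 :=
      ge_of_tendsto' h2 h3
    have h5 : 0 < (q : ℝ) / (α 0 * ((q : ℝ) / r) ^ 2) := by
      have := hpos' 0
      positivity
    linarith

/-- The quotients of more distant terms. -/
theorem tendsto_quot_add {α : ℕ → ℕ} {q : ℕ} (hpos : ∀ n, 0 < α n)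
    (h : Tendsto (fun n => (α (n + 1) : ℝ) / α n) atTop (𝓝 (q : ℝ))) (k : ℕ) :
    Tendsto (fun n => (α (n + k) : ℝ) / α n) atTop (𝓝 ((q : ℝ) ^ k)) := by
  have hpos' : ∀ n, (α n : ℝ) ≠ 0 := fun n => by exact_mod_cast (hpos n).ne'
  induction k with
  | zero =>
    simp only [add_zero, pow_zero]
    have : (fun n => (α n : ℝ) / α n) = fun _ => 1 := by
      funext n
      exact div_self (hpos' n)
    rw [this]
    exact tendsto_const_nhds
  | succ k ih =>
    have h1 : Tendsto (fun n => (α (n + k + 1) : ℝ) / α (n + k)) atTop (𝓝 (q : ℝ)) :=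
      h.comp (tendsto_add_atTop_nat k)
    have h2 := ih.mul h1
    rw [pow_succ]
    refine h2.congr ?_
    intro n
    rw [mul_comm, div_mul_div_cancel₀ (hpos' _)]
    rfl

/-- The final step: a sequence which is bounded term by term by natural numbers which are
asymptotic lower bounds converges to a natural number or to infinity. -/
theorem law_of_bounds {s : ℕ → ℝ}
    (h : ∀ m, ∃ N : ℕ, s m ≤ N ∧ ∀ δ : ℝ, 0 < δ → ∀ᶠ n in atTop, (N : ℝ) - δ ≤ s n) :
    (∃ N : ℕ, (∀ n, s n ≤ N) ∧ Tendsto s atTop (𝓝 (N : ℝ))) ∨ Tendsto s atTop atTop := by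
  choose N hN hN' using h
  by_cases hb : ∃ B, ∀ m, N m ≤ B
  · left
    obtain ⟨B, hB⟩ := hb
    -- the maximum is attained
    have h1 : ∃ m, ∀ m', N m' ≤ N m := by
      have h2 : (Set.range N).Nonempty := ⟨N 0, 0, rfl⟩
      have h3 : BddAbove (Set.range N) := ⟨B, by rintro _ ⟨m, rfl⟩; exact hB m⟩
      obtain ⟨m, hm⟩ := Nat.sSup_mem h2 h3
      refine ⟨m, fun m' => ?_⟩
      rw [hm]
      exact le_csSup h3 ⟨m', rfl⟩
    obtain ⟨m, hm⟩ := h1
    have h2 : ∀ n, s n ≤ N m := fun n => (hN n).trans (by exact_mod_cast hm n)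
    refine ⟨N m, h2, ?_⟩
    rw [Metric.tendsto_atTop]
    intro δ hδ
    obtain ⟨n₀, hn₀⟩ := eventually_atTop.1 (hN' m (δ / 2) (half_pos hδ))
    refine ⟨n₀, fun n hn => ?_⟩
    have h3 := hn₀ n hn
    have h4 := h2 n
    rw [Real.dist_eq, abs_lt]
    constructor <;> linarith
  · right
    push Not at hb
    rw [tendsto_atTop]
    intro A
    obtain ⟨m, hm⟩ := hb ⌈A + 1⌉₊
    have h1 : A + 1 ≤ N m := (Nat.le_ceil _).trans (by exact_mod_cast hm.le)
    filter_upwards [hN' m 1 one_pos] with n hn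
    linarith

end Real

/-- Two subsequences. -/
lemma tendsto_of_even_odd {f : ℕ → ℝ} {l : Filter ℝ}
    (h0 : Tendsto (fun n => f (2 * n)) atTop l) (h1 : Tendsto (fun n => f (2 * n + 1)) atTop l) :
    Tendsto f atTop l := by
  rw [tendsto_def] at h0 h1 ⊢
  intro s hs
  have h2 := h0 s hs
  have h3 := h1 s hs
  rw [mem_atTop_sets] at h2 h3 ⊢
  obtain ⟨a, ha⟩ := h2
  obtain ⟨b, hb⟩ := h3
  refine ⟨2 * max a b + 1, fun n hn => ?_⟩
  rcases Nat.even_or_odd' n with ⟨c, hc | hc⟩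
  · subst hc
    exact ha c (by omega)
  · subst hc
    exact hb c (by omega)

section Core

variable {K : Type*} [Field K] {H : ℕ → Type*} [∀ n, AddCommGroup (H n)]
  [∀ n, Module K (H n)] {C : ∀ m n, Submodule K (H m →ₗ[K] H n)} [∀ n, Module.Finite K (H n)]
  [IsAlgClosed K] [CharZero K]

/-- The formal properties of the powers `X ^ (n + 1)` of a variety: `H n` is the cohomology, `C m n`
are the algebraic correspondences, `β n` is the rank of the intersection form on the algebraic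
classes, and `b` is the total Betti number of `X`. -/
structure IsPowers (C : ∀ m n, Submodule K (H m →ₗ[K] H n)) (β : ℕ → ℕ) (b : ℕ) : Prop where
  cat : IsCat C
  b_pos : 0 < b
  finrank_eq : ∀ m, finrank K (H m) = b ^ (m + 1)
  nd_eq : ∀ m n, nd C m n (C m n) = β (m + n + 1)
  nd_le : ∀ m p, ∀ ε ∈ C m m, IsIdempotentElem ε →
    nd C m (2 * p + 1) (sand C m (2 * p + 1) LinearMap.id ε) ≤
      finrank K (range ε) * β (2 * p + 1)
  nd_le' : ∀ m p, ∀ ε ∈ C m m, IsIdempotentElem ε →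
    nd C m (2 * p + 2) (sand C m (2 * p + 2) LinearMap.id ε) ≤
      finrank K (range ε) * (b * β (2 * p + 1))
  grow : ∀ n, (b ^ 2) ^ (n + 1) ≤ (n + 2) ^ (b ^ 2) * β (2 * n + 1)
  retract : ∃ i ∈ C 0 1, ∃ r ∈ C 1 0, r ∘ₗ i = LinearMap.id

variable {β : ℕ → ℕ} {b : ℕ}

omit [∀ n, Module.Finite K (H n)] [IsAlgClosed K] [CharZero K] in
lemma IsPowers.pos (h : IsPowers C β b) (n : ℕ) : 0 < β (2 * n + 1) := by
  have h1 := h.grow n
  by_contra h3
  have h4 : β (2 * n + 1) = 0 := by omega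
  rw [h4, mul_zero] at h1
  have h5 : 0 < (b ^ 2) ^ (n + 1) := by
    have := h.b_pos
    positivity
  omega

lemma IsPowers.conv (h : IsPowers C β b) (n : ℕ) :
    β (2 * n + 3) ^ 2 ≤ β (2 * n + 1) * β (2 * n + 5) := by
  have h1 := nd_sq_le h.cat n (n + 2) (h.cat.id_mem n)
    (IsIdempotentElem.one (M := Module.End K (H n))) (h.cat.id_mem (n + 2))
    (IsIdempotentElem.one (M := Module.End K (H (n + 2))))
  rw [sand_one, sand_one, sand_one, h.nd_eq, h.nd_eq, h.nd_eq] at h1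
  convert h1 using 3 <;> ring_nf

omit [∀ n, Module.Finite K (H n)] [IsAlgClosed K] [CharZero K] in
lemma IsPowers.le (h : IsPowers C β b) (n : ℕ) : β (2 * n + 3) ≤ b ^ 2 * β (2 * n + 1) := by
  have h1 := h.nd_le 1 n LinearMap.id (h.cat.id_mem 1)
    (IsIdempotentElem.one (M := Module.End K (H 1)))
  rw [sand_one, h.nd_eq, LinearMap.range_id, finrank_top, h.finrank_eq] at h1
  convert h1 using 2
  ring

lemma IsPowers.tendsto_even (h : IsPowers C β b) (k : ℕ) :
    Tendsto (fun n => (β (2 * (n + k) + 1) : ℝ) / β (2 * n + 1)) atTop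
      (𝓝 (((b : ℝ) ^ 2) ^ k)) := by
  have h1 := tendsto_quot_add (α := fun n => β (2 * n + 1)) h.pos
    (tendsto_quot (α := fun n => β (2 * n + 1)) (q := b ^ 2) (c := b ^ 2) h.pos
      (fun n => h.conv n) (fun n => h.le n) h.grow) k
  push_cast at h1
  exact h1

omit [IsAlgClosed K] [CharZero K] in
lemma finrank_range_add {V : Type*} [AddCommGroup V] [Module K V] [Module.Finite K V]
    {ε : Module.End K V} (hε : IsIdempotentElem ε) :
    finrank K (range ε) + finrank K (range (1 - ε)) = finrank K V := by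
  have h1 := LinearMap.finrank_range_add_finrank_ker ε
  rw [LinearMap.IsIdempotentElem.ker_eq_range_one_sub hε] at h1
  exact h1

/-- The basic lower bound for multiplicities. -/
lemma IsPowers.lower (h : IsPowers C β b) {m n : ℕ} {B : ℕ}
    (hB : ∀ ε ∈ C m m, IsIdempotentElem ε →
      nd C m n (sand C m n LinearMap.id ε) ≤ finrank K (range ε) * B)
    {ε : Module.End K (H m)} (hε : ε ∈ C m m) (hε' : IsIdempotentElem ε) {δ : ℝ}
    (hn : ((b : ℝ) ^ (m + 1) - δ) * B ≤ β (m + n + 1)) :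
    ((finrank K (range ε) : ℝ) - δ) * B ≤ nd C m n (sand C m n LinearMap.id ε) := by
  have hid : (1 : Module.End K (H m)) ∈ C m m := h.cat.id_mem _
  have h3 := nd_add h.cat m n hε hε'
  rw [h.nd_eq] at h3
  have h4 := hB (1 - ε) (Submodule.sub_mem _ hid hε) hε'.one_sub
  have h5 := finrank_range_add hε'
  rw [h.finrank_eq] at h5
  have h3' : (nd C m n (sand C m n LinearMap.id ε) : ℝ) +
      nd C m n (sand C m n LinearMap.id (1 - ε)) = β (m + n + 1) := by
    exact_mod_cast h3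
  have h4' : (nd C m n (sand C m n LinearMap.id (1 - ε)) : ℝ) ≤
      finrank K (range (1 - ε)) * B := by exact_mod_cast h4
  have h5' : (finrank K (range ε) : ℝ) + finrank K (range (1 - ε)) =
      (b : ℝ) ^ (m + 1) := by exact_mod_cast h5
  rw [← h5'] at hn
  linarith

omit [∀ n, Module.Finite K (H n)] [IsAlgClosed K] [CharZero K] in
lemma perp_comp (hC : IsCat C) {m n l : ℕ} {f : H m →ₗ[K] H n} (hf : f ∈ perp C m n)
    {g : H n →ₗ[K] H l} (hg : g ∈ C n l) : g ∘ₗ f ∈ perp C m l := by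
  intro h hh
  exact hf (h ∘ₗ g) (hC.comp_mem hh hg)

omit [IsAlgClosed K] [CharZero K] in
/-- Retracts. -/
lemma nd_retract (hC : IsCat C) {y u z : ℕ} {i : H y →ₗ[K] H u} {r : H u →ₗ[K] H y}
    (hi : i ∈ C y u) (hr : r ∈ C u y) (h : r ∘ₗ i = LinearMap.id) :
    nd C u z (sand C u z LinearMap.id (i ∘ₗ r)) = nd C y z (C y z) := by
  have h1 : sand C u z LinearMap.id (i ∘ₗ r) =
      (C y z).map (LinearMap.lcomp K (H z) r) := by
    ext f
    rw [mem_sand]
    constructor
    · rintro ⟨c, hc, rfl⟩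
      exact ⟨c ∘ₗ i, hC.comp_mem hc hi, rfl⟩
    · rintro ⟨g, hg, rfl⟩
      refine ⟨g ∘ₗ r, hC.comp_mem hg hr, ?_⟩
      have h2 : LinearMap.id ∘ₗ (g ∘ₗ r) ∘ₗ i ∘ₗ r = g ∘ₗ (r ∘ₗ i) ∘ₗ r := rfl
      rw [h2, h]
      rfl
  rw [nd, h1, ← Submodule.map_comp, nd]
  apply finrank_map_eq
  intro g _
  rw [LinearMap.comp_apply, Submodule.mkQ_apply, Submodule.mkQ_apply,
    Submodule.Quotient.mk_eq_zero, Submodule.Quotient.mk_eq_zero]
  change g ∘ₗ r ∈ perp C u z ↔ _
  constructor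
  · intro h2 f hf
    have h3 := h2 (i ∘ₗ f) (hC.comp_mem hi hf)
    have h4 : (i ∘ₗ f) ∘ₗ g ∘ₗ r = i ∘ₗ (f ∘ₗ g ∘ₗ r) := rfl
    rw [h4, LinearMap.trace_comp_comm'] at h3
    have h5 : (f ∘ₗ g ∘ₗ r) ∘ₗ i = f ∘ₗ g ∘ₗ (r ∘ₗ i) := rfl
    rw [h5, h] at h3
    exact h3
  · intro h2 f hf
    have h3 := h2 (r ∘ₗ f) (hC.comp_mem hr hf)
    have h4 : f ∘ₗ g ∘ₗ r = (f ∘ₗ g) ∘ₗ r := rfl
    rw [h4, LinearMap.trace_comp_comm']
    exact h3

/-- The numerical rank of the next power. -/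
lemma IsPowers.tendsto_next (h : IsPowers C β b) :
    Tendsto (fun n => (β (2 * n + 2) : ℝ) / β (2 * n + 1)) atTop (𝓝 (b : ℝ)) := by
  obtain ⟨i, hi, r, hr, hir⟩ := h.retract
  have hpos : ∀ n, (0 : ℝ) < β (2 * n + 1) := fun n => by exact_mod_cast h.pos n
  have he : i ∘ₗ r ∈ C 1 1 := h.cat.comp_mem hi hr
  have he' : IsIdempotentElem (i ∘ₗ r : Module.End K (H 1)) := by
    have h2 : (i ∘ₗ r) ∘ₗ (i ∘ₗ r) = i ∘ₗ (r ∘ₗ i) ∘ₗ r := rfl
    rw [IsIdempotentElem, Module.End.mul_eq_comp, h2, hir]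
    rfl
  have hrank : finrank K (range (i ∘ₗ r : Module.End K (H 1))) = b := by
    have hrs : range r = ⊤ := by
      rw [LinearMap.range_eq_top]
      intro x
      exact ⟨i x, congrArg (fun f => f x) hir⟩
    have hinj : Function.Injective i := by
      intro x y hxy
      have := congrArg r hxy
      have h2 : ∀ x, r (i x) = x := fun x => congrArg (fun f => f x) hir
      rwa [h2, h2] at this
    rw [LinearMap.range_comp, hrs, Submodule.map_top, LinearMap.finrank_range_of_inj hinj,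
      h.finrank_eq]
    ring
  have hnd : ∀ n, nd C 1 (2 * n + 1) (sand C 1 (2 * n + 1) LinearMap.id (i ∘ₗ r)) =
      β (2 * n + 2) := by
    intro n
    rw [nd_retract h.cat hi hr hir, h.nd_eq]
    congr 1
    ring
  have hup : ∀ n, (β (2 * n + 2) : ℝ) / β (2 * n + 1) ≤ b := by
    intro n
    rw [div_le_iff₀ (hpos n)]
    have := h.nd_le 1 n _ he he'
    rw [hnd, hrank] at this
    exact_mod_cast this
  rw [Metric.tendsto_atTop]
  intro δ hδ
  have h1 := (h.tendsto_even 1).eventually (lt_mem_nhds (a := ((b : ℝ) ^ 2) ^ 1 - δ / 2)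
    (by linarith))
  obtain ⟨n₀, hn₀⟩ := eventually_atTop.1 h1
  refine ⟨n₀, fun n hn => ?_⟩
  have h2 := hn₀ n hn
  rw [lt_div_iff₀ (hpos n)] at h2
  have h3 := h.lower (m := 1) (n := 2 * n + 1) (B := β (2 * n + 1)) (h.nd_le 1 n) he he'
    (δ := δ / 2) (by
      have e1 : 1 + (2 * n + 1) + 1 = 2 * (n + 1) + 1 := by ring
      rw [e1]
      rw [pow_one] at h2
      exact h2.le)
  rw [hnd, hrank] at h3
  have h4 := hup n
  have h5 : (b : ℝ) - δ / 2 ≤ (β (2 * n + 2) : ℝ) / β (2 * n + 1) := by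
    rw [le_div_iff₀ (hpos n)]
    exact h3
  rw [Real.dist_eq, abs_lt]
  constructor <;> linarith

/-- The comparison sequence. -/
def cmp (β : ℕ → ℕ) (b n : ℕ) : ℕ := b ^ (n % 2) * β (2 * (n / 2) + 1)

lemma cmp_even (β : ℕ → ℕ) (b n : ℕ) : cmp β b (2 * n) = β (2 * n + 1) := by
  rw [cmp, Nat.mul_mod_right, pow_zero, one_mul, Nat.mul_div_cancel_left _ two_pos]

lemma cmp_odd (β : ℕ → ℕ) (b n : ℕ) : cmp β b (2 * n + 1) = b * β (2 * n + 1) := by
  have h1 : (2 * n + 1) % 2 = 1 := by omega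
  have h2 : (2 * n + 1) / 2 = n := by omega
  rw [cmp, h1, h2, pow_one]

omit [∀ n, Module.Finite K (H n)] [IsAlgClosed K] [CharZero K] in
lemma IsPowers.cmp_pos (h : IsPowers C β b) (n : ℕ) : 0 < cmp β b n :=
  Nat.mul_pos (pow_pos h.b_pos _) (h.pos _)

omit [∀ n, Module.Finite K (H n)] [IsAlgClosed K] [CharZero K] in
lemma IsPowers.nd_le_cmp (h : IsPowers C β b) (m n : ℕ) {ε : Module.End K (H m)}
    (hε : ε ∈ C m m) (hε' : IsIdempotentElem ε) :
    nd C m (n + 1) (sand C m (n + 1) LinearMap.id ε) ≤ finrank K (range ε) * cmp β b n := by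
  rcases Nat.even_or_odd' n with ⟨p, hp | hp⟩
  · subst hp
    rw [cmp_even]
    exact h.nd_le m p ε hε hε'
  · subst hp
    rw [cmp_odd]
    exact h.nd_le' m p ε hε hε'

/-- The comparison of the numerical ranks with the comparison sequence. -/
lemma IsPowers.tendsto_cmp (h : IsPowers C β b) (j : ℕ) :
    Tendsto (fun n => (β (n + 1 + j) : ℝ) / cmp β b n) atTop (𝓝 ((b : ℝ) ^ j)) := by
  have hpos : ∀ n, (0 : ℝ) < β (2 * n + 1) := fun n => by exact_mod_cast h.pos n
  have hb : (0 : ℝ) < b := by exact_mod_cast h.b_pos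
  -- odd steps
  have hodd : ∀ k : ℕ, Tendsto (fun n => (β (2 * (n + k) + 2) : ℝ) / β (2 * n + 1)) atTop
      (𝓝 ((b : ℝ) ^ (2 * k + 1))) := by
    intro k
    have h1 := (h.tendsto_next.comp (tendsto_add_atTop_nat k)).mul (h.tendsto_even k)
    have e1 : (b : ℝ) * ((b : ℝ) ^ 2) ^ k = (b : ℝ) ^ (2 * k + 1) := by
      rw [← pow_mul, ← pow_succ']
    rw [e1] at h1
    refine h1.congr ?_
    intro n
    simp only [Function.comp_apply]
    rw [div_mul_div_cancel₀ (hpos _).ne']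
  apply tendsto_of_even_odd
  · -- `n` even
    have e0 : ∀ n, cmp β b (2 * n) = β (2 * n + 1) := cmp_even β b
    rcases Nat.even_or_odd' j with ⟨k, hk | hk⟩
    · subst hk
      have h1 := h.tendsto_even k
      rw [← pow_mul] at h1
      refine h1.congr ?_
      intro n
      rw [e0]
      congr 3
      ring
    · subst hk
      refine (hodd k).congr ?_
      intro n
      rw [e0]
      congr 3
      ring
  · -- `n` odd
    rcases Nat.even_or_odd' j with ⟨k, hk | hk⟩
    · subst hk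
      have h1 := (hodd k).div_const (b : ℝ)
      have e1 : (b : ℝ) ^ (2 * k + 1) / b = (b : ℝ) ^ (2 * k) := by
        rw [pow_succ, mul_div_assoc, div_self hb.ne', mul_one]
      rw [e1] at h1
      refine h1.congr ?_
      intro n
      rw [cmp_odd, div_div, Nat.cast_mul, mul_comm (β (2 * n + 1) : ℝ)]
      congr 3
      ring
    · subst hk
      have h1 := (h.tendsto_even (k + 1)).div_const (b : ℝ)
      have e1 : ((b : ℝ) ^ 2) ^ (k + 1) / b = (b : ℝ) ^ (2 * k + 1) := by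
        rw [← pow_mul, show 2 * (k + 1) = (2 * k + 1) + 1 by ring, pow_succ, mul_div_assoc,
          div_self hb.ne', mul_one]
      rw [e1] at h1
      refine h1.congr ?_
      intro n
      rw [cmp_odd, div_div, Nat.cast_mul, mul_comm (β (2 * n + 1) : ℝ)]
      congr 3
      ring

/-- The asymptotic multiplicity of an idempotent is its rank. -/
lemma IsPowers.eventually (h : IsPowers C β b) (m : ℕ) {ε : Module.End K (H m)}
    (hε : ε ∈ C m m) (hε' : IsIdempotentElem ε) {δ : ℝ} (hδ : 0 < δ) :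
    ∀ᶠ n in atTop, ((finrank K (range ε) : ℝ) - δ) * cmp β b n ≤
      nd C m (n + 1) (sand C m (n + 1) LinearMap.id ε) := by
  have h2 : ∀ᶠ n in atTop, (b : ℝ) ^ (m + 1) - δ < (β (n + 1 + (m + 1)) : ℝ) / cmp β b n :=
    (h.tendsto_cmp (m + 1)).eventually (lt_mem_nhds (by linarith))
  filter_upwards [h2] with n hn
  have hpos : (0 : ℝ) < cmp β b n := by exact_mod_cast h.cmp_pos n
  rw [lt_div_iff₀ hpos] at hn
  apply h.lower (fun ε hε hε' => h.nd_le_cmp m n hε hε') hε hε'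
  have e1 : m + (n + 1) + 1 = n + 1 + (m + 1) := by ring
  rw [e1]
  exact hn.le

/-- **The ratio law**, abstract form. -/
theorem IsPowers.law (h : IsPowers C β b) {𝒢 : ∀ n, Submodule K (H n)} (h𝒢 : IsStable C 𝒢) :
    (∃ N : ℕ, (∀ n, finrank K (𝒢 (2 * n + 1)) ≤ N * β (2 * n + 1)) ∧
      Tendsto (fun n => (finrank K (𝒢 n) : ℝ) / β n) atTop (𝓝 (N : ℝ))) ∨
    Tendsto (fun n => (finrank K (𝒢 n) : ℝ) / β n) atTop atTop := by
  have hpos : ∀ n, (0 : ℝ) < cmp β b n := fun n => by exact_mod_cast h.cmp_pos n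
  have key := law_of_bounds (s := fun n => (finrank K (𝒢 (n + 1)) : ℝ) / cmp β b n) (by
    intro m
    obtain ⟨r, ε, hε, hε', hε'', hdec⟩ := exists_primitive h.cat (m + 1)
    refine ⟨∑ k, finrank K (range (ε k)) * finrank K ((𝒢 (m + 1)).map (ε k)), ?_, ?_⟩
    · rw [div_le_iff₀ (hpos m), hdec 𝒢 h𝒢]
      have h1 : ∑ k, nd C (m + 1) (m + 1) (sand C (m + 1) (m + 1) LinearMap.id (ε k)) *
          finrank K ((𝒢 (m + 1)).map (ε k)) ≤
          (∑ k, finrank K (range (ε k)) * finrank K ((𝒢 (m + 1)).map (ε k))) *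
            cmp β b m := by
        rw [Finset.sum_mul]
        apply Finset.sum_le_sum
        intro k _
        calc _ ≤ (finrank K (range (ε k)) * cmp β b m) *
                finrank K ((𝒢 (m + 1)).map (ε k)) :=
              Nat.mul_le_mul_right _ (h.nd_le_cmp (m + 1) m (hε k) (hε' k))
          _ = _ := by ring
      exact_mod_cast h1
    · intro δ hδ
      set g : ℕ := ∑ k, finrank K ((𝒢 (m + 1)).map (ε k)) with hg
      set δ' : ℝ := δ / (g + 1) with hδ'
      have hδ'0 : 0 < δ' := by positivity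
      have h1 : ∀ᶠ n in atTop, ∀ k, ((finrank K (range (ε k)) : ℝ) - δ') * cmp β b n ≤
          nd C (m + 1) (n + 1) (sand C (m + 1) (n + 1) LinearMap.id (ε k)) :=
        eventually_all.2 (fun k => h.eventually (m + 1) (hε k) (hε' k) hδ'0)
      filter_upwards [h1] with n hn
      rw [le_div_iff₀ (hpos n)]
      have h2 := sum_le_finrank h.cat (m + 1) (n + 1) hε hε' hε'' h𝒢
      have h2' : (∑ k, (nd C (m + 1) (n + 1)
          (sand C (m + 1) (n + 1) LinearMap.id (ε k)) : ℝ) *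
          finrank K ((𝒢 (m + 1)).map (ε k))) ≤ finrank K (𝒢 (n + 1)) := by exact_mod_cast h2
      refine le_trans ?_ h2'
      have h3 : ∑ k, (((finrank K (range (ε k)) : ℝ) - δ') * cmp β b n) *
          (finrank K ((𝒢 (m + 1)).map (ε k)) : ℝ) ≤
          ∑ k, (nd C (m + 1) (n + 1) (sand C (m + 1) (n + 1) LinearMap.id (ε k)) : ℝ) *
          finrank K ((𝒢 (m + 1)).map (ε k)) := by
        apply Finset.sum_le_sum
        intro k _
        exact mul_le_mul_of_nonneg_right (hn k) (Nat.cast_nonneg _)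
      refine le_trans ?_ h3
      have h4 : ∑ k, (((finrank K (range (ε k)) : ℝ) - δ') * cmp β b n) *
          (finrank K ((𝒢 (m + 1)).map (ε k)) : ℝ) =
          ((∑ k, (finrank K (range (ε k)) : ℝ) * finrank K ((𝒢 (m + 1)).map (ε k))) -
            δ' * g) * cmp β b n := by
        rw [hg, Nat.cast_sum, Finset.mul_sum, ← Finset.sum_sub_distrib, Finset.sum_mul]
        apply Finset.sum_congr rfl
        intro k _
        ring
      rw [h4]
      apply mul_le_mul_of_nonneg_right _ (hpos n).le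
      push_cast
      have h5 : δ' * g ≤ δ := by
        rw [hδ', div_mul_eq_mul_div, div_le_iff₀ (by positivity)]
        nlinarith
      linarith)
  -- from the comparison sequence to the numerical ranks
  have hcmp : Tendsto (fun n => (cmp β b n : ℝ) / β (n + 1)) atTop (𝓝 1) := by
    have h1 := (h.tendsto_cmp 0).inv₀ (by simp)
    rw [pow_zero, inv_one] at h1
    refine h1.congr ?_
    intro n
    rw [inv_div, add_zero]
  have hprod : ∀ n, ((finrank K (𝒢 (n + 1)) : ℝ) / cmp β b n) *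
      ((cmp β b n : ℝ) / β (n + 1)) = (finrank K (𝒢 (n + 1)) : ℝ) / β (n + 1) := fun n =>
    div_mul_div_cancel₀ (hpos n).ne'
  rcases key with ⟨N, h1, h2⟩ | h1
  · left
    refine ⟨N, fun n => ?_, ?_⟩
    · have h3 := h1 (2 * n)
      rw [div_le_iff₀ (hpos _), cmp_even] at h3
      exact_mod_cast h3
    · rw [← tendsto_add_atTop_iff_nat 1]
      have h3 := h2.mul hcmp
      rw [mul_one] at h3
      exact h3.congr hprod
  · right
    rw [← tendsto_add_atTop_iff_nat 1]
    have h3 := h1.atTop_mul_pos one_pos hcmp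
    exact h3.congr hprod

end Core

end Pool.Agent.Y129
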