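import Pool.Agent.Y129.Pkg

/-!
# Linear categories of operators between finite-dimensional spaces
-/

open Module LinearMap

namespace Pool.Agent.Y129

section Defs

variable {K : Type*} [Field K] {Ob : Type*} {H : Ob → Type*} [∀ Y, AddCommGroup (H Y)]
  [∀ Y, Module K (H Y)]

/-- The spaces of operators `C Y Z` contain the identities and are closed under composition. -/
structure IsCat (C : ∀ Y Z, Submodule K (H Y →ₗ[K] H Z)) : Prop where
  id_mem : ∀ Y, LinearMap.id ∈ C Y Y
  comp_mem : ∀ {X Y Z : Ob} {g : H Y →ₗ[K] H Z} {f : H X →ₗ[K] H Y}, g ∈ C Y Z → f ∈ C X Y →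
    g ∘ₗ f ∈ C X Z

/-- The operators `f` such that all composites `g ∘ f`, for `g` in `C Z Y`, have trace zero. -/
def perp (C : ∀ Y Z, Submodule K (H Y →ₗ[K] H Z)) (Y Z : Ob) :
    Submodule K (H Y →ₗ[K] H Z) where
  carrier := {f | ∀ g ∈ C Z Y, LinearMap.trace K (H Y) (g ∘ₗ f) = 0}
  zero_mem' := by
    intro g _
    rw [LinearMap.comp_zero, map_zero]
  add_mem' := by
    intro a b ha hb g hg
    rw [LinearMap.comp_add, map_add, ha g hg, hb g hg, add_zero]
  smul_mem' := by
    intro c a ha g hg
    rw [LinearMap.comp_smul, map_smul, ha g hg, smul_zero]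

lemma mem_perp {C : ∀ Y Z, Submodule K (H Y →ₗ[K] H Z)} {Y Z : Ob} {f : H Y →ₗ[K] H Z} :
    f ∈ perp C Y Z ↔ ∀ g ∈ C Z Y, LinearMap.trace K (H Y) (g ∘ₗ f) = 0 := Iff.rfl

/-- The dimension of the space of operators `S` modulo the trace form. -/
noncomputable def nd (C : ∀ Y Z, Submodule K (H Y →ₗ[K] H Z)) (Y Z : Ob)
    (S : Submodule K (H Y →ₗ[K] H Z)) : ℕ :=
  finrank K (S.map (perp C Y Z).mkQ)

/-- The operators `f c e` for `c` in `C Y Z`. -/
def sand (C : ∀ Y Z, Submodule K (H Y →ₗ[K] H Z)) (Y Z : Ob) (f : Module.End K (H Z))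
    (e : Module.End K (H Y)) : Submodule K (H Y →ₗ[K] H Z) :=
  (C Y Z).map ((LinearMap.lcomp K (H Z) e) ∘ₗ (LinearMap.llcomp K (H Y) (H Z) (H Z) f))

lemma mem_sand {C : ∀ Y Z, Submodule K (H Y →ₗ[K] H Z)} {Y Z : Ob} {f : Module.End K (H Z)}
    {e : Module.End K (H Y)} {a : H Y →ₗ[K] H Z} :
    a ∈ sand C Y Z f e ↔ ∃ c ∈ C Y Z, f ∘ₗ c ∘ₗ e = a := Iff.rfl

lemma sand_le {C : ∀ Y Z, Submodule K (H Y →ₗ[K] H Z)} (hC : IsCat C) {Y Z : Ob}
    {f : Module.End K (H Z)} (hf : f ∈ C Z Z) {e : Module.End K (H Y)} (he : e ∈ C Y Y) :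
    sand C Y Z f e ≤ C Y Z := by
  rintro _ ⟨c, hc, rfl⟩
  exact hC.comp_mem hf (hC.comp_mem hc he)

lemma sand_one (C : ∀ Y Z, Submodule K (H Y →ₗ[K] H Z)) (Y Z : Ob) :
    sand C Y Z LinearMap.id LinearMap.id = C Y Z := by
  ext a
  rw [mem_sand]
  constructor
  · rintro ⟨c, hc, rfl⟩
    exact hc
  · intro h
    exact ⟨a, h, rfl⟩

/-- Two linear maps with the same kernel on `S` map `S` to spaces of the same dimension. -/
lemma finrank_map_eq {V V₁ V₂ : Type*} [AddCommGroup V] [Module K V] [AddCommGroup V₁]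
    [Module K V₁] [AddCommGroup V₂] [Module K V₂] (S : Submodule K V) [Module.Finite K S]
    (u : V →ₗ[K] V₁) (v : V →ₗ[K] V₂) (h : ∀ s ∈ S, u s = 0 ↔ v s = 0) :
    finrank K (S.map u) = finrank K (S.map v) := by
  have h1 := LinearMap.finrank_range_add_finrank_ker (u.domRestrict S)
  have h2 := LinearMap.finrank_range_add_finrank_ker (v.domRestrict S)
  have h3 : LinearMap.ker (u.domRestrict S) = LinearMap.ker (v.domRestrict S) := by
    ext s
    rw [LinearMap.mem_ker, LinearMap.mem_ker, LinearMap.domRestrict_apply,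
      LinearMap.domRestrict_apply]
    exact h s s.2
  rw [h3] at h1
  rw [LinearMap.range_domRestrict] at h1 h2
  omega

end Defs

section Block

variable {K : Type*} [Field K] {ι : Type*} [DecidableEq ι] {M : ι → Type*}
  [∀ i, AddCommGroup (M i)] [∀ i, Module K (M i)]

/-- The operator on the product with a single nonzero block. -/
def emb (i j : ι) (f : M i →ₗ[K] M j) : Module.End K (∀ i, M i) :=
  LinearMap.single K M j ∘ₗ f ∘ₗ LinearMap.proj i

lemma block_emb_same (i j : ι) (f : M i →ₗ[K] M j) :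
    LinearMap.proj j ∘ₗ emb i j f ∘ₗ LinearMap.single K M i = f := by
  ext x
  simp [emb]

lemma block_emb_ne_left {i i' : ι} (h : i' ≠ i) (j j' : ι) (f : M i →ₗ[K] M j) :
    LinearMap.proj j' ∘ₗ emb i j f ∘ₗ LinearMap.single K M i' = 0 := by
  ext x
  simp [emb, Pi.single_eq_of_ne h.symm]

lemma block_emb_ne_right {j j' : ι} (h : j' ≠ j) (i i' : ι) (f : M i →ₗ[K] M j) :
    LinearMap.proj j' ∘ₗ emb i j f ∘ₗ LinearMap.single K M i' = 0 := by
  ext x
  simp [emb, Pi.single_eq_of_ne h]

lemma emb_comp (i j l : ι) (f : M i →ₗ[K] M j) (g : M j →ₗ[K] M l) :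
    emb j l g * emb i j f = emb i l (g ∘ₗ f) := by
  apply LinearMap.ext
  intro x
  simp [emb, Module.End.mul_apply]

lemma emb_id_mul (i j : ι) (b : Module.End K (∀ i, M i)) :
    emb j j LinearMap.id * b * emb i i LinearMap.id =
      emb i j (LinearMap.proj j ∘ₗ b ∘ₗ LinearMap.single K M i) := by
  apply LinearMap.ext
  intro x
  simp [emb, Module.End.mul_apply]

lemma emb_eq_of_subsingleton [Subsingleton ι] (i : ι) (b : Module.End K (∀ i, M i)) :
    emb i i (LinearMap.proj i ∘ₗ b ∘ₗ LinearMap.single K M i) = b := by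
  apply LinearMap.ext
  intro x
  funext j
  have hj : j = i := Subsingleton.elim _ _
  subst hj
  have hx : Pi.single j (x j) = x := by
    funext l
    have hl : l = j := Subsingleton.elim _ _
    subst hl
    simp
  simp [emb, hx]

lemma trace_mul_emb [Fintype ι] [∀ i, Module.Finite K (M i)] (i j : ι) (b : Module.End K (∀ i, M i))
    (f : M i →ₗ[K] M j) :
    LinearMap.trace K (∀ i, M i) (b * emb i j f) =
      LinearMap.trace K (M i)
        ((LinearMap.proj i ∘ₗ b ∘ₗ LinearMap.single K M j) ∘ₗ f) := by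
  have h1 : b * emb i j f = (b ∘ₗ LinearMap.single K M j ∘ₗ f) ∘ₗ LinearMap.proj i := rfl
  rw [h1, LinearMap.trace_comp_comm']
  rfl

end Block

section Pkg

variable {K : Type*} [Field K] {Ob : Type*} {H : Ob → Type*} [∀ Y, AddCommGroup (H Y)]
  [∀ Y, Module K (H Y)] {C : ∀ Y Z, Submodule K (H Y →ₗ[K] H Z)} (hC : IsCat C)
  {ι : Type} [Fintype ι] [DecidableEq ι] (obj : ι → Ob)

/-- The algebra of matrices of operators in the category `C`. -/
def blockAlg : Subalgebra K (Module.End K (∀ i, H (obj i))) where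
  carrier := {φ | ∀ i j, LinearMap.proj j ∘ₗ φ ∘ₗ
    LinearMap.single K (fun i => H (obj i)) i ∈ C (obj i) (obj j)}
  mul_mem' := by
    intro a b ha hb i j
    have h1 : LinearMap.proj j ∘ₗ (a * b) ∘ₗ LinearMap.single K (fun i => H (obj i)) i =
        ∑ l, (LinearMap.proj j ∘ₗ a ∘ₗ LinearMap.single K (fun i => H (obj i)) l) ∘ₗ
          (LinearMap.proj l ∘ₗ b ∘ₗ LinearMap.single K (fun i => H (obj i)) i) := by
      apply LinearMap.ext
      intro x
      have h2 := congrArg (fun g => g (b (Pi.single i x)))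
        (sum_single_proj (K := K) (M := fun i => H (obj i)))
      simp only [LinearMap.sum_apply, LinearMap.comp_apply, LinearMap.id_apply,
        LinearMap.proj_apply, LinearMap.coe_single] at h2
      simp only [LinearMap.sum_apply, LinearMap.comp_apply, Module.End.mul_apply,
        LinearMap.coe_single, LinearMap.proj_apply]
      conv_lhs => rw [← h2]
      rw [map_sum, Finset.sum_apply]
    rw [h1]
    apply Submodule.sum_mem
    intro l _
    exact hC.comp_mem (ha l j) (hb i l)
  add_mem' := by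
    intro a b ha hb i j
    rw [LinearMap.add_comp, LinearMap.comp_add]
    exact Submodule.add_mem _ (ha i j) (hb i j)
  algebraMap_mem' := by
    intro r i j
    by_cases hij : i = j
    · subst hij
      have h1 : LinearMap.proj i ∘ₗ (algebraMap K (Module.End K (∀ i, H (obj i))) r) ∘ₗ
          LinearMap.single K (fun i => H (obj i)) i = r • LinearMap.id := by
        apply LinearMap.ext
        intro x
        simp [Module.algebraMap_end_apply]
      rw [h1]
      exact Submodule.smul_mem _ _ (hC.id_mem _)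
    · have h1 : LinearMap.proj j ∘ₗ (algebraMap K (Module.End K (∀ i, H (obj i))) r) ∘ₗ
          LinearMap.single K (fun i => H (obj i)) i = 0 := by
        apply LinearMap.ext
        intro x
        simp [Module.algebraMap_end_apply, Pi.single_eq_of_ne (Ne.symm hij)]
      rw [h1]
      exact Submodule.zero_mem _

lemma mem_blockAlg {φ : Module.End K (∀ i, H (obj i))} : φ ∈ blockAlg hC obj ↔
    ∀ i j, LinearMap.proj j ∘ₗ φ ∘ₗ LinearMap.single K (fun i => H (obj i)) i ∈
      C (obj i) (obj j) := Iff.rfl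

lemma emb_mem {i j : ι} {f : H (obj i) →ₗ[K] H (obj j)} (hf : f ∈ C (obj i) (obj j)) :
    emb (M := fun i => H (obj i)) i j f ∈ blockAlg hC obj := by
  intro i' j'
  by_cases hi : i' = i
  · subst hi
    by_cases hj : j' = j
    · subst hj
      rw [block_emb_same]
      exact hf
    · rw [block_emb_ne_right hj]
      exact Submodule.zero_mem _
  · rw [block_emb_ne_left hi]
    exact Submodule.zero_mem _

variable [∀ Y, Module.Finite K (H Y)]

/-- The data for the algebra of matrices of operators. -/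
noncomputable def rho (w : WData K (blockAlg hC obj)) (i : ι) (e : Module.End K (H (obj i)))
    (k : Fin w.n) : ℕ := by
  classical
  exact if h : e ∈ C (obj i) (obj i) then w.rk ⟨emb (M := fun i => H (obj i)) i i e,
    emb_mem hC obj h⟩ k else 0

omit [∀ Y, Module.Finite K (H Y)] in
lemma rho_eq (w : WData K (blockAlg hC obj)) {i : ι} {e : Module.End K (H (obj i))}
    (h : e ∈ C (obj i) (obj i)) (k : Fin w.n) :
    rho hC obj w i e k = w.rk ⟨emb (M := fun i => H (obj i)) i i e, emb_mem hC obj h⟩ k := by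
  rw [rho, dif_pos h]

omit [∀ Y, Module.Finite K (H Y)] in
lemma emb_idem {i : ι} {e : Module.End K (H (obj i))} (h : e ∈ C (obj i) (obj i))
    (he : IsIdempotentElem e) : IsIdempotentElem
      (⟨emb (M := fun i => H (obj i)) i i e, emb_mem hC obj h⟩ : blockAlg hC obj) := by
  apply Subtype.ext
  change emb (M := fun i => H (obj i)) i i e * emb (M := fun i => H (obj i)) i i e = _
  rw [emb_comp]
  congr 1

/-- The elements of `C (obj i) (obj j)` in the semisimple quotient. -/
lemma pi_emb_eq_zero [CharZero K] (w : WData K (blockAlg hC obj)) {i j : ι}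
    {f : H (obj i) →ₗ[K] H (obj j)} (hf : f ∈ C (obj i) (obj j)) :
    w.π ⟨emb (M := fun i => H (obj i)) i j f, emb_mem hC obj hf⟩ = 0 ↔
      f ∈ perp C (obj i) (obj j) := by
  rw [w.radical (blockAlg hC obj).val Subtype.val_injective, mem_perp]
  constructor
  · intro h g hg
    have h1 := h ⟨emb (M := fun i => H (obj i)) j i g, emb_mem hC obj hg⟩
    rw [map_mul] at h1
    change LinearMap.trace K _ (emb (M := fun i => H (obj i)) j i g *
      emb (M := fun i => H (obj i)) i j f) = 0 at h1
    rw [trace_mul_emb, block_emb_same] at h1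
    exact h1
  · intro h b
    rw [map_mul]
    change LinearMap.trace K _ (b.1 * emb (M := fun i => H (obj i)) i j f) = 0
    rw [trace_mul_emb]
    exact h _ (b.2 j i)

/-- The linear map from the operators to the semisimple quotient. -/
noncomputable def toSS (w : WData K (blockAlg hC obj)) (i j : ι) :
    C (obj i) (obj j) →ₗ[K] (∀ i, Matrix (Fin (w.d i)) (Fin (w.d i)) K) where
  toFun c := w.π ⟨emb (M := fun i => H (obj i)) i j c.1, emb_mem hC obj c.2⟩
  map_add' := by
    intro a b
    rw [← map_add]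
    congr 1
    apply Subtype.ext
    change emb (M := fun i => H (obj i)) i j (a.1 + b.1) =
      emb (M := fun i => H (obj i)) i j a.1 + emb (M := fun i => H (obj i)) i j b.1
    rw [emb, LinearMap.add_comp, LinearMap.comp_add]
    rfl
  map_smul' := by
    intro r a
    rw [RingHom.id_apply, ← map_smul]
    congr 1
    apply Subtype.ext
    change emb (M := fun i => H (obj i)) i j (r • a.1) =
      r • emb (M := fun i => H (obj i)) i j a.1
    rw [emb, LinearMap.smul_comp, LinearMap.comp_smul]
    rfl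

omit [∀ Y, Module.Finite K (H Y)] in
/-- The operators `f c e`, as elements of `C`. -/
lemma toSS_range (w : WData K (blockAlg hC obj)) {i j : ι}
    {e : Module.End K (H (obj i))} (he : e ∈ C (obj i) (obj i))
    {f : Module.End K (H (obj j))} (hf : f ∈ C (obj j) (obj j)) :
    ((sand C (obj i) (obj j) f e).comap (C (obj i) (obj j)).subtype).map (toSS hC obj w i j) =
      range (LinearMap.mulLeft K (w.π ⟨emb (M := fun i => H (obj i)) j j f,
        emb_mem hC obj hf⟩) ∘ₗ LinearMap.mulRight K (w.π ⟨emb (M := fun i => H (obj i)) i i e,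
          emb_mem hC obj he⟩)) := by
  have hle : sand C (obj i) (obj j) f e ≤ C (obj i) (obj j) := sand_le hC hf he
  have key : ∀ c (hc : c ∈ C (obj i) (obj j)) (hc' : f ∘ₗ c ∘ₗ e ∈ C (obj i) (obj j)),
      toSS hC obj w i j ⟨_, hc'⟩ = w.π ⟨emb (M := fun i => H (obj i)) j j f,
        emb_mem hC obj hf⟩ * (w.π ⟨emb (M := fun i => H (obj i)) i j c, emb_mem hC obj hc⟩ *
          w.π ⟨emb (M := fun i => H (obj i)) i i e, emb_mem hC obj he⟩) := by
    intro c hc hc'
    rw [← map_mul, ← map_mul]
    apply congrArg w.π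
    apply Subtype.ext
    change emb (M := fun i => H (obj i)) i j (f ∘ₗ c ∘ₗ e) =
      emb (M := fun i => H (obj i)) j j f * (emb (M := fun i => H (obj i)) i j c *
        emb (M := fun i => H (obj i)) i i e)
    rw [emb_comp, emb_comp]
  have key2 : ∀ b : blockAlg hC obj, w.π ⟨emb (M := fun i => H (obj i)) j j f,
        emb_mem hC obj hf⟩ * (w.π ⟨emb (M := fun i => H (obj i)) i j
          (LinearMap.proj j ∘ₗ b.1 ∘ₗ LinearMap.single K (fun i => H (obj i)) i),
            emb_mem hC obj (b.2 i j)⟩ *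
          w.π ⟨emb (M := fun i => H (obj i)) i i e, emb_mem hC obj he⟩) =
        w.π ⟨emb (M := fun i => H (obj i)) j j f, emb_mem hC obj hf⟩ * (w.π b *
          w.π ⟨emb (M := fun i => H (obj i)) i i e, emb_mem hC obj he⟩) := by
    intro b
    rw [← map_mul, ← map_mul, ← map_mul, ← map_mul]
    apply congrArg w.π
    apply Subtype.ext
    change emb (M := fun i => H (obj i)) j j f * (emb (M := fun i => H (obj i)) i j
      (LinearMap.proj j ∘ₗ b.1 ∘ₗ LinearMap.single K (fun i => H (obj i)) i) *
        emb (M := fun i => H (obj i)) i i e) = emb (M := fun i => H (obj i)) j j f *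
          (b.1 * emb (M := fun i => H (obj i)) i i e)
    rw [← emb_id_mul]
    have h8 : emb (M := fun i => H (obj i)) j j f *
        emb (M := fun i => H (obj i)) j j LinearMap.id =
          emb (M := fun i => H (obj i)) j j f := by
      rw [emb_comp, LinearMap.comp_id]
    have h9 : emb (M := fun i => H (obj i)) i i LinearMap.id *
        emb (M := fun i => H (obj i)) i i e = emb (M := fun i => H (obj i)) i i e := by
      rw [emb_comp, LinearMap.id_comp]
    rw [mul_assoc, mul_assoc, h9, ← mul_assoc, h8]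
  apply le_antisymm
  · rintro _ ⟨c, hc, rfl⟩
    obtain ⟨c', hc', h5⟩ := hc
    refine ⟨w.π ⟨emb (M := fun i => H (obj i)) i j c', emb_mem hC obj hc'⟩, ?_⟩
    rw [LinearMap.comp_apply, LinearMap.mulLeft_apply, LinearMap.mulRight_apply]
    have h6 : f ∘ₗ c' ∘ₗ e ∈ C (obj i) (obj j) := hle ⟨c', hc', rfl⟩
    rw [← key c' hc' h6]
    congr 1
    exact Subtype.ext h5
  · rintro _ ⟨r, rfl⟩
    obtain ⟨b, rfl⟩ := w.surj r
    have h6 : f ∘ₗ (LinearMap.proj j ∘ₗ b.1 ∘ₗ
        LinearMap.single K (fun i => H (obj i)) i) ∘ₗ e ∈ sand C (obj i) (obj j) f e :=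
      ⟨_, b.2 i j, rfl⟩
    refine ⟨⟨_, hle h6⟩, h6, ?_⟩
    rw [LinearMap.comp_apply, LinearMap.mulLeft_apply, LinearMap.mulRight_apply]
    rw [key _ (b.2 i j) (hle h6), key2]

/-- The dimension of the space of operators `f c e` modulo the trace form. -/
lemma nd_sand [CharZero K] (w : WData K (blockAlg hC obj)) {i j : ι}
    {e : Module.End K (H (obj i))} (he : e ∈ C (obj i) (obj i)) (he' : IsIdempotentElem e)
    {f : Module.End K (H (obj j))} (hf : f ∈ C (obj j) (obj j)) (hf' : IsIdempotentElem f) :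
    nd C (obj i) (obj j) (sand C (obj i) (obj j) f e) =
      ∑ k, rho hC obj w j f k * rho hC obj w i e k := by
  have h1 := w.finrank_sandwich (emb_idem hC obj he he') (emb_idem hC obj hf hf')
  simp only [rho_eq hC obj w he, rho_eq hC obj w hf]
  rw [← h1, nd, ← toSS_range hC obj w he hf]
  have hle : sand C (obj i) (obj j) f e ≤ C (obj i) (obj j) := sand_le hC hf he
  set S : Submodule K (C (obj i) (obj j)) :=
    (sand C (obj i) (obj j) f e).comap (C (obj i) (obj j)).subtype with hS
  have hS' : S.map (C (obj i) (obj j)).subtype = sand C (obj i) (obj j) f e := by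
    rw [hS, Submodule.map_comap_eq, Submodule.range_subtype, inf_eq_right]
    exact hle
  rw [← hS', ← Submodule.map_comp]
  apply finrank_map_eq
  intro s _
  rw [LinearMap.comp_apply, Submodule.mkQ_apply, Submodule.Quotient.mk_eq_zero]
  exact (pi_emb_eq_zero hC obj w s.2).symm

/-- A family of subspaces which is stable under the operators in `C`. -/
def IsStable (C : ∀ Y Z, Submodule K (H Y →ₗ[K] H Z)) (𝒢 : ∀ Y, Submodule K (H Y)) : Prop :=
  ∀ Y Z, ∀ f ∈ C Y Z, ∀ a ∈ 𝒢 Y, f a ∈ 𝒢 Z

omit [∀ Y, Module.Finite K (H Y)] in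
lemma block_stable {𝒢 : ∀ Y, Submodule K (H Y)} (h𝒢 : IsStable C 𝒢)
    (b : blockAlg hC obj) : ∀ x ∈ Submodule.pi Set.univ (fun i => 𝒢 (obj i)),
      b.1 x ∈ Submodule.pi Set.univ (fun i => 𝒢 (obj i)) := by
  intro x hx
  rw [Submodule.mem_pi] at hx ⊢
  intro j _
  have h2 := congrArg (fun g => g x) (sum_single_proj (K := K) (M := fun i => H (obj i)))
  simp only [LinearMap.sum_apply, LinearMap.comp_apply, LinearMap.id_apply,
    LinearMap.proj_apply, LinearMap.coe_single] at h2
  rw [← h2, map_sum, Finset.sum_apply]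
  apply Submodule.sum_mem
  intro i _
  exact h𝒢 _ _ _ (b.2 i j) _ (hx i (Set.mem_univ i))

/-- The action of the algebra of matrices on a stable family of subspaces. -/
noncomputable def stabRep {𝒢 : ∀ Y, Submodule K (H Y)} (h𝒢 : IsStable C 𝒢) :
    blockAlg hC obj →ₐ[K] Module.End K (Submodule.pi Set.univ (fun i => 𝒢 (obj i)) :
      Submodule K (∀ i, H (obj i))) :=
  AlgHom.ofLinearMap
    { toFun := fun b => b.1.restrict (block_stable hC obj h𝒢 b)
      map_add' := by
        intro a b
        rfl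
      map_smul' := by
        intro r a
        rfl } rfl (fun a b => rfl)

omit [∀ Y, Module.Finite K (H Y)] in
lemma finrank_range_stabRep {𝒢 : ∀ Y, Submodule K (H Y)} (h𝒢 : IsStable C 𝒢) {i : ι}
    {e : Module.End K (H (obj i))} (he : e ∈ C (obj i) (obj i)) :
    finrank K (range (stabRep hC obj h𝒢 ⟨emb (M := fun i => H (obj i)) i i e,
      emb_mem hC obj he⟩)) = finrank K ((𝒢 (obj i)).map e) := by
  -- both are isomorphic to the image in the product
  have h1 : (range (stabRep hC obj h𝒢 ⟨emb (M := fun i => H (obj i)) i i e,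
      emb_mem hC obj he⟩)).map (Submodule.pi Set.univ (fun i => 𝒢 (obj i))).subtype =
      ((𝒢 (obj i)).map e).map (LinearMap.single K (fun i => H (obj i)) i) := by
    apply le_antisymm
    · rintro _ ⟨_, ⟨x, rfl⟩, rfl⟩
      refine ⟨e (x.1 i), ⟨x.1 i, ?_, rfl⟩, rfl⟩
      have := x.2
      rw [Submodule.mem_pi] at this
      exact this i (Set.mem_univ i)
    · rintro _ ⟨_, ⟨y, hy, rfl⟩, rfl⟩
      have h2 : Pi.single i y ∈ Submodule.pi Set.univ (fun i => 𝒢 (obj i)) := by
        rw [Submodule.mem_pi]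
        intro j _
        by_cases hj : j = i
        · subst hj
          rw [Pi.single_eq_same]
          exact hy
        · rw [Pi.single_eq_of_ne hj]
          exact Submodule.zero_mem _
      refine ⟨_, ⟨⟨_, h2⟩, rfl⟩, ?_⟩
      change emb (M := fun i => H (obj i)) i i e (Pi.single i y) = _
      simp [emb]
  have h3 := LinearEquiv.finrank_eq (Submodule.equivMapOfInjective
    (Submodule.pi Set.univ (fun i => 𝒢 (obj i))).subtype Subtype.val_injective
    (range (stabRep hC obj h𝒢 ⟨emb (M := fun i => H (obj i)) i i e, emb_mem hC obj he⟩)))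
  have h4 := LinearEquiv.finrank_eq (Submodule.equivMapOfInjective
    (LinearMap.single K (fun i => H (obj i)) i)
    (Pi.single_injective (M := fun i => H (obj i)) i) ((𝒢 (obj i)).map e))
  rw [h3, h1, ← h4]

/-- **The package.** For a finite family of objects there are multiplicities of idempotents such
that the dimensions of the spaces `f C e` modulo the trace form and the dimensions of the images
of idempotents on stable families of subspaces are given by scalar products. -/
theorem exists_pkg [IsAlgClosed K] [CharZero K] (hC : IsCat C) {ι : Type} [Fintype ι]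
    [DecidableEq ι] (obj : ι → Ob) : ∃ (n : ℕ) (ρ : ∀ i, Module.End K (H (obj i)) → Fin n → ℕ),
      (∀ i j, ∀ e ∈ C (obj i) (obj i), IsIdempotentElem e → ∀ f ∈ C (obj j) (obj j),
        IsIdempotentElem f → nd C (obj i) (obj j) (sand C (obj i) (obj j) f e) =
          ∑ k, ρ j f k * ρ i e k) ∧
      (∀ 𝒢 : ∀ Y, Submodule K (H Y), IsStable C 𝒢 → ∃ g : Fin n → ℕ,
        ∀ i, ∀ e ∈ C (obj i) (obj i), IsIdempotentElem e →
          finrank K ((𝒢 (obj i)).map e) = ∑ k, g k * ρ i e k) ∧
      (Subsingleton ι → ∀ i k, ∃ e ∈ C (obj i) (obj i), IsIdempotentElem e ∧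
        ∀ l, ρ i e l = if l = k then 1 else 0) ∧
      (∀ i, ∀ e ∈ C (obj i) (obj i), IsIdempotentElem e → ∀ f ∈ C (obj i) (obj i),
        IsIdempotentElem f → IsIdempotentElem (e + f) → ∀ k,
          ρ i (e + f) k = ρ i e k + ρ i f k) := by
  obtain ⟨w⟩ := nonempty_wdata (K := K) (blockAlg hC obj)
  refine ⟨w.n, rho hC obj w, ?_, ?_, ?_, ?_⟩
  · intro i j e he he' f hf hf'
    exact nd_sand hC obj w he he' hf hf'
  · intro 𝒢 h𝒢
    choose E hE' hE using w.exists_lift
    refine ⟨fun k => finrank K (range (stabRep hC obj h𝒢 (E k))), ?_⟩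
    intro i e he he'
    rw [← finrank_range_stabRep hC obj h𝒢 he,
      w.module_rank (stabRep hC obj h𝒢) E hE' hE (emb_idem hC obj he he')]
    simp only [rho_eq hC obj w he]
  · intro hι i k
    obtain ⟨E, hE', hE⟩ := w.exists_lift k
    have h1 : (LinearMap.proj i ∘ₗ E.1 ∘ₗ LinearMap.single K (fun i => H (obj i)) i) ∈
      C (obj i) (obj i) := E.2 i i
    have h2 : (⟨emb (M := fun i => H (obj i)) i i (LinearMap.proj i ∘ₗ E.1 ∘ₗ
        LinearMap.single K (fun i => H (obj i)) i), emb_mem hC obj h1⟩ : blockAlg hC obj) =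
        E := by
      apply Subtype.ext
      exact emb_eq_of_subsingleton i E.1
    refine ⟨_, h1, ?_, ?_⟩
    · have h3 : E.1 * E.1 = E.1 := congrArg Subtype.val hE'.eq
      have h4 := congrArg (fun φ : Module.End K (∀ i, H (obj i)) => LinearMap.proj i ∘ₗ φ ∘ₗ
        LinearMap.single K (fun i => H (obj i)) i) h3
      rw [IsIdempotentElem]
      refine Eq.trans ?_ h4
      have h5 := emb_eq_of_subsingleton (M := fun i => H (obj i)) (K := K) i E.1
      have h6 : emb (M := fun i => H (obj i)) i i (LinearMap.proj i ∘ₗ E.1 ∘ₗ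
        LinearMap.single K (fun i => H (obj i)) i) * emb (M := fun i => H (obj i)) i i
          (LinearMap.proj i ∘ₗ E.1 ∘ₗ LinearMap.single K (fun i => H (obj i)) i) =
            E.1 * E.1 := by rw [h5]
      rw [emb_comp] at h6
      have h7 := congrArg (fun φ : Module.End K (∀ i, H (obj i)) => LinearMap.proj i ∘ₗ φ ∘ₗ
        LinearMap.single K (fun i => H (obj i)) i) h6
      rw [← h7]
      exact (block_emb_same (M := fun i => H (obj i)) i i _).symm
    · intro l
      rw [rho_eq hC obj w h1, h2]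
      have h3 := w.trace_eq_rk hE' l
      rw [hE] at h3
      split_ifs with h
      · subst h
        rw [Pi.single_eq_same, Matrix.trace_single_eq_same] at h3
        exact_mod_cast h3.symm
      · rw [Pi.single_eq_of_ne h, Matrix.trace_zero] at h3
        exact_mod_cast h3.symm
  · intro i e he he' f hf hf' hef k
    have h1 := w.trace_eq_rk (emb_idem hC obj he he') k
    have h2 := w.trace_eq_rk (emb_idem hC obj hf hf') k
    have h3 := w.trace_eq_rk (emb_idem hC obj (Submodule.add_mem _ he hf) hef) k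
    have h4 : (⟨emb (M := fun i => H (obj i)) i i (e + f),
        emb_mem hC obj (Submodule.add_mem _ he hf)⟩ : blockAlg hC obj) =
        ⟨emb (M := fun i => H (obj i)) i i e, emb_mem hC obj he⟩ +
          ⟨emb (M := fun i => H (obj i)) i i f, emb_mem hC obj hf⟩ := by
      apply Subtype.ext
      change emb (M := fun i => H (obj i)) i i (e + f) =
        emb (M := fun i => H (obj i)) i i e + emb (M := fun i => H (obj i)) i i f
      rw [emb, LinearMap.add_comp, LinearMap.comp_add]
      rfl
    rw [rho_eq hC obj w he, rho_eq hC obj w hf, rho_eq hC obj w (Submodule.add_mem _ he hf)]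
    have h5 : (w.rk ⟨emb (M := fun i => H (obj i)) i i (e + f),
        emb_mem hC obj (Submodule.add_mem _ he hf)⟩ k : K) =
        (w.rk ⟨emb (M := fun i => H (obj i)) i i e, emb_mem hC obj he⟩ k : K) +
        (w.rk ⟨emb (M := fun i => H (obj i)) i i f, emb_mem hC obj hf⟩ k : K) := by
      rw [← h1, ← h2, ← h3, h4, map_add, Pi.add_apply, Matrix.trace_add]
    exact_mod_cast h5

end Pkg

end Pool.Agent.Y129
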