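import Pool.Agent.Y129.Cat

/-!
# Consequences: the Schwarz inequality for dimensions, decompositions
-/

open Module LinearMap Finset

namespace Pool.Agent.Y129

variable {K : Type*} [Field K] {Ob : Type*} {H : Ob → Type*} [∀ Y, AddCommGroup (H Y)]
  [∀ Y, Module K (H Y)] {C : ∀ Y Z, Submodule K (H Y →ₗ[K] H Z)} [∀ Y, Module.Finite K (H Y)]
  [IsAlgClosed K] [CharZero K]

/-- The Schwarz inequality for the dimensions of spaces of operators. -/
theorem nd_sq_le (hC : IsCat C) (Y Z : Ob) {e : Module.End K (H Y)} (he : e ∈ C Y Y)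
    (he' : IsIdempotentElem e) {f : Module.End K (H Z)} (hf : f ∈ C Z Z)
    (hf' : IsIdempotentElem f) :
    (nd C Y Z (sand C Y Z f e)) ^ 2 ≤ nd C Y Y (sand C Y Y e e) * nd C Z Z (sand C Z Z f f) := by
  obtain ⟨n, ρ, h1, -, -, -⟩ := exists_pkg hC (fun b : Bool => bif b then Z else Y)
  have e1 := h1 false true e he he' f hf hf'
  have e2 := h1 false false e he he' e he he'
  have e3 := h1 true true f hf hf' f hf hf'
  change nd C Y Z (sand C Y Z f e) = _ at e1
  change nd C Y Y (sand C Y Y e e) = _ at e2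
  change nd C Z Z (sand C Z Z f f) = _ at e3
  rw [e1, e2, e3, mul_comm]
  have := Finset.sum_mul_sq_le_sq_mul_sq univ (fun k => (ρ true f k : ℤ))
    (fun k => (ρ false e k : ℤ))
  have h4 : ((∑ k, ρ true f k * ρ false e k : ℕ) : ℤ) ^ 2 ≤
      ((∑ k, ρ true f k * ρ true f k : ℕ) : ℤ) * ((∑ k, ρ false e k * ρ false e k : ℕ) : ℤ) := by
    push_cast
    simpa only [sq] using this
  exact_mod_cast h4

/-- Additivity. -/
theorem nd_add (hC : IsCat C) (Y Z : Ob) {e : Module.End K (H Y)} (he : e ∈ C Y Y)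
    (he' : IsIdempotentElem e) :
    nd C Y Z (sand C Y Z LinearMap.id e) + nd C Y Z (sand C Y Z LinearMap.id (1 - e)) =
      nd C Y Z (C Y Z) := by
  obtain ⟨n, ρ, h1, -, -, h2⟩ := exists_pkg hC (fun b : Bool => bif b then Z else Y)
  have hid : ∀ X : Ob, (1 : Module.End K (H X)) ∈ C X X := fun X => hC.id_mem X
  have he2 : (1 - e) ∈ C Y Y := Submodule.sub_mem _ (hid Y) he
  have he2' : IsIdempotentElem (1 - e) := he'.one_sub
  have h3 : IsIdempotentElem (e + (1 - e)) := by
    rw [add_sub_cancel]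
    exact IsIdempotentElem.one
  have h2' : ∀ k, ρ false (e + (1 - e) : Module.End K (H Y)) k =
      ρ false e k + ρ false (1 - e : Module.End K (H Y)) k :=
    h2 false e he he' (1 - e : Module.End K (H Y)) he2 he2' h3
  have e1 := h1 false true e he he' 1 (hid Z) IsIdempotentElem.one
  have e2 := h1 false true (1 - e : Module.End K (H Y)) he2 he2' 1 (hid Z)
    IsIdempotentElem.one
  have e3 := h1 false true 1 (hid Y) IsIdempotentElem.one 1 (hid Z) IsIdempotentElem.one
  change nd C Y Z (sand C Y Z LinearMap.id e) = _ at e1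
  change nd C Y Z (sand C Y Z LinearMap.id (1 - e)) = _ at e2
  change nd C Y Z (sand C Y Z LinearMap.id LinearMap.id) = _ at e3
  rw [sand_one] at e3
  rw [e1, e2, e3, ← Finset.sum_add_distrib]
  apply Finset.sum_congr rfl
  intro k _
  have h4 := h2' k
  rw [add_sub_cancel] at h4
  change ρ false 1 k = _ at h4
  rw [h4]
  ring

/-- A decomposition of the identity of the object `U` into primitive idempotents: it computes the
dimensions of all stable families of subspaces. -/
theorem exists_primitive (hC : IsCat C) (U : Ob) : ∃ (n : ℕ) (ε : Fin n → Module.End K (H U)),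
    (∀ k, ε k ∈ C U U) ∧ (∀ k, IsIdempotentElem (ε k)) ∧
    (∀ k l, nd C U U (sand C U U (ε k) (ε l)) = if k = l then 1 else 0) ∧
    ∀ 𝒢 : ∀ Y, Submodule K (H Y), IsStable C 𝒢 →
      finrank K (𝒢 U) = ∑ k, nd C U U (sand C U U LinearMap.id (ε k)) *
        finrank K ((𝒢 U).map (ε k)) := by
  obtain ⟨n, ρ, h1, h2, h3, -⟩ := exists_pkg hC (fun _ : Unit => U)
  have hid : (1 : Module.End K (H U)) ∈ C U U := hC.id_mem U
  choose ε hε hε' hε'' using h3 inferInstance ()
  refine ⟨n, ε, hε, hε', ?_, ?_⟩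
  · intro k l
    have e1 := h1 () () (ε l) (hε l) (hε' l) (ε k) (hε k) (hε' k)
    change nd C U U (sand C U U (ε k) (ε l)) = _ at e1
    rw [e1]
    simp [hε'', eq_comm]
  · intro 𝒢 h𝒢
    obtain ⟨g, hg⟩ := h2 𝒢 h𝒢
    have e1 := hg () 1 hid IsIdempotentElem.one
    have e2 : (𝒢 U).map (1 : Module.End K (H U)) = 𝒢 U := Submodule.map_id _
    change finrank K ((𝒢 U).map (1 : Module.End K (H U))) = _ at e1
    rw [e2] at e1
    rw [e1]
    apply Finset.sum_congr rfl
    intro k _
    have e3 := hg () (ε k) (hε k) (hε' k)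
    have e4 := h1 () () (ε k) (hε k) (hε' k) 1 hid IsIdempotentElem.one
    change finrank K ((𝒢 U).map (ε k)) = _ at e3
    change nd C U U (sand C U U LinearMap.id (ε k)) = _ at e4
    rw [e3, e4]
    simp [hε'', mul_comm]

/-- The lower bound for the dimensions of a stable family of subspaces. -/
theorem sum_le_finrank (hC : IsCat C) (U Z : Ob) {n : ℕ} {ε : Fin n → Module.End K (H U)}
    (hε : ∀ k, ε k ∈ C U U) (hε' : ∀ k, IsIdempotentElem (ε k))
    (hε'' : ∀ k l, nd C U U (sand C U U (ε k) (ε l)) = if k = l then 1 else 0)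
    {𝒢 : ∀ Y, Submodule K (H Y)} (h𝒢 : IsStable C 𝒢) :
    ∑ k, nd C U Z (sand C U Z LinearMap.id (ε k)) * finrank K ((𝒢 U).map (ε k)) ≤
      finrank K (𝒢 Z) := by
  obtain ⟨m, ρ, h1, h2, -, -⟩ := exists_pkg hC (fun b : Bool => bif b then Z else U)
  have hid : (1 : Module.End K (H Z)) ∈ C Z Z := hC.id_mem Z
  obtain ⟨g, hg⟩ := h2 𝒢 h𝒢
  have e0 : ∀ k l, ∑ j, ρ false (ε k) j * ρ false (ε l) j = if k = l then 1 else 0 := by
    intro k l
    have e1 := h1 false false (ε l) (hε l) (hε' l) (ε k) (hε k) (hε' k)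
    change nd C U U (sand C U U (ε k) (ε l)) = _ at e1
    rw [← e1, hε'']
  -- the index
  have e1 : ∀ k, ∃ j, ρ false (ε k) j = 1 ∧ ∀ j', j' ≠ j → ρ false (ε k) j' = 0 := by
    intro k
    have e2 := e0 k k
    rw [if_pos rfl] at e2
    obtain ⟨j, hj⟩ : ∃ j, ρ false (ε k) j ≠ 0 := by
      by_contra hcon
      push Not at hcon
      simp [hcon] at e2
    have e3 := Finset.add_sum_erase univ (fun j => ρ false (ε k) j * ρ false (ε k) j)
      (Finset.mem_univ j)
    rw [e2] at e3
    have e4 : 1 ≤ ρ false (ε k) j * ρ false (ε k) j := Nat.one_le_iff_ne_zero.2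
      (mul_ne_zero hj hj)
    have e5 : ∑ x ∈ univ.erase j, ρ false (ε k) x * ρ false (ε k) x = 0 := by omega
    refine ⟨j, ?_, ?_⟩
    · have e6 : ρ false (ε k) j * ρ false (ε k) j = 1 := by omega
      exact Nat.eq_one_of_mul_eq_one_left e6
    · intro j' hj'
      have e6 := (Finset.sum_eq_zero_iff.1 e5) j' (Finset.mem_erase.2 ⟨hj', mem_univ _⟩)
      exact mul_self_eq_zero.1 e6
  choose φ hφ hφ' using e1
  have hinj : Function.Injective φ := by
    intro k l hkl
    by_contra hne
    have e2 := e0 k l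
    rw [if_neg hne, Finset.sum_eq_zero_iff] at e2
    have e3 := e2 (φ k) (mem_univ _)
    rw [hφ, hkl, hφ] at e3
    simp at e3
  have e2 := hg true 1 hid IsIdempotentElem.one
  have e3 : (𝒢 Z).map (1 : Module.End K (H Z)) = 𝒢 Z := Submodule.map_id _
  change finrank K ((𝒢 Z).map (1 : Module.End K (H Z))) = _ at e2
  rw [e3] at e2
  rw [e2]
  have e4 : ∀ k, nd C U Z (sand C U Z LinearMap.id (ε k)) * finrank K ((𝒢 U).map (ε k)) =
      g (φ k) * ρ true 1 (φ k) := by
    intro k
    have e5 := hg false (ε k) (hε k) (hε' k)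
    have e6 := h1 false true (ε k) (hε k) (hε' k) 1 hid IsIdempotentElem.one
    change finrank K ((𝒢 U).map (ε k)) = _ at e5
    change nd C U Z (sand C U Z LinearMap.id (ε k)) = _ at e6
    rw [e5, e6, Finset.sum_eq_single (φ k), Finset.sum_eq_single (φ k), hφ]
    · change ρ true 1 (φ k) * 1 * _ = _
      ring
    · intro j _ hj
      rw [hφ' k j hj, mul_zero]
    · simp
    · intro j _ hj
      rw [hφ' k j hj, mul_zero]
    · simp
  rw [Finset.sum_congr rfl (fun k _ => e4 k)]
  have e7 := Finset.sum_image (s := univ) (g := φ) (f := fun j => g j * ρ true 1 j)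
    (fun a _ b _ h => hinj h)
  rw [← e7]
  apply Finset.sum_le_sum_of_subset
  exact Finset.subset_univ _

end Pool.Agent.Y129
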