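import Pool.Agent.H914R2.GBasic
import Pool.Agent.H914R2.ExtOp
import Pool.Agent.H281R3.HT.Defs
import Pool.Agent.Y129.CatCons

/-!
# The category of algebraic correspondences
-/

open CategoryTheory AlgebraicGeometry Finset

universe u v

namespace Pool.Agent.Y129

open Pool.Agent.H914 Pool.Agent.H914.VarClass Pool.Agent.H914.VarClass.Obj
  Pool.Agent.H914.WeilCohomology Pool.Agent.H281R3.HT

variable {k : Type u} [Field k] {𝒱 : VarClass k} {ops : CycleOps 𝒱}

/-- The operators which are linear combinations of algebraic correspondences (of all degrees). -/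
def CC (W : WeilCohomology.{u, v} ops) (Y Z : 𝒱.Obj) : Submodule W.K (W.H Y →ₗ[W.K] W.H Z) :=
  ⨆ d : ℤ, KOp W Y Z d

variable {W : WeilCohomology.{u, v} ops} {X Y Z : 𝒱.Obj}

/-- The parity operator. -/
noncomputable abbrev pa (W : WeilCohomology.{u, v} ops) (X : 𝒱.Obj) : Module.End W.K (W.H X) :=
  par (W.isInternal X)

lemma pa_apply {i : ℕ} {a : W.H X} (ha : a ∈ W.gr X i) : pa W X a = (-1 : W.K) ^ i • a :=
  scal_apply _ _ ha

lemma pa_pow_apply {i : ℕ} {a : W.H X} (ha : a ∈ W.gr X i) (j : ℕ) :
    (pa W X ^ j) a = (-1 : W.K) ^ (j * i) • a := by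
  induction j with
  | zero => simp
  | succ j ih =>
    rw [pow_succ', Module.End.mul_apply, ih, map_smul, pa_apply ha, smul_smul, ← pow_add]
    congr 2
    ring

lemma pa_pa (a : W.H X) : pa W X (pa W X a) = a := by
  have := congrArg (fun f => f a) (par_mul_par (W.isInternal X))
  exact this

/-- The sign rule. -/
lemma comm_pa {f : Z ⟶ X} {g : Z ⟶ Y} {j : ℕ} {b : W.H Y} (hb : b ∈ W.gr Y j) (x : W.H X) :
    W.map g b * W.map f x = W.map f ((pa W X ^ j) x) * W.map g b := by
  refine gr_induction (W.isInternal X) (p := fun x =>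
    W.map g b * W.map f x = W.map f ((pa W X ^ j) x) * W.map g b) ?_ ?_ x
  · intro i x hx
    rw [pa_pow_apply hx, map_smul, smul_mul_assoc, W.comm (W.map_mem g hb) (W.map_mem f hx)]
  · intro x y hx hy
    rw [map_add, map_add, mul_add, hx, hy, map_add, add_mul]

/-- The symmetry of the trace. -/
lemma tr_comm_pa (x y : W.H X) : W.tr X (x * y) = W.tr X (y * pa W X x) := by
  refine gr_induction (W.isInternal X) (p := fun x => W.tr X (x * y) = W.tr X (y * pa W X x))
    ?_ ?_ x
  · intro i x hx
    refine gr_induction (W.isInternal X) (p := fun y => W.tr X (x * y) = W.tr X (y * pa W X x))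
      ?_ ?_ y
    · intro j y hy
      rw [pa_apply hx, mul_smul_comm, map_smul, W.comm hx hy, map_smul]
      by_cases hij : j + i = 2 * X.dim
      · congr 1
        have h1 : Even (i * j + i) := by
          have : i * j + i = i * (j + 1) := by ring
          rw [this]
          rcases Nat.even_or_odd i with h | h
          · exact h.mul_right _
          · apply Even.mul_left
            have : Odd j := by
              rcases Nat.even_or_odd j with h' | h'
              · exfalso
                have := h'.add_odd h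
                rw [hij] at this
                exact (Nat.not_even_iff_odd.2 this) (even_two_mul _)
              · exact h'
            exact this.add_one
        have h2 : (-1 : W.K) ^ (i * j) * (-1 : W.K) ^ i = 1 := by
          rw [← pow_add, h1.neg_one_pow]
        have h3 : (-1 : W.K) ^ i * (-1 : W.K) ^ i = 1 := by
          rw [← pow_add, ← two_mul, pow_mul]; simp
        calc (-1 : W.K) ^ (i * j) = (-1 : W.K) ^ (i * j) * ((-1 : W.K) ^ i * (-1 : W.K) ^ i) := by
              rw [h3, mul_one]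
          _ = _ := by rw [← mul_assoc, h2, one_mul]
      · rw [W.tr_eq_zero (W.mul_mem hy hx) hij, smul_zero, smul_zero]
    · intro a b ha hb
      rw [mul_add, add_mul, map_add, map_add, ha, hb]
  · intro a b ha hb
    rw [add_mul, map_add, map_add, mul_add, map_add, ha, hb]

lemma tr_comm_pa' (x y : W.H X) : W.tr X (x * y) = W.tr X (pa W X y * x) := by
  rw [tr_comm_pa (pa W X y) x, pa_pa]

/-- Algebraic operators commute with the parity operators. -/
lemma CC.pa_comm {f : W.H Y →ₗ[W.K] W.H Z} (hf : f ∈ CC W Y Z) (a : W.H Y) :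
    pa W Z (f a) = f (pa W Y a) := by
  refine Submodule.iSup_induction (fun d : ℤ => KOp W Y Z d)
    (motive := fun f => pa W Z (f a) = f (pa W Y a)) hf ?_ ?_ ?_
  · intro d f hf
    refine gr_induction (W.isInternal Y) (p := fun a => pa W Z (f a) = f (pa W Y a)) ?_ ?_ a
    · intro i a ha
      have h1 := KOp.isHom hf i a (by rw [grZ_natCast]; exact ha)
      by_cases hi : 0 ≤ (i : ℤ) + 2 * d
      · obtain ⟨m, hm⟩ := Int.eq_ofNat_of_zero_le hi
        rw [hm, grZ_natCast] at h1
        rw [pa_apply h1, pa_apply ha, map_smul]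
        congr 1
        have h2 : (m : ℤ) = i + 2 * d := hm.symm
        rcases Nat.even_or_odd i with h | h
        · have h3 : Even m := by
            rw [← Int.even_coe_nat, h2]
            exact ((Int.even_coe_nat i).2 h).add (even_two_mul d)
          rw [h.neg_one_pow, h3.neg_one_pow]
        · have h3 : Odd m := by
            rw [← Int.odd_coe_nat, h2]
            exact ((Int.odd_coe_nat i).2 h).add_even (even_two_mul d)
          rw [h.neg_one_pow, h3.neg_one_pow]
      · rw [grZ_of_neg (by omega), Submodule.mem_bot] at h1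
        rw [h1, map_zero, pa_apply ha, map_smul, h1, smul_zero]
    · intro a b ha hb
      rw [map_add, map_add, map_add, map_add, ha, hb]
  · simp
  · intro f g hf hg
    rw [LinearMap.add_apply, LinearMap.add_apply, map_add, hf, hg]

lemma CC.pa_pow_comm {f : W.H Y →ₗ[W.K] W.H Z} (hf : f ∈ CC W Y Z) (j : ℕ) (a : W.H Y) :
    (pa W Z ^ j) (f a) = f ((pa W Y ^ j) a) := by
  induction j with
  | zero => rfl
  | succ j ih =>
    rw [pow_succ', pow_succ', Module.End.mul_apply, Module.End.mul_apply, ih, CC.pa_comm hf]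

lemma KOp.le_CC (d : ℤ) : KOp W Y Z d ≤ CC W Y Z := le_iSup (fun d : ℤ => KOp W Y Z d) d

/-- The category of algebraic correspondences. -/
lemma isCat_CC : IsCat (CC W) where
  id_mem Y := KOp.le_CC 0 (KOp.id Y)
  comp_mem := by
    intro X Y Z g f hg hf
    refine Submodule.iSup_induction (fun d : ℤ => KOp W X Y d)
      (motive := fun f => g ∘ₗ f ∈ CC W X Z) hf ?_ ?_ ?_
    · intro d f hf
      refine Submodule.iSup_induction (fun d : ℤ => KOp W Y Z d)
        (motive := fun g => g ∘ₗ f ∈ CC W X Z) hg ?_ ?_ ?_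
      · intro e g hg
        exact KOp.le_CC _ (KOp.comp hg hf)
      · rw [LinearMap.zero_comp]; exact Submodule.zero_mem _
      · intro a b ha hb
        rw [LinearMap.add_comp]
        exact Submodule.add_mem _ ha hb
    · rw [LinearMap.comp_zero]; exact Submodule.zero_mem _
    · intro a b ha hb
      rw [LinearMap.comp_add]
      exact Submodule.add_mem _ ha hb

/-- External products. -/
lemma CC.ext {φ : Module.End W.K (W.H Y)} {ψ : Module.End W.K (W.H Z)} (hφ : φ ∈ CC W Y Y)
    (hψ : ψ ∈ CC W Z Z) : extOp W φ ψ ∈ CC W (Y.prod Z) (Y.prod Z) := by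
  refine Submodule.iSup_induction (fun d : ℤ => KOp W Y Y d)
    (motive := fun φ => extOp W φ ψ ∈ CC W (Y.prod Z) (Y.prod Z)) hφ ?_ ?_ ?_
  · intro d φ hφ
    refine Submodule.iSup_induction (fun d : ℤ => KOp W Z Z d)
      (motive := fun ψ => extOp W φ ψ ∈ CC W (Y.prod Z) (Y.prod Z)) hψ ?_ ?_ ?_
    · intro e ψ hψ
      exact KOp.le_CC _ (KOp.ext hφ hψ)
    · rw [extOp_zero_right]; exact Submodule.zero_mem _
    · intro a b ha hb
      rw [extOp_add_right]
      exact Submodule.add_mem _ ha hb
  · rw [extOp_zero_left]; exact Submodule.zero_mem _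
  · intro a b ha hb
    rw [extOp_add_left]
    exact Submodule.add_mem _ ha hb

/-- The operators `φ'` and `φ` are adjoint. -/
def Adj (W : WeilCohomology.{u, v} ops) {Y Z : 𝒱.Obj} (φ' : W.H Y →ₗ[W.K] W.H Z)
    (φ : W.H Z →ₗ[W.K] W.H Y) : Prop :=
  ∀ a b, W.tr Z (φ' a * b) = W.tr Y (a * φ b)

lemma Adj.symm {φ' : W.H Y →ₗ[W.K] W.H Z} {φ : W.H Z →ₗ[W.K] W.H Y} (h : Adj W φ' φ)
    (hφ : ∀ b, pa W Y (φ b) = φ (pa W Z b)) : Adj W φ φ' := by
  intro b a
  rw [tr_comm_pa, hφ, ← h, tr_comm_pa', pa_pa]

/-- Right adjoints. -/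
lemma CC.exists_adj {φ' : W.H Y →ₗ[W.K] W.H Z} (hφ : φ' ∈ CC W Y Z) :
    ∃ φ ∈ CC W Z Y, Adj W φ' φ := by
  refine Submodule.iSup_induction (fun d : ℤ => KOp W Y Z d)
    (motive := fun φ' => ∃ φ ∈ CC W Z Y, Adj W φ' φ) hφ ?_ ?_ ?_
  · intro d f hf
    obtain ⟨ψ, hψ, h⟩ := KOp.exists_adjoint hf
    exact ⟨ψ, KOp.le_CC _ hψ, h⟩
  · exact ⟨0, Submodule.zero_mem _, fun a b => by simp⟩
  · rintro f g ⟨ψ, hψ, h1⟩ ⟨ψ', hψ', h2⟩
    refine ⟨ψ + ψ', Submodule.add_mem _ hψ hψ', fun a b => ?_⟩
    rw [LinearMap.add_apply, LinearMap.add_apply, add_mul, mul_add, map_add, map_add, h1, h2]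

/-- Left adjoints. -/
lemma CC.exists_adj' {φ : W.H Z →ₗ[W.K] W.H Y} (hφ : φ ∈ CC W Z Y) :
    ∃ φ' ∈ CC W Y Z, Adj W φ' φ := by
  obtain ⟨ψ, hψ, h⟩ := CC.exists_adj hφ
  exact ⟨ψ, hψ, h.symm (fun b => CC.pa_comm hψ b)⟩

lemma Adj.idem {φ' φ : Module.End W.K (W.H Y)} (h : Adj W φ' φ) (hφ : IsIdempotentElem φ) :
    IsIdempotentElem φ' := by
  apply LinearMap.ext
  intro a
  apply W.tr_ext
  intro c
  rw [Module.End.mul_apply, h, h, h, ← Module.End.mul_apply, hφ.eq]

lemma Adj.finrank {φ' φ : Module.End W.K (W.H Y)} (h : Adj W φ' φ) :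
    Module.finrank W.K (LinearMap.range φ') = Module.finrank W.K (LinearMap.range φ) := by
  -- the isomorphism with the dual
  have hinj : Function.Injective (bil W Y) := by
    rw [← LinearMap.ker_eq_bot, LinearMap.ker_eq_bot']
    intro a ha
    apply W.nondeg
    intro b
    exact congrArg (fun f => f b) ha
  have hbij : Function.Bijective (bil W Y) := by
    refine ⟨hinj, ?_⟩
    have := (LinearMap.injective_iff_surjective_of_finrank_eq_finrank
      (f := bil W Y) Subspace.dual_finrank_eq.symm).1 hinj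
    exact this
  set D := LinearEquiv.ofBijective (bil W Y) hbij with hD
  have h1 : D.toLinearMap ∘ₗ φ' = φ.dualMap ∘ₗ D.toLinearMap := by
    apply LinearMap.ext
    intro a
    apply LinearMap.ext
    intro b
    exact h a b
  have h2 : LinearMap.range (D.toLinearMap ∘ₗ φ') = (LinearMap.range φ').map D.toLinearMap :=
    LinearMap.range_comp _ _
  have h3 : LinearMap.range (φ.dualMap ∘ₗ D.toLinearMap) = LinearMap.range φ.dualMap :=
    LinearMap.range_comp_of_range_eq_top _ D.range
  rw [← LinearMap.finrank_range_dualMap_eq_finrank_range φ, ← h3, ← h1, h2]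
  exact (LinearEquiv.finrank_map_eq D _).symm

/-! ### Operators and classes -/

/-- The operator `H(Y) → H(X)` given by a class on `X × Y`, so that `a × b` gives the operator
`y ↦ tr (b y) a`. -/
noncomputable def opL (W : WeilCohomology.{u, v} ops) (X Y : 𝒱.Obj) :
    W.H (X.prod Y) →ₗ[W.K] (W.H Y →ₗ[W.K] W.H X) where
  toFun c := W.corr (W.map (swap Y X) c)
  map_add' c d := by rw [map_add, corr_add]
  map_smul' q c := by rw [map_smul, corr_smul]; rfl

lemma opL_apply (c : W.H (X.prod Y)) : opL W X Y c = W.corr (W.map (swap Y X) c) := rfl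

lemma opL_tmul (a : W.H X) (b : W.H Y) :
    opL W X Y (W.map (fst X Y) a * W.map (snd X Y) b) =
      (W.tr Y ∘ₗ LinearMap.mulLeft W.K b).smulRight a := by
  refine gr_induction (W.isInternal X) (p := fun a =>
    opL W X Y (W.map (fst X Y) a * W.map (snd X Y) b) =
      (W.tr Y ∘ₗ LinearMap.mulLeft W.K b).smulRight a) ?_ ?_ a
  · intro i a ha
    refine gr_induction (W.isInternal Y) (p := fun b =>
      opL W X Y (W.map (fst X Y) a * W.map (snd X Y) b) =
        (W.tr Y ∘ₗ LinearMap.mulLeft W.K b).smulRight a) ?_ ?_ b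
    · intro j b hb
      exact corr_swap_tmul ha hb
    · intro b b' hb hb'
      rw [map_add, mul_add, map_add, hb, hb']
      apply LinearMap.ext
      intro y
      simp [add_mul, add_smul]
  · intro a a' ha ha'
    rw [map_add, add_mul, map_add, ha, ha']
    apply LinearMap.ext
    intro y
    simp

lemma opL_tmul_apply (a : W.H X) (b y : W.H Y) :
    opL W X Y (W.map (fst X Y) a * W.map (snd X Y) b) y = W.tr Y (b * y) • a := by
  rw [opL_tmul]
  rfl

lemma swap_swap (c : W.H (X.prod Y)) : W.map (swap X Y) (W.map (swap Y X) c) = c := by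
  refine W.kunneth_induction (p := fun c => W.map (swap X Y) (W.map (swap Y X) c) = c) ?_ ?_ c
  · intro a b ha hb
    rw [map_add, map_add, ha, hb]
  · intro i j a _ b _
    have e1 : ∀ x : W.H X, W.map (swap X Y) (W.map (swap Y X) (W.map (fst X Y) x)) =
        W.map (fst X Y) x := fun x => by
      rw [← W.map_comp (swap Y X), swap_fst, ← W.map_comp, swap_snd]
    have e2 : ∀ x : W.H Y, W.map (swap X Y) (W.map (swap Y X) (W.map (snd X Y) x)) =
        W.map (snd X Y) x := fun x => by
      rw [← W.map_comp (swap Y X), swap_snd, ← W.map_comp, swap_fst]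
    rw [map_mul (W.map (swap Y X)), map_mul (W.map (swap X Y)), e1, e2]

lemma opL_injective : Function.Injective (opL W X Y) := by
  rw [← LinearMap.ker_eq_bot, LinearMap.ker_eq_bot']
  intro c hc
  have h1 : W.map (swap Y X) c = 0 := corr_inj hc
  rw [← swap_swap c, h1, map_zero]

/-- The action of operators on the factors. -/
lemma opL_extOp {φ : Module.End W.K (W.H X)} {ψ ψ' : Module.End W.K (W.H Y)}
    (h : Adj W ψ' ψ) (c : W.H (X.prod Y)) :
    opL W X Y (extOp W φ ψ' c) = φ ∘ₗ opL W X Y c ∘ₗ ψ := by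
  refine W.kunneth_induction (p := fun c => opL W X Y (extOp W φ ψ' c) =
    φ ∘ₗ opL W X Y c ∘ₗ ψ) ?_ ?_ c
  · intro a b ha hb
    rw [map_add, map_add, ha, hb, map_add, LinearMap.add_comp, LinearMap.comp_add]
  · intro i j a _ b _
    apply LinearMap.ext
    intro y
    rw [extOp_tmul, opL_tmul_apply, LinearMap.comp_apply, LinearMap.comp_apply, opL_tmul_apply,
      map_smul, h]

/-- The algebraic classes of a product and the algebraic correspondences. -/
lemma map_opL : (algSpan W (X.prod Y)).map (opL W X Y) = CC W Y X := by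
  apply le_antisymm
  · rw [algSpan, Submodule.map_span_le]
    intro c hc
    obtain ⟨j, z, hz, rfl⟩ := Set.mem_iUnion.1 hc
    rw [opL_apply, ← W.cl_pull]
    exact KOp.le_CC ((j : ℤ) - Y.dim) (KOp.gen (by omega) (ops.pull_mem _ hz))
  · apply iSup_le
    intro d
    rw [KOp, Submodule.span_le]
    rintro _ ⟨p, _, z, hz, rfl⟩
    refine ⟨W.map (swap X Y) (W.cl _ z), ?_, ?_⟩
    · rw [← W.cl_pull]
      exact Submodule.subset_span (Set.mem_iUnion.2 ⟨p, _, ops.pull_mem _ hz, rfl⟩)
    · rw [opL_apply, swap_swap]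

lemma algSpan_even {c : W.H X} (hc : c ∈ algSpan W X) (a : W.H X) : c * a = a * c := by
  induction hc using Submodule.span_induction with
  | mem x hx =>
    obtain ⟨j, z, hz, rfl⟩ := Set.mem_iUnion.1 hx
    exact W.even_comm (W.cl_mem hz) a
  | zero => rw [zero_mul, mul_zero]
  | add x y _ _ hx hy => rw [add_mul, mul_add, hx, hy]
  | smul r x _ hx => rw [smul_mul_assoc, mul_smul_comm, hx]

/-- Algebraic operators preserve the algebraic classes. -/
lemma CC.algSpan {f : W.H Y →ₗ[W.K] W.H Z} (hf : f ∈ CC W Y Z) {a : W.H Y}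
    (ha : a ∈ algSpan W Y) : f a ∈ algSpan W Z := by
  refine Submodule.iSup_induction (fun d : ℤ => KOp W Y Z d)
    (motive := fun f => f a ∈ Pool.Agent.H281R3.HT.algSpan W Z) hf ?_ ?_ ?_
  · intro d f hf
    induction hf using Submodule.span_induction with
    | mem x hx =>
      obtain ⟨p, hp, z, hz, rfl⟩ := hx
      induction ha using Submodule.span_induction with
      | mem x hx =>
        obtain ⟨j, w, hw, rfl⟩ := Set.mem_iUnion.1 hx
        rw [corr_apply, ← W.cl_pull, ← W.cl_mul, ← W.cl_push]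
        by_cases hd : Y.dim ≤ p + j
        · refine Submodule.subset_span (Set.mem_iUnion.2 ⟨p + j - Y.dim, _, ?_, rfl⟩)
          apply ops.push_mem _ (ops.mul_mem hz (ops.pull_mem _ hw))
          rw [dim_prod]
          omega
        · -- the class vanishes for reasons of degree
          have h1 := W.push_mem (snd Y Z) (W.mul_mem (W.cl_mem hz)
            (W.map_mem (fst Y Z) (W.cl_mem hw)))
          rw [dim_prod, grZ_of_neg (by omega), Submodule.mem_bot] at h1
          rw [W.cl_push, W.cl_mul, W.cl_pull, h1]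
          exact Submodule.zero_mem _
      | zero => rw [map_zero]; exact Submodule.zero_mem _
      | add x y _ _ hx hy => rw [map_add]; exact Submodule.add_mem _ hx hy
      | smul r x _ hx => rw [map_smul]; exact Submodule.smul_mem _ _ hx
    | zero => exact Submodule.zero_mem _
    | add x y _ _ hx hy => exact Submodule.add_mem _ hx hy
    | smul r x _ hx => exact Submodule.smul_mem _ _ hx
  · exact Submodule.zero_mem _
  · intro f g hf hg
    exact Submodule.add_mem _ hf hg

/-- The intersection number of two classes on `X × Y` as a trace. -/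
theorem tr_mul_eq (c d : W.H (X.prod Y)) :
    W.tr (X.prod Y) (c * d) =
      LinearMap.trace W.K (W.H Y) (pa W Y ∘ₗ W.corr c ∘ₗ opL W X Y d) := by
  refine W.kunneth_induction (p := fun d => W.tr (X.prod Y) (c * d) =
    LinearMap.trace W.K (W.H Y) (pa W Y ∘ₗ W.corr c ∘ₗ opL W X Y d)) ?_ ?_ d
  · intro a b ha hb
    rw [mul_add, map_add, map_add, LinearMap.comp_add, LinearMap.comp_add, map_add, ha, hb]
  · intro i j a _ b _
    have h1 : pa W Y ∘ₗ W.corr c ∘ₗ opL W X Y (W.map (fst X Y) a * W.map (snd X Y) b) =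
        (W.tr Y ∘ₗ LinearMap.mulLeft W.K b).smulRight (pa W Y (W.corr c a)) := by
      apply LinearMap.ext
      intro y
      rw [LinearMap.comp_apply, LinearMap.comp_apply, opL_tmul_apply, map_smul, map_smul]
      rfl
    rw [h1, LinearMap.trace_smulRight, LinearMap.comp_apply, LinearMap.mulLeft_apply,
      ← tr_comm_pa, corr_apply, W.tr_push, mul_assoc]

/-- The parity operator of `X` is algebraic. -/
def ParAlg (W : WeilCohomology.{u, v} ops) (X : 𝒱.Obj) : Prop := pa W X ∈ CC W X X

lemma ParAlg.prod (hX : ParAlg W X) (hY : ParAlg W Y) : ParAlg W (X.prod Y) := by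
  have h1 : pa W (X.prod Y) = extOp W (pa W X) (pa W Y) := by
    apply LinearMap.ext
    intro c
    refine W.kunneth_induction (p := fun c => pa W (X.prod Y) c =
      extOp W (pa W X) (pa W Y) c) ?_ ?_ c
    · intro a b ha hb
      rw [map_add, map_add, ha, hb]
    · intro i j a ha b hb
      rw [extOp_tmul, pa_apply ha, pa_apply hb,
        pa_apply (W.mul_mem (W.map_mem (fst X Y) ha) (W.map_mem (snd X Y) hb)), map_smul,
        map_smul, smul_mul_assoc, mul_smul_comm, smul_smul, pow_add]
  rw [ParAlg, h1]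
  exact CC.ext hX hY

lemma mem_transcendental {c : W.H X} :
    c ∈ transcendental W X ↔ ∀ d ∈ algSpan W X, W.tr X (d * c) = 0 := by
  rw [transcendental, orthCompl]
  simp only [Submodule.mem_iInf, LinearMap.mem_ker, LinearMap.comp_apply,
    LinearMap.mulRight_apply]
  constructor
  · intro h d hd
    induction hd using Submodule.span_induction with
    | mem x hx =>
      rw [algSpan_even (Submodule.subset_span hx)]
      exact h x hx
    | zero => rw [zero_mul, map_zero]
    | add x y _ _ hx hy => rw [add_mul, map_add, hx, hy, add_zero]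
    | smul r x _ hx => rw [smul_mul_assoc, map_smul, hx, smul_zero]
  · intro h d hd
    rw [← algSpan_even (Submodule.subset_span hd)]
    exact h d (Submodule.subset_span hd)

lemma map_corr_mem {c : W.H (X.prod Y)} (hc : c ∈ algSpan W (X.prod Y)) :
    W.corr c ∈ CC W X Y := by
  induction hc using Submodule.span_induction with
  | mem x hx =>
    obtain ⟨j, z, hz, rfl⟩ := Set.mem_iUnion.1 hx
    exact KOp.le_CC ((j : ℤ) - X.dim) (KOp.gen (by omega) hz)
  | zero => rw [corr_zero]; exact Submodule.zero_mem _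
  | add x y _ _ hx hy => rw [corr_add]; exact Submodule.add_mem _ hx hy
  | smul r x _ hx => rw [corr_smul]; exact Submodule.smul_mem _ _ hx

lemma exists_corr_eq {f : W.H X →ₗ[W.K] W.H Y} (hf : f ∈ CC W X Y) :
    ∃ c ∈ algSpan W (X.prod Y), W.corr c = f := by
  refine Submodule.iSup_induction (fun d : ℤ => KOp W X Y d)
    (motive := fun f => ∃ c ∈ Pool.Agent.H281R3.HT.algSpan W (X.prod Y), W.corr c = f) hf ?_ ?_ ?_
  · intro d f hf
    induction hf using Submodule.span_induction with
    | mem x hx =>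
      obtain ⟨p, _, z, hz, rfl⟩ := hx
      exact ⟨_, Submodule.subset_span (Set.mem_iUnion.2 ⟨p, z, hz, rfl⟩), rfl⟩
    | zero => exact ⟨0, Submodule.zero_mem _, corr_zero W⟩
    | add x y _ _ hx hy =>
      obtain ⟨c, hc, rfl⟩ := hx
      obtain ⟨d, hd, rfl⟩ := hy
      exact ⟨c + d, Submodule.add_mem _ hc hd, corr_add W _ _⟩
    | smul r x _ hx =>
      obtain ⟨c, hc, rfl⟩ := hx
      exact ⟨r • c, Submodule.smul_mem _ _ hc, corr_smul W _ _⟩
  · exact ⟨0, Submodule.zero_mem _, corr_zero W⟩
  · rintro f g ⟨c, hc, rfl⟩ ⟨d, hd, rfl⟩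
    exact ⟨c + d, Submodule.add_mem _ hc hd, corr_add W _ _⟩

/-- Numerical triviality of a class on `X × Y` in terms of the trace form. -/
lemma mem_transcendental_iff (hY : ParAlg W Y) (c : W.H (X.prod Y)) :
    c ∈ transcendental W (X.prod Y) ↔ opL W X Y c ∈ perp (CC W) Y X := by
  rw [mem_transcendental, mem_perp]
  constructor
  · intro h g hg
    obtain ⟨d, hd, h1⟩ := exists_corr_eq (isCat_CC.comp_mem hY hg)
    have h2 := h d hd
    rw [tr_mul_eq, h1] at h2
    have h3 : pa W Y ∘ₗ (pa W Y ∘ₗ g) ∘ₗ opL W X Y c = g ∘ₗ opL W X Y c := by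
      apply LinearMap.ext
      intro y
      exact pa_pa _
    rw [h3] at h2
    exact h2
  · intro h d hd
    rw [tr_mul_eq]
    exact h (pa W Y ∘ₗ W.corr d) (isCat_CC.comp_mem hY (map_corr_mem hd))

lemma opL_mem {c : W.H (X.prod Y)} (hc : c ∈ algSpan W (X.prod Y)) : opL W X Y c ∈ CC W Y X := by
  rw [← map_opL]
  exact ⟨c, hc, rfl⟩

/-- If there are no nonzero numerically trivial classes on `X × Y`, then numerical triviality can
be tested with the trace form. -/
lemma mem_transcendental_iff' (hD : ∀ c ∈ algSpan W (X.prod Y),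
    c ∈ transcendental W (X.prod Y) → c = 0) {c : W.H (X.prod Y)}
    (hc : c ∈ algSpan W (X.prod Y)) :
    c ∈ transcendental W (X.prod Y) ↔ opL W X Y c ∈ perp (CC W) Y X := by
  constructor
  · intro h
    rw [hD c hc h, map_zero]
    exact Submodule.zero_mem _
  · intro h
    rw [mem_transcendental]
    intro d hd
    rw [tr_mul_eq]
    set f : Module.End W.K (W.H Y) := W.corr d ∘ₗ opL W X Y c with hf
    have hfC : f ∈ CC W Y Y := isCat_CC.comp_mem (map_corr_mem hd) (opL_mem hc)
    have hpow : ∀ r : ℕ, f ^ r ∈ CC W Y Y := by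
      intro r
      induction r with
      | zero => exact isCat_CC.id_mem Y
      | succ r ih => rw [pow_succ]; exact isCat_CC.comp_mem ih hfC
    have h1 : IsNilpotent f := by
      apply isNilpotent_of_trace_pow
      intro r
      rw [pow_succ]
      exact h ((f ^ r : Module.End W.K (W.H Y)) ∘ₗ W.corr d)
        (isCat_CC.comp_mem (hpow r) (map_corr_mem hd))
    have h2 : Commute (pa W Y) f := LinearMap.ext fun a => CC.pa_comm hfC a
    exact Y129.trace_nil (h2.isNilpotent_mul_left h1)

/-- Numerical triviality of algebraic classes on `X × Y` can be tested with the trace form. -/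
def Good (W : WeilCohomology.{u, v} ops) (X Y : 𝒱.Obj) : Prop :=
  ∀ c ∈ algSpan W (X.prod Y),
    (c ∈ transcendental W (X.prod Y) ↔ opL W X Y c ∈ perp (CC W) Y X)

/-- A set of varieties which is closed under products and for which numerical triviality can be
tested with the trace form. -/
structure GoodSet (W : WeilCohomology.{u, v} ops) (S : Set 𝒱.Obj) : Prop where
  prod_mem : ∀ {X Y}, X ∈ S → Y ∈ S → X.prod Y ∈ S
  good : ∀ {X Y}, X ∈ S → Y ∈ S → Good W X Y

lemma goodSet_par (W : WeilCohomology.{u, v} ops) : GoodSet W {X | ParAlg W X} where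
  prod_mem hX hY := hX.prod hY
  good _ hY c _ := mem_transcendental_iff hY c

/-- The dimension of a space of classes modulo the classes orthogonal to all algebraic classes. -/
noncomputable def na (W : WeilCohomology.{u, v} ops) (X : 𝒱.Obj)
    (S : Submodule W.K (W.H X)) : ℕ :=
  Module.finrank W.K (S.map (transcendental W X).mkQ)

/-- The comparison of the two notions of dimension. -/
lemma nd_eq_na (hg : Good W X Y) {φ : Module.End W.K (W.H X)} {ψ ψ' : Module.End W.K (W.H Y)}
    (hφ : φ ∈ CC W X X) (hψ' : ψ' ∈ CC W Y Y) (h : Adj W ψ' ψ) :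
    nd (CC W) Y X (sand (CC W) Y X φ ψ) =
      na W (X.prod Y) ((algSpan W (X.prod Y)).map (extOp W φ ψ')) := by
  have h1 : sand (CC W) Y X φ ψ =
      ((algSpan W (X.prod Y)).map (extOp W φ ψ')).map (opL W X Y) := by
    ext f
    rw [mem_sand]
    constructor
    · rintro ⟨c, hc, rfl⟩
      rw [← map_opL] at hc
      obtain ⟨γ, hγ, rfl⟩ := hc
      exact ⟨_, ⟨γ, hγ, rfl⟩, opL_extOp h γ⟩
    · rintro ⟨_, ⟨γ, hγ, rfl⟩, rfl⟩
      refine ⟨opL W X Y γ, ?_, (opL_extOp h γ).symm⟩
      rw [← map_opL]
      exact ⟨γ, hγ, rfl⟩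
  rw [nd, h1, na, ← Submodule.map_comp]
  apply finrank_map_eq
  rintro _ ⟨γ, hγ, rfl⟩
  rw [LinearMap.comp_apply, Submodule.mkQ_apply, Submodule.mkQ_apply,
    Submodule.Quotient.mk_eq_zero, Submodule.Quotient.mk_eq_zero]
  exact (hg _ (CC.algSpan (CC.ext hφ hψ') hγ)).symm

lemma adj_id : Adj W (LinearMap.id : Module.End W.K (W.H X)) LinearMap.id := fun _ _ => rfl

lemma extOp_id : extOp W (LinearMap.id : Module.End W.K (W.H X))
    (LinearMap.id : Module.End W.K (W.H Y)) = LinearMap.id := extOp_one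

/-- The numerical rank of a variety. -/
noncomputable def numRank (W : WeilCohomology.{u, v} ops) (X : 𝒱.Obj) : ℕ :=
  na W X (algSpan W X)

lemma nd_CC (hg : Good W X Y) : nd (CC W) Y X (CC W Y X) = numRank W (X.prod Y) := by
  have h1 := nd_eq_na (φ := (LinearMap.id : Module.End W.K (W.H X))) hg (isCat_CC.id_mem X)
    (isCat_CC.id_mem Y) adj_id
  rw [sand_one, extOp_id, Submodule.map_id] at h1
  exact h1

end Pool.Agent.Y129
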