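import Pool.Agent.H281R3.HT.Defs

/-!
# Powers of a variety: definitions
-/

open CategoryTheory AlgebraicGeometry

universe u v

namespace Pool.Agent.Y129

open Pool.Agent.H914 Pool.Agent.H914.VarClass Pool.Agent.H914.VarClass.Obj
  Pool.Agent.H914.WeilCohomology Pool.Agent.H281R3.HT

variable {k : Type u} [Field k] {𝒱 : VarClass k}

/-- The product `X × (X × ( ⋯ × X))` of `n + 1` copies of `X`. -/
noncomputable def pw (X : 𝒱.Obj) : ℕ → 𝒱.Obj
  | 0 => X
  | n + 1 => X.prod (pw X n)

/-- The projection of `X × (X × ( ⋯ × X))` to the factor with the number `i`. -/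
noncomputable def pj (X : 𝒱.Obj) : (n : ℕ) → Fin (n + 1) → (pw X n ⟶ X)
  | 0, _ => 𝟙 X
  | n + 1, i => Fin.cases (motive := fun _ => pw X (n + 1) ⟶ X) (fst X (pw X n))
      (fun i => snd X (pw X n) ≫ pj X n i) i

end Pool.Agent.Y129
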