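import Pool.Agent.Y129.Unc

/-!
# The index of a system of classes
-/

open CategoryTheory AlgebraicGeometry Finset Filter Topology

open scoped ENNReal

universe u v

namespace Pool.Agent.Y129

open Pool.Agent.H914 Pool.Agent.H914.VarClass Pool.Agent.H914.VarClass.Obj
  Pool.Agent.H914.WeilCohomology Pool.Agent.H281R3.HT

variable {k : Type u} [Field k] {𝒱 : VarClass k} {ops : CycleOps 𝒱}
  {W : WeilCohomology.{u, v} ops} {X Y Z : 𝒱.Obj}

lemma numRank_le (W : WeilCohomology.{u, v} ops) (X : 𝒱.Obj) :
    numRank W X ≤ Module.finrank W.K (algSpan W X) := Submodule.finrank_map_le _ _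

lemma disjoint_of_le (h : Module.finrank W.K (algSpan W X) ≤ numRank W X) {c : W.H X}
    (hc : c ∈ algSpan W X) (hc' : c ∈ transcendental W X) : c = 0 := by
  have h1 := numRank_add W X
  have h2 : Module.finrank W.K
      (algSpan W X ⊓ transcendental W X : Submodule W.K (W.H X)) = 0 := by omega
  have h3 := Submodule.finrank_eq_zero.1 h2
  have h4 : c ∈ algSpan W X ⊓ transcendental W X := ⟨hc, hc'⟩
  rw [h3, Submodule.mem_bot] at h4
  exact h4

lemma numRank_eq_of_disjoint (h : ∀ c ∈ algSpan W X, c ∈ transcendental W X → c = 0) :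
    numRank W X = Module.finrank W.K (algSpan W X) := by
  have h1 := numRank_add W X
  have h2 : algSpan W X ⊓ transcendental W X = ⊥ := by
    rw [eq_bot_iff]
    rintro c ⟨hc, hc'⟩
    exact h c hc hc'
  rw [h2, finrank_bot, add_zero] at h1
  exact h1

lemma nontrivial_pw [Nontrivial (W.H X)] (n : ℕ) : Nontrivial (W.H (pw X n)) := by
  apply Module.nontrivial_of_finrank_pos (R := W.K)
  rw [finrank_pw]
  exact pow_pos Module.finrank_pos _

lemma push_snd_mul (a : W.H Y) {z : W.H X} (hz1 : W.tr X z = 1) :
    W.push (snd X Y) (W.map (fst X Y) z * W.map (snd X Y) a) = a := by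
  apply W.tr_ext
  intro c
  rw [W.tr_push, mul_assoc, ← map_mul, W.tr_prod, hz1, one_mul]

/-- If all algebraic classes on `X` have trace zero, all algebraic classes on the powers are
numerically trivial. -/
lemma transcendental_of_tr (h : ∀ z ∈ algSpan W X, W.tr X z = 0) (n : ℕ)
    {c : W.H (pw X n)} (hc : c ∈ algSpan W (pw X n)) : c ∈ transcendental W (pw X n) := by
  rw [mem_transcendental]
  intro d hd
  have h1 := W.tr_push (pj X n 0) (d * c) 1
  rw [mul_one, map_one, mul_one] at h1
  rw [← h1]
  exact h _ (push_algSpan _ (algSpan_mul hd hc))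

/-- **The ratio law**: let `G` be a system of subspaces of the cohomology of the powers of `X`
which is stable under algebraic correspondences and contains the algebraic classes. The quotients of
the dimensions of these subspaces and of the ranks of the groups of cycles modulo numerical
equivalence converge to an element `N ≥ 1` of `ℕ ∪ {∞}`, which bounds them for the even powers; and
`N = 1` if and only if all members of the system are linear combinations of algebraic classes and
homological and numerical equivalence agree on all powers of `X`. -/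
theorem exists_index [Nontrivial (W.H X)]
    {G : ∀ n, Submodule W.K (W.H (pw X n))} (hG : StableSystem W X G)
    (hA : ∀ n, algSpan W (pw X n) ≤ G n) :
    ∃ N : ℕ∞, 1 ≤ N ∧
      Tendsto (fun n => (Module.finrank W.K (G n) : ℝ≥0∞) / numRank W (pw X n)) atTop
        (𝓝 (N : ℝ≥0∞)) ∧
      (∀ n, (Module.finrank W.K (G (2 * n + 1)) : ℝ≥0∞) / numRank W (pw X (2 * n + 1)) ≤
        (N : ℝ≥0∞)) ∧
      (N = 1 ↔ ∀ n, G n = algSpan W (pw X n) ∧ HomEqNum W (pw X n)) := by
  have hle : ∀ n, numRank W (pw X n) ≤ Module.finrank W.K (G n) := fun n =>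
    (numRank_le W _).trans (Submodule.finrank_mono (hA n))
  by_cases hZ : ∀ z ∈ algSpan W X, W.tr X z = 0
  · -- the degenerate case
    have h0 : ∀ n, numRank W (pw X n) = 0 := by
      intro n
      have h1 : (algSpan W (pw X n)).map (transcendental W (pw X n)).mkQ = ⊥ := by
        rw [eq_bot_iff]
        rintro _ ⟨c, hc, rfl⟩
        rw [Submodule.mem_bot, Submodule.mkQ_apply, Submodule.Quotient.mk_eq_zero]
        exact transcendental_of_tr hZ n hc
      have h2 : numRank W (pw X n) = Module.finrank W.K
        ((algSpan W (pw X n)).map (transcendental W (pw X n)).mkQ) := rfl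
      rw [h2, h1, finrank_bot]
    have h1 : ∀ n, (Module.finrank W.K (G n) : ℝ≥0∞) / numRank W (pw X n) = ⊤ := by
      intro n
      have := nontrivial_pw (W := W) (X := X) n
      rw [h0, Nat.cast_zero, ENNReal.div_zero]
      have h2 : Module.finrank W.K (G n) ≠ 0 := by
        intro h3
        have h4 := Submodule.finrank_eq_zero.1 h3
        have h5 : (1 : W.H (pw X n)) ∈ G n := hA n (one_algSpan _)
        rw [h4, Submodule.mem_bot] at h5
        exact one_ne_zero h5
      exact_mod_cast h2
    refine ⟨⊤, le_top, ?_, fun n => le_top, ?_⟩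
    · simp only [h1]
      exact tendsto_const_nhds
    · constructor
      · intro h
        exact absurd h (by simp)
      · intro h
        exfalso
        have h2 := homEqNum_algSpan (h 0).2 (one_algSpan (W := W) (pw X 0))
          (transcendental_of_tr hZ 0 (one_algSpan _))
        have := nontrivial_pw (W := W) (X := X) 0
        exact one_ne_zero h2
  push Not at hZ
  obtain ⟨z', hz', hz0⟩ := hZ
  obtain ⟨z, hz, hz1⟩ : ∃ z ∈ algSpan W X, W.tr X z = 1 :=
    ⟨(W.tr X z')⁻¹ • z', Submodule.smul_mem _ _ hz', by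
      rw [map_smul, smul_eq_mul, inv_mul_cancel₀ hz0]⟩
  have hpos : ∀ n, 0 < numRank W (pw X n) := by
    intro n
    obtain ⟨w, hw, hw1⟩ := exists_pt_pw hz hz1 n
    exact numRank_pos_of hw hw1
  have hdiv : ∀ n, ENNReal.ofReal ((Module.finrank W.K (G n) : ℝ) / numRank W (pw X n)) =
      (Module.finrank W.K (G n) : ℝ≥0∞) / numRank W (pw X n) := by
    intro n
    rw [ENNReal.ofReal_div_of_pos (by exact_mod_cast hpos n), ENNReal.ofReal_natCast,
      ENNReal.ofReal_natCast]
  obtain ⟨N, h1, h2⟩ : ∃ N : ℕ∞,
      Tendsto (fun n => (Module.finrank W.K (G n) : ℝ≥0∞) / numRank W (pw X n)) atTop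
        (𝓝 (N : ℝ≥0∞)) ∧
      (∀ n, (Module.finrank W.K (G (2 * n + 1)) : ℝ≥0∞) / numRank W (pw X (2 * n + 1)) ≤
        (N : ℝ≥0∞)) := by
    rcases law hz hz1 hG hA with ⟨N, h1, h2⟩ | h1
    · refine ⟨N, ?_, fun n => ?_⟩
      · have h3 := ENNReal.tendsto_ofReal h2
        simp only [hdiv, ENNReal.ofReal_natCast] at h3
        simpa using h3
      · rw [ENNReal.div_le_iff (by exact_mod_cast (hpos _).ne') (ENNReal.natCast_ne_top _)]
        rw [ENat.toENNReal_coe]
        exact_mod_cast h1 n
    · refine ⟨⊤, ?_, fun n => le_top⟩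
      have h3 := ENNReal.tendsto_ofReal_atTop.comp h1
      have h4 : (ENNReal.ofReal ∘ fun n => (Module.finrank W.K (G n) : ℝ) /
          numRank W (pw X n)) =
          fun n => (Module.finrank W.K (G n) : ℝ≥0∞) / numRank W (pw X n) := by
        funext n
        exact hdiv n
      rw [h4] at h3
      simpa using h3
  have hone : ∀ n, (1 : ℝ≥0∞) ≤ (Module.finrank W.K (G n) : ℝ≥0∞) / numRank W (pw X n) := by
    intro n
    rw [ENNReal.le_div_iff_mul_le (Or.inl (by exact_mod_cast (hpos _).ne'))
      (Or.inl (ENNReal.natCast_ne_top _)), one_mul]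
    exact_mod_cast hle n
  refine ⟨N, ?_, h1, h2, ?_, ?_⟩
  · have h3 := (hone 1).trans (h2 0)
    rw [← ENat.toENNReal_one, ENat.toENNReal_le] at h3
    exact h3
  · rintro rfl
    have h3 : ∀ n, G (2 * n + 1) = algSpan W (pw X (2 * n + 1)) ∧
        ∀ c ∈ algSpan W (pw X (2 * n + 1)), c ∈ transcendental W (pw X (2 * n + 1)) →
          c = 0 := by
      intro n
      have h4 : Module.finrank W.K (G (2 * n + 1)) ≤ numRank W (pw X (2 * n + 1)) := by
        have := h2 n
        rw [ENNReal.div_le_iff (by exact_mod_cast (hpos _).ne') (ENNReal.natCast_ne_top _),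
          ENat.toENNReal_one, one_mul] at this
        exact_mod_cast this
      have h5 := numRank_le W (pw X (2 * n + 1))
      have h6 := Submodule.finrank_mono (hA (2 * n + 1))
      refine ⟨(Submodule.eq_of_le_of_finrank_le (hA _) (by omega)).symm, ?_⟩
      intro c hc hc'
      exact disjoint_of_le (by omega) hc hc'
    intro n
    rcases Nat.even_or_odd' n with ⟨m, hm | hm⟩
    · subst hm
      have hsec : ∀ c : W.H (pw X (2 * m)), W.push (snd X (pw X (2 * m)))
          (W.map (fst X (pw X (2 * m))) z * W.map (snd X (pw X (2 * m))) c) = c := fun c =>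
        push_snd_mul c hz1
      obtain ⟨h4, h5⟩ := h3 m
      constructor
      · apply le_antisymm _ (hA _)
        intro c hc
        have h6 : W.map (snd X (pw X (2 * m))) c ∈ G (2 * m + 1) :=
          hG (2 * m) (2 * m + 1) _ (map_CC (snd X (pw X (2 * m)))) c hc
        rw [h4] at h6
        rw [← hsec c]
        exact push_algSpan _ (algSpan_mul (map_algSpan _ hz) h6)
      · apply homEqNum_of_algSpan
        intro c hc hc'
        have h6 : W.map (snd X (pw X (2 * m))) c = (0 : W.H (X.prod (pw X (2 * m)))) :=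
          h5 _ (map_algSpan (snd X (pw X (2 * m))) hc)
            (map_transcendental (snd X (pw X (2 * m))) hc')
        rw [← hsec c, h6, mul_zero, map_zero]
    · subst hm
      exact ⟨(h3 m).1, homEqNum_of_algSpan (h3 m).2⟩
  · intro h3
    have h4 : ∀ n, (Module.finrank W.K (G n) : ℝ≥0∞) / numRank W (pw X n) = 1 := by
      intro n
      obtain ⟨h5, h6⟩ := h3 n
      rw [h5, ← numRank_eq_of_disjoint (fun c hc hc' => homEqNum_algSpan h6 hc hc')]
      apply ENNReal.div_self
      · exact_mod_cast (hpos n).ne'
      · exact ENNReal.natCast_ne_top _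
    simp only [h4] at h1
    have h5 := tendsto_nhds_unique h1 tendsto_const_nhds
    have h6 : ((N : ℕ∞) : ℝ≥0∞) = ((1 : ℕ∞) : ℝ≥0∞) := by
      rw [h5]; simp
    exact ENat.toENNReal_inj.1 h6

end Pool.Agent.Y129
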