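import Pool.Agent.Y129.TDefs
import Pool.Agent.Y129.Idx

/-!
# Tate classes on the powers of a variety
-/

open CategoryTheory AlgebraicGeometry Finset Filter Topology

open scoped ENNReal

universe u v w

namespace Pool.Agent.Y129

open Pool.Agent.H914 Pool.Agent.H914.VarClass Pool.Agent.H914.VarClass.Obj
  Pool.Agent.H914.WeilCohomology Pool.Agent.H281R3.HT Pool.Agent.TH125.Gal

variable {k : Type u} [Field k] {𝒱 : VarClass k} {ops : CycleOps 𝒱}
  {W : WeilCohomology.{u, v} ops} {X Y Z : 𝒱.Obj}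

/-! ### Graded subspaces -/

section Graded

variable {K : Type*} [Field K] {V : Type*} [AddCommGroup V] [Module K V] [Module.Finite K V]

lemma finrank_iSup_eq_sum {A : ℕ → Submodule K V} (hA : iSupIndep A) {d : ℕ}
    (h0 : ∀ j, d ≤ j → A j = ⊥) :
    Module.finrank K (⨆ j, A j : Submodule K V) = ∑ j ∈ range d, Module.finrank K (A j) := by
  have h1 : (⨆ j, A j) = ⨆ j : Fin d, A j := by
    apply le_antisymm
    · apply iSup_le
      intro j
      by_cases hj : j < d
      · exact le_iSup (fun j : Fin d => A j) ⟨j, hj⟩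
      · rw [h0 j (by omega)]
        exact bot_le
    · exact iSup_le fun j => le_iSup A j
  have h2 : iSupIndep (fun j : Fin d => A j) := hA.comp Fin.val_injective
  have h3 : Function.Injective (DirectSum.coeLinearMap fun j : Fin d => A j) :=
    h2.dfinsupp_lsum_injective
  rw [h1, ← DirectSum.range_coeLinearMap, LinearMap.finrank_range_of_inj h3,
    Module.finrank_directSum, Fin.sum_univ_eq_sum_range (fun j => Module.finrank K (A j))]

omit [Module.Finite K V] in
lemma mem_of_mem_iSup {A B : ℕ → Submodule K V} (hA : iSupIndep A) (hBA : ∀ j, B j ≤ A j)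
    {j : ℕ} {c : V} (hc : c ∈ A j) (hc' : c ∈ ⨆ l, B l) : c ∈ B j := by
  have h1 : (⨆ l, B l) ≤ B j ⊔ ⨆ l, ⨆ (_ : l ≠ j), B l := by
    apply iSup_le
    intro l
    by_cases hl : l = j
    · subst hl; exact le_sup_left
    · exact le_sup_of_le_right (le_iSup₂_of_le l hl le_rfl)
  obtain ⟨b, hb, b', hb', hbc⟩ := Submodule.mem_sup.1 (h1 hc')
  have h2 : b' ∈ ⨆ l, ⨆ (_ : l ≠ j), A l :=
    (iSup₂_mono fun l _ => hBA l) hb'
  have h3 : b' ∈ A j := by
    have : b' = c - b := by rw [← hbc]; abel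
    rw [this]
    exact Submodule.sub_mem _ hc (hBA j hb)
  have h4 := (Submodule.disjoint_def.1 (hA j)) b' h3 h2
  rw [← hbc, h4, add_zero]
  exact hb

end Graded

lemma indep_even (W : WeilCohomology.{u, v} ops) (X : 𝒱.Obj) :
    iSupIndep (fun j => W.gr X (2 * j)) :=
  (W.isInternal X).submodule_iSupIndep.comp (fun a b h => by simpa using h)

/-! ### Equivariance -/

/-- An algebra homomorphism from the cohomology of a power is determined by its values on the
pull-backs from the factors. -/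
lemma algHom_ext_pw {B : Type*} [Ring B] [Algebra W.K B] (n : ℕ) :
    ∀ {f g : W.H (pw X n) →ₐ[W.K] B}, (∀ i (a : W.H X), f (W.map (pj X n i) a) =
      g (W.map (pj X n i) a)) → f = g := by
  induction n with
  | zero =>
    intro f g h
    apply AlgHom.ext
    intro a
    have h1 := h 0 a
    have h2 : W.map (pj X 0 0) a = a := W.map_id X a
    rw [h2] at h1
    exact h1
  | succ n ih =>
    intro f g h
    apply AlgHom.ext
    intro c
    have key : ∀ c : W.H (X.prod (pw X n)), f c = g c := by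
      intro c
      refine W.kunneth_induction (p := fun c : W.H (X.prod (pw X n)) => f c = g c) ?_ ?_ c
      · intro a b ha hb
        have e1 : f (a + b) = f a + f b := map_add f _ _
        have e2 : g (a + b) = g a + g b := map_add g _ _
        rw [e1, e2, ha, hb]
      · intro _ _ a _ b _
        have e1 : f (W.map (fst X (pw X n)) a * W.map (snd X (pw X n)) b) =
            f (W.map (fst X (pw X n)) a) * f (W.map (snd X (pw X n)) b) := map_mul f _ _
        have e2 : g (W.map (fst X (pw X n)) a * W.map (snd X (pw X n)) b) =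
            g (W.map (fst X (pw X n)) a) * g (W.map (snd X (pw X n)) b) := map_mul g _ _
        have h1 : f (W.map (fst X (pw X n)) a) = g (W.map (fst X (pw X n)) a) := h 0 a
        have h2 : f.comp (W.map (snd X (pw X n))) = g.comp (W.map (snd X (pw X n))) := by
          apply ih
          intro i a
          have h3 := h i.succ a
          have h4 : W.map (pj X (n + 1) i.succ) a =
              W.map (snd X (pw X n)) (W.map (pj X n i) a) :=
            W.map_comp (snd X (pw X n)) (pj X n i) a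
          rw [h4] at h3
          exact h3
        have h3 : f (W.map (snd X (pw X n)) b) = g (W.map (snd X (pw X n)) b) :=
          congrArg (fun f => f b) h2
        rw [e1, e2, h1, h3]
    exact key c

variable {Γ : Type w} [Group Γ] {χ : Γ →* W.Kˣ}
  {ρ : ∀ n, Γ →* (W.H (pw X n) ≃ₐ[W.K] W.H (pw X n))}

/-- Morphisms given by projections are equivariant. -/
lemma PowerAction.equiv (h : PowerAction W X χ ρ) {m n : ℕ} (p : pw X n ⟶ pw X m)
    (s : Fin (m + 1) → Fin (n + 1)) (hp : ∀ i, p ≫ pj X m i = pj X n (s i)) :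
    Intertwines (W.map p) (ρ m) (ρ n) := by
  intro g a
  have h1 : ((ρ n g : W.H (pw X n) ≃ₐ[W.K] W.H (pw X n)) : W.H (pw X n) →ₐ[W.K] W.H (pw X n)).comp
      (W.map p) = (W.map p).comp
      ((ρ m g : W.H (pw X m) ≃ₐ[W.K] W.H (pw X m)) : W.H (pw X m) →ₐ[W.K] W.H (pw X m)) := by
    apply algHom_ext_pw
    intro i a
    have e1 : ρ m g (W.map (pj X m i) a) = W.map (pj X m i) (ρ 0 g a) := h.proj m i g a
    have e2 : ρ n g (W.map (pj X n (s i)) a) = W.map (pj X n (s i)) (ρ 0 g a) :=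
      h.proj n (s i) g a
    change ρ n g (W.map p (W.map (pj X m i) a)) = W.map p (ρ m g (W.map (pj X m i) a))
    rw [e1, ← W.map_comp, hp]
    refine e2.trans ?_
    rw [← hp]
    exact W.map_comp p (pj X m i) _
  exact congrArg (fun f => f a) h1

/-- Push-forwards along equivariant morphisms. -/
lemma push_act {n m : ℕ} (hn : IsGaloisAct χ (W.gr (pw X n)) (pw X n).dim (W.tr (pw X n))
    (algClasses W (pw X n)) (ρ n))
    (hm : IsGaloisAct χ (W.gr (pw X m)) (pw X m).dim (W.tr (pw X m))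
    (algClasses W (pw X m)) (ρ m)) {p : pw X n ⟶ pw X m}
    (hp : Intertwines (W.map p) (ρ m) (ρ n)) (g : Γ) (c : W.H (pw X n)) :
    ((χ g : W.K) ^ (pw X n).dim) • ρ m g (W.push p c) =
      ((χ g : W.K) ^ (pw X m).dim) • W.push p (ρ n g c) := by
  apply W.tr_ext
  intro y'
  obtain ⟨y, rfl⟩ := (ρ m g).surjective y'
  rw [smul_mul_assoc, smul_mul_assoc, map_smul, map_smul, ← map_mul, hm.tr_act, W.tr_push,
    W.tr_push, ← hp, ← map_mul, hn.tr_act, smul_eq_mul, smul_eq_mul]
  ring

/-- The space of all Tate classes. -/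
noncomputable def TG (W : WeilCohomology.{u, v} ops) (X : 𝒱.Obj) (χ : Γ →* W.Kˣ)
    (ρ : ∀ n, Γ →* (W.H (pw X n) ≃ₐ[W.K] W.H (pw X n))) (n : ℕ) :
    Submodule W.K (W.H (pw X n)) :=
  ⨆ j, tateClasses χ (W.gr (pw X n)) (ρ n) j

lemma tateClasses_le (n j : ℕ) : tateClasses χ (W.gr (pw X n)) (ρ n) j ≤ W.gr (pw X n) (2 * j) :=
  fun _ h => h.1

lemma PowerAction.alg_le (h : PowerAction W X χ ρ) (n j : ℕ) :
    SC W (pw X n) j ≤ tateClasses χ (W.gr (pw X n)) (ρ n) j := by
  rw [SC, spanCycles_eq, Submodule.span_le]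
  intro c hc
  exact ⟨alg_gr hc, (h.galois n).cl_fix j c hc⟩

lemma PowerAction.algSpan_le (h : PowerAction W X χ ρ) (n : ℕ) :
    algSpan W (pw X n) ≤ TG W X χ ρ n := by
  rw [algSpan_eq_iSup]
  exact iSup_mono fun j => h.alg_le n j

/-- The concatenation of two powers. -/
lemma exists_glue (X : 𝒱.Obj) (m n : ℕ) : ∃ (e : (pw X m).prod (pw X n) ⟶ pw X (m + n + 1))
    (p : pw X (m + n + 1) ⟶ pw X m) (q : pw X (m + n + 1) ⟶ pw X n),
    (∃ s : Fin (m + 1) → Fin (m + n + 1 + 1), ∀ i, p ≫ pj X m i = pj X _ (s i)) ∧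
    (∃ s : Fin (n + 1) → Fin (m + n + 1 + 1), ∀ i, q ≫ pj X n i = pj X _ (s i)) ∧
    e ≫ p = fst _ _ ∧ e ≫ q = snd _ _ := by
  let s : Fin (m + 1) → Fin (m + n + 1 + 1) := fun i => ⟨i, by omega⟩
  let t : Fin (n + 1) → Fin (m + n + 1 + 1) := fun i => ⟨m + 1 + i, by omega⟩
  let e : (pw X m).prod (pw X n) ⟶ pw X (m + n + 1) := liftN X (m + n + 1) (fun i =>
    if h : (i : ℕ) < m + 1 then fst _ _ ≫ pj X m ⟨i, h⟩
    else snd _ _ ≫ pj X n ⟨i - (m + 1), by omega⟩)
  refine ⟨e, liftN X m (fun i => pj X _ (s i)), liftN X n (fun i => pj X _ (t i)),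
    ⟨s, fun i => liftN_pj _ _ _⟩, ⟨t, fun i => liftN_pj _ _ _⟩, ?_, ?_⟩
  · apply pw_ext
    intro i
    rw [Category.assoc, liftN_pj, liftN_pj, dif_pos (by simp only [s]; omega)]
  · apply pw_ext
    intro i
    rw [Category.assoc, liftN_pj, liftN_pj, dif_neg (by simp only [t]; omega)]
    congr 2
    apply Fin.ext
    simp only [t]
    omega

lemma dim_pw (X : 𝒱.Obj) (n : ℕ) : (pw X n).dim = (n + 1) * X.dim := by
  induction n with
  | zero => rw [zero_add, one_mul]; rfl
  | succ n ih =>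
    have h1 : (pw X (n + 1)).dim = X.dim + (pw X n).dim := dim_prod X (pw X n)
    rw [h1, ih]
    ring

lemma tate_mul {n i j : ℕ} {a b : W.H (pw X n)}
    (ha : a ∈ tateClasses χ (W.gr (pw X n)) (ρ n) i)
    (hb : b ∈ tateClasses χ (W.gr (pw X n)) (ρ n) j) :
    a * b ∈ tateClasses χ (W.gr (pw X n)) (ρ n) (i + j) := by
  obtain ⟨ha, Δ, hΔ, h1⟩ := ha
  obtain ⟨hb, Δ', hΔ', h2⟩ := hb
  refine ⟨?_, Δ ⊓ Δ', inferInstance, fun g hg => ?_⟩
  · have := W.mul_mem ha hb
    rwa [show 2 * i + 2 * j = 2 * (i + j) by ring] at this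
  · rw [map_mul, h1 g hg.1, h2 g hg.2, smul_mul_smul_comm, ← pow_add]

lemma tate_map {m n j : ℕ} {p : pw X n ⟶ pw X m} (hp : Intertwines (W.map p) (ρ m) (ρ n))
    {a : W.H (pw X m)} (ha : a ∈ tateClasses χ (W.gr (pw X m)) (ρ m) j) :
    W.map p a ∈ tateClasses χ (W.gr (pw X n)) (ρ n) j := by
  obtain ⟨ha, Δ, hΔ, h1⟩ := ha
  refine ⟨W.map_mem p ha, Δ, hΔ, fun g hg => ?_⟩
  rw [hp, h1 g hg, map_smul]

lemma tate_push {m n j : ℕ} (hn : IsGaloisAct χ (W.gr (pw X n)) (pw X n).dim (W.tr (pw X n))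
    (algClasses W (pw X n)) (ρ n))
    (hm : IsGaloisAct χ (W.gr (pw X m)) (pw X m).dim (W.tr (pw X m))
    (algClasses W (pw X m)) (ρ m)) {p : pw X n ⟶ pw X m}
    (hp : Intertwines (W.map p) (ρ m) (ρ n)) {a : W.H (pw X n)}
    (ha : a ∈ tateClasses χ (W.gr (pw X n)) (ρ n) j) : W.push p a ∈ TG W X χ ρ m := by
  obtain ⟨ha, Δ, hΔ, h1⟩ := ha
  have h2 := W.push_mem p ha
  by_cases hd : (pw X n).dim ≤ j + (pw X m).dim
  · have e1 : ((2 * j : ℕ) : ℤ) + 2 * (((pw X m).dim : ℤ) - (pw X n).dim) =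
        ((2 * (j + (pw X m).dim - (pw X n).dim) : ℕ) : ℤ) := by
      push_cast [Nat.cast_sub hd]
      ring
    have h3 : W.push p a ∈ W.gr (pw X m) (2 * (j + (pw X m).dim - (pw X n).dim)) := by
      rw [e1, grZ_natCast] at h2
      exact h2
    refine le_iSup (fun j => tateClasses χ (W.gr (pw X m)) (ρ m) j)
      (j + (pw X m).dim - (pw X n).dim) ⟨h3, Δ, hΔ, fun g hg => ?_⟩
    have h4 := push_act hn hm hp g a
    rw [h1 g hg, map_smul, smul_smul, ← pow_add] at h4
    have h5 : ((χ g : W.K) ^ (pw X n).dim) ≠ 0 := pow_ne_zero _ (Units.ne_zero _)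
    have h6 : ((χ g : W.K) ^ (pw X n).dim) • ρ m g (W.push p a) =
        ((χ g : W.K) ^ (pw X n).dim) •
          (((χ g : W.K) ^ (j + (pw X m).dim - (pw X n).dim)) • W.push p a) := by
      rw [h4, smul_smul, ← pow_add]
      congr 2
      omega
    have h7 := congrArg (fun x => ((χ g : W.K) ^ (pw X n).dim)⁻¹ • x) h6
    simp only [smul_smul] at h7
    rw [inv_mul_cancel₀ h5, one_smul, ← mul_assoc, inv_mul_cancel₀ h5, one_mul] at h7
    exact h7
  · rw [grZ_of_neg (by push_cast; omega), Submodule.mem_bot] at h2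
    rw [h2]
    exact Submodule.zero_mem _

/-- The Tate classes form a stable system. -/
lemma PowerAction.stable (h : PowerAction W X χ ρ) : StableSystem W X (TG W X χ ρ) := by
  intro m n f hf a ha
  obtain ⟨e, p, q, ⟨s, hs⟩, ⟨t, ht⟩, hp, hq⟩ := exists_glue X m n
  have hpe := h.equiv p s hs
  have hqe := h.equiv q t ht
  refine Submodule.iSup_induction (fun d : ℤ => KOp W (pw X m) (pw X n) d)
    (motive := fun f => f a ∈ TG W X χ ρ n) hf ?_ ?_ ?_
  · intro d f hf
    induction hf using Submodule.span_induction with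
    | mem f hf =>
      obtain ⟨r, hr, z, hz, rfl⟩ := hf
      have h1 : W.corr (W.cl _ z) a =
          W.push q (W.cl _ (ops.push e z) * W.map p a) := by
        rw [corr_apply, ← hp, ← hq, W.map_comp, W.push_comp, W.push_mul, W.cl_push]
      have hz' : W.cl _ (ops.push e z) ∈ algClasses W (pw X (m + n + 1)) r := by
        refine ⟨_, ops.push_mem e hz ?_, rfl⟩
        rw [dim_prod, dim_pw, dim_pw, dim_pw]
        ring
      have hz'' := h.alg_le (m + n + 1) r (alg_mem_span hz')
      rw [h1]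
      refine Submodule.iSup_induction (fun j => tateClasses χ (W.gr (pw X m)) (ρ m) j)
        (motive := fun a => W.push q (W.cl _ (ops.push e z) * W.map p a) ∈ TG W X χ ρ n) ha
        ?_ ?_ ?_
      · intro j a ha
        exact tate_push (h.galois _) (h.galois _) hqe
          (tate_mul hz'' (tate_map hpe ha))
      · rw [map_zero, mul_zero, map_zero]
        exact Submodule.zero_mem _
      · intro a b ha hb
        rw [map_add, mul_add, map_add]
        exact Submodule.add_mem _ ha hb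
    | zero => exact Submodule.zero_mem _
    | add x y _ _ hx hy => exact Submodule.add_mem _ hx hy
    | smul r x _ hx => exact Submodule.smul_mem _ _ hx
  · exact Submodule.zero_mem _
  · intro f g hf hg
    exact Submodule.add_mem _ hf hg

lemma finrank_TG (n : ℕ) : Module.finrank W.K (TG W X χ ρ n) = tateDim W X χ ρ n := by
  apply finrank_iSup_eq_sum
  · exact (indep_even W (pw X n)).mono (tateClasses_le n)
  · intro j hj
    rw [eq_bot_iff]
    refine (tateClasses_le n j).trans (le_of_eq ?_)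
    exact W.gr_eq_bot (pw X n) (2 * j) (by omega)

lemma TG_eq_iff (h : PowerAction W X χ ρ) (n : ℕ) : TG W X χ ρ n = algSpan W (pw X n) ↔
    TateAct χ (W.gr (pw X n)) (algClasses W (pw X n)) (ρ n) := by
  constructor
  · intro h1 j c hc hc'
    have h2 : c ∈ TG W X χ ρ n :=
      le_iSup (fun j => tateClasses χ (W.gr (pw X n)) (ρ n) j) j ⟨hc, hc'⟩
    rw [h1, algSpan_eq_iSup] at h2
    rw [← spanCycles_eq]
    exact mem_of_mem_iSup (B := fun j => SC W (pw X n) j) (indep_even W (pw X n))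
      (fun j a ha => span_gr ha) hc h2
  · intro h1
    apply le_antisymm _ (h.algSpan_le n)
    rw [algSpan_eq_iSup]
    apply iSup_mono
    rintro j c ⟨hc, hc'⟩
    have h2 := h1 j c hc hc'
    rw [← spanCycles_eq] at h2
    exact h2

/-- **The index of the Tate classes.** -/
theorem tate_index [Nontrivial (W.H X)] (h : PowerAction W X χ ρ) :
    ∃ N : ℕ∞, 1 ≤ N ∧
      Tendsto (fun n => (tateDim W X χ ρ n : ℝ≥0∞) / cycRank ops (pw X n)) atTop
        (𝓝 (N : ℝ≥0∞)) ∧
      (∀ n, (tateDim W X χ ρ (2 * n + 1) : ℝ≥0∞) / cycRank ops (pw X (2 * n + 1)) ≤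
        (N : ℝ≥0∞)) ∧
      (N = 1 ↔ ∀ n, TateAct χ (W.gr (pw X n)) (algClasses W (pw X n)) (ρ n) ∧
        HomEqNum W (pw X n)) := by
  obtain ⟨N, h1, h2, h3, h4⟩ := exists_index (W := W) (X := X) h.stable h.algSpan_le
  simp only [finrank_TG, numRank_eq_sum, TG_eq_iff h] at h2 h3 h4
  exact ⟨N, h1, h2, h3, h4⟩

end Pool.Agent.Y129
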