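import Pool.Agent.Y129.CatCons
import Pool.Agent.Y129.Asym

/-!
# Pairs of stable systems: the gap
-/

open Module LinearMap Finset Filter Topology

namespace Pool.Agent.Y129

section Pkg

variable {K : Type*} [Field K] {Ob : Type*} {H : Ob → Type*} [∀ Y, AddCommGroup (H Y)]
  [∀ Y, Module K (H Y)] {C : ∀ Y Z, Submodule K (H Y →ₗ[K] H Z)} [∀ Y, Module.Finite K (H Y)]
  [IsAlgClosed K] [CharZero K]

/-- The package for pairs of stable families. -/
theorem exists_pkg_mono (hC : IsCat C) {ι : Type} [Fintype ι]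
    [DecidableEq ι] (obj : ι → Ob) : ∃ (n : ℕ) (ρ : ∀ i, Module.End K (H (obj i)) → Fin n → ℕ),
      (∀ i j, ∀ e ∈ C (obj i) (obj i), IsIdempotentElem e → ∀ f ∈ C (obj j) (obj j),
        IsIdempotentElem f → nd C (obj i) (obj j) (sand C (obj i) (obj j) f e) =
          ∑ k, ρ j f k * ρ i e k) ∧
      (∀ 𝒢' 𝒢 : ∀ Y, Submodule K (H Y), IsStable C 𝒢' → IsStable C 𝒢 →
        (∀ Y, 𝒢' Y ≤ 𝒢 Y) → ∃ g' g : Fin n → ℕ, (∀ k, g' k ≤ g k) ∧
        ∀ i, ∀ e ∈ C (obj i) (obj i), IsIdempotentElem e →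
          finrank K ((𝒢' (obj i)).map e) = ∑ k, g' k * ρ i e k ∧
          finrank K ((𝒢 (obj i)).map e) = ∑ k, g k * ρ i e k) := by
  obtain ⟨w⟩ := nonempty_wdata (K := K) (blockAlg hC obj)
  refine ⟨w.n, rho hC obj w, ?_, ?_⟩
  · intro i j e he he' f hf hf'
    exact nd_sand hC obj w he he' hf hf'
  · intro 𝒢' 𝒢 h𝒢' h𝒢 hle
    choose E hE' hE using w.exists_lift
    refine ⟨fun k => finrank K (range (stabRep hC obj h𝒢' (E k))),
      fun k => finrank K (range (stabRep hC obj h𝒢 (E k))), ?_, ?_⟩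
    · intro k
      have hpi : Submodule.pi Set.univ (fun i => 𝒢' (obj i)) ≤
          Submodule.pi Set.univ (fun i => 𝒢 (obj i)) := by
        intro x hx
        rw [Submodule.mem_pi] at hx ⊢
        exact fun i hi => hle _ (hx i hi)
      have h1 : (range (stabRep hC obj h𝒢' (E k))).map
          (Submodule.pi Set.univ (fun i => 𝒢' (obj i))).subtype ≤
          (range (stabRep hC obj h𝒢 (E k))).map
          (Submodule.pi Set.univ (fun i => 𝒢 (obj i))).subtype := by
        rintro _ ⟨_, ⟨x, rfl⟩, rfl⟩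
        exact ⟨_, ⟨⟨x.1, hpi x.2⟩, rfl⟩, rfl⟩
      have h3 := LinearEquiv.finrank_eq (Submodule.equivMapOfInjective
        (Submodule.pi Set.univ (fun i => 𝒢' (obj i))).subtype Subtype.val_injective
        (range (stabRep hC obj h𝒢' (E k))))
      have h4 := LinearEquiv.finrank_eq (Submodule.equivMapOfInjective
        (Submodule.pi Set.univ (fun i => 𝒢 (obj i))).subtype Subtype.val_injective
        (range (stabRep hC obj h𝒢 (E k))))
      change finrank K (range (stabRep hC obj h𝒢' (E k))) ≤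
        finrank K (range (stabRep hC obj h𝒢 (E k)))
      rw [h3, h4]
      exact Submodule.finrank_mono h1
    · intro i e he he'
      rw [← finrank_range_stabRep hC obj h𝒢 he, ← finrank_range_stabRep hC obj h𝒢' he,
        w.module_rank (stabRep hC obj h𝒢) E hE' hE (emb_idem hC obj he he'),
        w.module_rank (stabRep hC obj h𝒢') E hE' hE (emb_idem hC obj he he')]
      simp only [rho_eq hC obj w he, and_self]

/-- The lower bound for the difference of the dimensions of two stable families. -/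
theorem sub_le_finrank (hC : IsCat C) (U Z : Ob) {ε : Module.End K (H U)}
    (hε : ε ∈ C U U) (hε' : IsIdempotentElem ε)
    (hε'' : nd C U U (sand C U U ε ε) = 1)
    {𝒢' 𝒢 : ∀ Y, Submodule K (H Y)} (h𝒢' : IsStable C 𝒢') (h𝒢 : IsStable C 𝒢)
    (hle : ∀ Y, 𝒢' Y ≤ 𝒢 Y)
    (hlt : finrank K ((𝒢' U).map ε) < finrank K ((𝒢 U).map ε)) :
    finrank K (𝒢' Z) + nd C U Z (sand C U Z LinearMap.id ε) ≤ finrank K (𝒢 Z) := by
  obtain ⟨m, ρ, h1, h2⟩ := exists_pkg_mono hC (fun b : Bool => bif b then Z else U)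
  have hid : (1 : Module.End K (H Z)) ∈ C Z Z := hC.id_mem Z
  obtain ⟨g', g, hg, hgg⟩ := h2 𝒢' 𝒢 h𝒢' h𝒢 hle
  have e0 : ∑ j, ρ false ε j * ρ false ε j = 1 := by
    have e1 := h1 false false ε hε hε' ε hε hε'
    change nd C U U (sand C U U ε ε) = _ at e1
    rw [← e1, hε'']
  -- the index
  obtain ⟨j, hj1, hj2⟩ : ∃ j, ρ false ε j = 1 ∧ ∀ j', j' ≠ j → ρ false ε j' = 0 := by
    obtain ⟨j, hj⟩ : ∃ j, ρ false ε j ≠ 0 := by
      by_contra hcon
      push Not at hcon
      simp [hcon] at e0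
    have e3 := Finset.add_sum_erase univ (fun j => ρ false ε j * ρ false ε j)
      (Finset.mem_univ j)
    rw [e0] at e3
    have e4 : 1 ≤ ρ false ε j * ρ false ε j := Nat.one_le_iff_ne_zero.2
      (mul_ne_zero hj hj)
    have e5 : ∑ x ∈ univ.erase j, ρ false ε x * ρ false ε x = 0 := by omega
    refine ⟨j, ?_, ?_⟩
    · have e6 : ρ false ε j * ρ false ε j = 1 := by omega
      exact Nat.eq_one_of_mul_eq_one_left e6
    · intro j' hj'
      have e6 := (Finset.sum_eq_zero_iff.1 e5) j' (Finset.mem_erase.2 ⟨hj', mem_univ _⟩)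
      exact mul_self_eq_zero.1 e6
  have hsum : ∀ c : Fin m → ℕ, ∑ k, c k * ρ false ε k = c j := by
    intro c
    rw [Finset.sum_eq_single j, hj1, mul_one]
    · intro j' _ hj'
      rw [hj2 j' hj', mul_zero]
    · simp
  have e1 : finrank K ((𝒢' U).map ε) = g' j := ((hgg false ε hε hε').1).trans (hsum g')
  have e2 : finrank K ((𝒢 U).map ε) = g j := ((hgg false ε hε hε').2).trans (hsum g)
  rw [e1, e2] at hlt
  have e3 : nd C U Z (sand C U Z LinearMap.id ε) = ρ true 1 j := by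
    have e6 := h1 false true ε hε hε' 1 hid IsIdempotentElem.one
    change nd C U Z (sand C U Z LinearMap.id ε) = _ at e6
    exact e6.trans (hsum (ρ true 1))
  have e4 : (𝒢 Z).map (1 : Module.End K (H Z)) = 𝒢 Z := Submodule.map_id _
  have e5 : (𝒢' Z).map (1 : Module.End K (H Z)) = 𝒢' Z := Submodule.map_id _
  obtain ⟨e7, e6⟩ := hgg true 1 hid IsIdempotentElem.one
  change finrank K ((𝒢 Z).map (1 : Module.End K (H Z))) = _ at e6
  change finrank K ((𝒢' Z).map (1 : Module.End K (H Z))) = _ at e7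
  rw [e4] at e6
  rw [e5] at e7
  rw [e6, e7, e3]
  have e8 : ∑ k, g' k * ρ true 1 k + ρ true 1 j ≤ ∑ k, g k * ρ true 1 k := by
    rw [← Finset.add_sum_erase univ (fun k => g' k * ρ true 1 k) (mem_univ j),
      ← Finset.add_sum_erase univ (fun k => g k * ρ true 1 k) (mem_univ j)]
    have e9 : ∑ k ∈ univ.erase j, g' k * ρ true 1 k ≤ ∑ k ∈ univ.erase j, g k * ρ true 1 k :=
      Finset.sum_le_sum fun k _ => Nat.mul_le_mul_right _ (hg k)
    have e10 : g' j * ρ true 1 j + ρ true 1 j ≤ g j * ρ true 1 j := by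
      calc g' j * ρ true 1 j + ρ true 1 j = (g' j + 1) * ρ true 1 j := by ring
        _ ≤ _ := Nat.mul_le_mul_right _ hlt
    omega
  exact e8

end Pkg

section Core

variable {K : Type*} [Field K] {H : ℕ → Type*} [∀ n, AddCommGroup (H n)]
  [∀ n, Module K (H n)] {C : ∀ m n, Submodule K (H m →ₗ[K] H n)} [∀ n, Module.Finite K (H n)]
  [IsAlgClosed K] [CharZero K] {β : ℕ → ℕ} {b : ℕ}

/-- **The gap**: if a stable system is strictly larger than another one, then the difference of the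
dimensions is asymptotically at least the numerical rank. -/
theorem IsPowers.gap (h : IsPowers C β b) {𝒢' 𝒢 : ∀ n, Submodule K (H n)}
    (h𝒢' : IsStable C 𝒢') (h𝒢 : IsStable C 𝒢) (hle : ∀ n, 𝒢' n ≤ 𝒢 n) {m : ℕ}
    (hne : 𝒢' m ≠ 𝒢 m) {δ : ℝ} (hδ : 0 < δ) :
    ∀ᶠ n in atTop, (finrank K (𝒢' (n + 1)) : ℝ) + (1 - δ) * cmp β b n ≤
      finrank K (𝒢 (n + 1)) := by
  obtain ⟨r, ε, hε, hε', hε'', hdec⟩ := exists_primitive h.cat m
  have h1 : finrank K (𝒢' m) < finrank K (𝒢 m) := by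
    apply lt_of_le_of_ne (Submodule.finrank_mono (hle m))
    intro h2
    exact hne (Submodule.eq_of_le_of_finrank_le (hle m) h2.ge)
  obtain ⟨k, hk⟩ : ∃ k, finrank K ((𝒢' m).map (ε k)) < finrank K ((𝒢 m).map (ε k)) := by
    by_contra hcon
    push Not at hcon
    rw [hdec 𝒢' h𝒢', hdec 𝒢 h𝒢] at h1
    have h2 := Finset.sum_le_sum fun k (_ : k ∈ univ) => Nat.mul_le_mul_left
      (nd C m m (sand C m m LinearMap.id (ε k))) (hcon k)
    omega
  have hrank : (1 : ℝ) ≤ finrank K (range (ε k)) := by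
    have h2 : finrank K ((𝒢 m).map (ε k)) ≤ finrank K (range (ε k)) :=
      Submodule.finrank_mono LinearMap.map_le_range
    have h3 : 1 ≤ finrank K (range (ε k)) := by omega
    exact_mod_cast h3
  filter_upwards [h.eventually m (hε k) (hε' k) hδ] with n hn
  have h2 := sub_le_finrank h.cat m (n + 1) (hε k) (hε' k) (by rw [hε'', if_pos rfl]) h𝒢' h𝒢
    hle hk
  have h3 : (finrank K (𝒢' (n + 1)) : ℝ) +
      nd C m (n + 1) (sand C m (n + 1) LinearMap.id (ε k)) ≤ finrank K (𝒢 (n + 1)) := by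
    exact_mod_cast h2
  have h4 : (0 : ℝ) ≤ cmp β b n := Nat.cast_nonneg _
  nlinarith [mul_le_mul_of_nonneg_right hrank h4]

/-- The comparison sequence and the numerical ranks. -/
lemma IsPowers.tendsto_cmp_div (h : IsPowers C β b) :
    Tendsto (fun n => (cmp β b n : ℝ) / β (n + 1)) atTop (𝓝 1) := by
  have h1 := (h.tendsto_cmp 0).inv₀ (by simp)
  rw [pow_zero, inv_one] at h1
  refine h1.congr ?_
  intro n
  rw [inv_div, add_zero]

/-- The gap in terms of the limits. -/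
theorem IsPowers.gap_limit (h : IsPowers C β b) {𝒢' 𝒢 : ∀ n, Submodule K (H n)}
    (h𝒢' : IsStable C 𝒢') (h𝒢 : IsStable C 𝒢) (hle : ∀ n, 𝒢' n ≤ 𝒢 n) {m : ℕ}
    (hne : 𝒢' m ≠ 𝒢 m) {N' N : ℝ}
    (h1 : Tendsto (fun n => (finrank K (𝒢' n) : ℝ) / β n) atTop (𝓝 N'))
    (h2 : Tendsto (fun n => (finrank K (𝒢 n) : ℝ) / β n) atTop (𝓝 N)) : N' + 1 ≤ N := by
  have h3 := h.tendsto_cmp_div
  rw [← tendsto_add_atTop_iff_nat 1] at h1 h2
  by_contra hcon
  push Not at hcon
  set δ : ℝ := (N' + 1 - N) / 2 with hδ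
  have hδ0 : 0 < δ := by rw [hδ]; linarith
  have h4 := (h1.add (h3.const_mul (1 - δ))).sub h2
  have h5 : 0 < N' + (1 - δ) * 1 - N := by rw [hδ]; linarith
  have h6 := (h4.eventually (lt_mem_nhds h5)).and ((h.gap h𝒢' h𝒢 hle hne hδ0).and
    (h3.eventually (lt_mem_nhds (a := 1 / 2) (by norm_num))))
  obtain ⟨n, hn1, hn2, hn3⟩ := h6.exists
  have hpos : (0 : ℝ) < β (n + 1) := by
    by_contra hcon'
    have : (β (n + 1) : ℝ) = 0 := le_antisymm (not_lt.1 hcon') (Nat.cast_nonneg _)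
    rw [this, div_zero] at hn3
    linarith
  have h7 : (finrank K (𝒢' (n + 1)) : ℝ) / β (n + 1) +
      (1 - δ) * ((cmp β b n : ℝ) / β (n + 1)) ≤ (finrank K (𝒢 (n + 1)) : ℝ) / β (n + 1) := by
    rw [← mul_div_assoc, ← add_div]
    exact div_le_div_of_nonneg_right hn2 hpos.le
  linarith

end Core

end Pool.Agent.Y129
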