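import Pool.Agent.Y129.Idx
import Pool.Agent.Y129.Pair

/-!
# The gap between the indices of stable systems, finite generation
-/

open CategoryTheory AlgebraicGeometry Finset Filter Topology TensorProduct

open scoped ENNReal

universe u v

namespace Pool.Agent.Y129

open Pool.Agent.H914 Pool.Agent.H914.VarClass Pool.Agent.H914.VarClass.Obj
  Pool.Agent.H914.WeilCohomology Pool.Agent.H281R3.HT

variable {k : Type u} [Field k] {𝒱 : VarClass k} {ops : CycleOps 𝒱}
  {W : WeilCohomology.{u, v} ops} {X Y Z : 𝒱.Obj}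

/-- Numerical equivalence on the products of powers of `X` can be tested with the trace form, over
an algebraic closure of the coefficient field. -/
def Full (W : WeilCohomology.{u, v} ops) (X : 𝒱.Obj) : Prop :=
  GoodSet (baseW W (AlgebraicClosure W.K)) {Y | ∃ n, Nonempty (Y ≅ pw X n)}

lemma one_tmul_algSpan (L : Type v) [Field L] [Algebra W.K L] {w : W.H Y}
    (hw : w ∈ algSpan W Y) :
    ((1 : L) ⊗ₜ[W.K] w : (baseW W L).H Y) ∈ algSpan (baseW W L) Y := by
  induction hw using Submodule.span_induction with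
  | mem x hx =>
    obtain ⟨j, z, hz, rfl⟩ := Set.mem_iUnion.1 hx
    exact Submodule.subset_span (Set.mem_iUnion.2 ⟨j, z, hz, rfl⟩)
  | zero =>
    rw [TensorProduct.tmul_zero]
    exact Submodule.zero_mem _
  | add x y _ _ hx hy =>
    rw [TensorProduct.tmul_add]
    exact Submodule.add_mem _ hx hy
  | smul r x _ hx =>
    have h1 : ((1 : L) ⊗ₜ[W.K] (r • x) : L ⊗[W.K] W.H Y) =
        (algebraMap W.K L r) • ((1 : L) ⊗ₜ[W.K] x) := by
      rw [TensorProduct.tmul_smul, algebraMap_smul]
    rw [h1]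
    exact Submodule.smul_mem _ _ hx

lemma tr_one_tmul (L : Type v) [Field L] [Algebra W.K L] (w : W.H Y) :
    (baseW W L).tr Y ((1 : L) ⊗ₜ[W.K] w : (baseW W L).H Y) =
      (algebraMap W.K L (W.tr Y w) : L) := by
  have h1 : (baseW W L).tr Y ((1 : L) ⊗ₜ[W.K] w : (baseW W L).H Y) =
      formBase L (W.tr Y) ((1 : L) ⊗ₜ[W.K] w) := rfl
  rw [h1, formBase_tmul, one_mul]

lemma nontrivial_base (L : Type v) [Field L] [Algebra W.K L] [Nontrivial (W.H X)] :
    Nontrivial ((baseW W L).H X) := by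
  have h1 : 0 < Module.finrank L (L ⊗[W.K] W.H X) := by
    rw [Module.finrank_baseChange]
    exact Module.finrank_pos
  have h2 : Nontrivial (L ⊗[W.K] W.H X) := Module.nontrivial_of_finrank_pos (R := L) h1
  exact h2

lemma algSpan_base_le {G : Submodule W.K (W.H Y)} (L : Type v) [Field L] [Algebra W.K L]
    (hA : algSpan W Y ≤ G) : algSpan (baseW W L) Y ≤ G.baseChange L := by
  rw [algSpan, Submodule.span_le]
  intro c hc
  obtain ⟨j, z, hz, rfl⟩ := Set.mem_iUnion.1 hc
  exact Submodule.tmul_mem_baseChange_of_mem (1 : L)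
    (hA (Submodule.subset_span (Set.mem_iUnion.2 ⟨j, z, hz, rfl⟩)))

/-- The extension of the coefficients of a system. -/
noncomputable def baseSys (L : Type v) [Field L] [Algebra W.K L]
    (G : ∀ n, Submodule W.K (W.H (pw X n))) (n : ℕ) :
    Submodule (baseW W L).K ((baseW W L).H (pw X n)) := (G n).baseChange L

lemma finrank_baseSys (L : Type v) [Field L] [Algebra W.K L]
    (G : ∀ n, Submodule W.K (W.H (pw X n))) (n : ℕ) :
    Module.finrank (baseW W L).K (baseSys L G n) = Module.finrank W.K (G n) :=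
  finrank_baseChange L (G n)

lemma baseSys_stable (L : Type v) [Field L] [Algebra W.K L]
    {G : ∀ n, Submodule W.K (W.H (pw X n))} (hG : StableSystem W X G) :
    StableSystem (baseW W L) X (baseSys L G) := hG.base L

lemma baseSys_mono (L : Type v) [Field L] [Algebra W.K L]
    {G' G : ∀ n, Submodule W.K (W.H (pw X n))} (h : ∀ n, G' n ≤ G n) (n : ℕ) :
    baseSys L G' n ≤ baseSys L G n := Submodule.baseChange_mono L (h n)

lemma algSpan_baseSys (L : Type v) [Field L] [Algebra W.K L]
    {G : ∀ n, Submodule W.K (W.H (pw X n))} (h : ∀ n, algSpan W (pw X n) ≤ G n) (n : ℕ) :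
    algSpan (baseW W L) (pw X n) ≤ baseSys L G n := algSpan_base_le L (h n)

/-- Either numerical equivalence can be tested with the trace form, or all indices are infinite. -/
lemma full_or_infinite [Nontrivial (W.H X)] {z : W.H X} (hz : z ∈ algSpan W X)
    (hz1 : W.tr X z = 1) : Full W X ∨
    ∀ G : ∀ n, Submodule W.K (W.H (pw X n)), (∀ n, algSpan W (pw X n) ≤ G n) →
      Tendsto (fun n => (Module.finrank W.K (G n) : ℝ) / numRank W (pw X n)) atTop atTop := by
  have hcl : IsAlgClosed (baseW W (AlgebraicClosure W.K)).K :=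
    (inferInstance : IsAlgClosed (AlgebraicClosure W.K))
  have hnt : Nontrivial ((baseW W (AlgebraicClosure W.K)).H X) := nontrivial_base _
  have hpt : (baseW W (AlgebraicClosure W.K)).tr X
      ((1 : AlgebraicClosure W.K) ⊗ₜ[W.K] z : (baseW W (AlgebraicClosure W.K)).H X) = 1 := by
    rw [tr_one_tmul, hz1, map_one]
    rfl
  rcases dichotomy_closed (one_tmul_algSpan (AlgebraicClosure W.K) hz) hpt with h | h
  · right
    intro G hA
    rw [tendsto_atTop]
    intro A
    set B : ℝ := max A 1 with hB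
    have hB0 : 0 < B := lt_of_lt_of_le one_pos (le_max_right _ _)
    obtain ⟨n₀, hn₀⟩ := h B⁻¹ (inv_pos.2 hB0)
    rw [eventually_atTop]
    refine ⟨n₀, fun n hn => (le_max_left A 1).trans ?_⟩
    obtain ⟨w, hw, hw1⟩ := exists_pt_pw hz hz1 n
    have hpos : (0 : ℝ) < numRank W (pw X n) := by exact_mod_cast numRank_pos_of hw hw1
    rw [← hB, le_div_iff₀ hpos]
    have h1 := hn₀ n hn
    rw [numRank_base] at h1
    have h2 : (Module.finrank (baseW W (AlgebraicClosure W.K)).K
        (algSpan (baseW W (AlgebraicClosure W.K)) (pw X n)) : ℝ) ≤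
        Module.finrank W.K (G n) := by
      have h3 := Submodule.finrank_mono (algSpan_baseSys (AlgebraicClosure W.K) hA n)
      rw [finrank_baseSys] at h3
      exact_mod_cast h3
    calc B * numRank W (pw X n) ≤ B * (B⁻¹ * Module.finrank (baseW W (AlgebraicClosure W.K)).K
          (algSpan (baseW W (AlgebraicClosure W.K)) (pw X n))) :=
          mul_le_mul_of_nonneg_left h1 hB0.le
      _ = Module.finrank (baseW W (AlgebraicClosure W.K)).K
          (algSpan (baseW W (AlgebraicClosure W.K)) (pw X n)) := by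
          rw [← mul_assoc, mul_inv_cancel₀ hB0.ne', one_mul]
      _ ≤ _ := h2
  · exact Or.inl h

/-- The gap, over an arbitrary coefficient field. -/
theorem gap_limit [Nontrivial (W.H X)] (hF : Full W X)
    {G' G : ∀ n, Submodule W.K (W.H (pw X n))} (hG' : StableSystem W X G')
    (hG : StableSystem W X G) (hle : ∀ n, G' n ≤ G n) {m : ℕ} (hne : G' m ≠ G m) {N' N : ℝ}
    (h1 : Tendsto (fun n => (Module.finrank W.K (G' n) : ℝ) / numRank W (pw X n)) atTop
      (𝓝 N'))
    (h2 : Tendsto (fun n => (Module.finrank W.K (G n) : ℝ) / numRank W (pw X n)) atTop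
      (𝓝 N)) : N' + 1 ≤ N := by
  have hcl : IsAlgClosed (baseW W (AlgebraicClosure W.K)).K :=
    (inferInstance : IsAlgClosed (AlgebraicClosure W.K))
  have hnt : Nontrivial ((baseW W (AlgebraicClosure W.K)).H X) := nontrivial_base _
  have hP := isPowers (W := baseW W (AlgebraicClosure W.K)) hF ⟨0, ⟨Iso.refl X⟩⟩
  refine hP.gap_limit (𝒢' := baseSys (AlgebraicClosure W.K) G')
    (𝒢 := baseSys (AlgebraicClosure W.K) G)
    (baseSys_stable (AlgebraicClosure W.K) hG') (baseSys_stable (AlgebraicClosure W.K) hG)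
    (baseSys_mono (AlgebraicClosure W.K) hle) (m := m) ?_ ?_ ?_
  · intro h
    apply hne
    apply Submodule.eq_of_le_of_finrank_le (hle m)
    rw [← finrank_baseSys (AlgebraicClosure W.K) G m,
      ← finrank_baseSys (AlgebraicClosure W.K) G' m, h]
  · simp only [finrank_baseSys, numRank_base]
    exact h1
  · simp only [finrank_baseSys, numRank_base]
    exact h2

/-- `N` is the index of the system `G`. -/
def IsIndex (W : WeilCohomology.{u, v} ops) (X : 𝒱.Obj)
    (G : ∀ n, Submodule W.K (W.H (pw X n))) (N : ℕ∞) : Prop :=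
  Tendsto (fun n => (Module.finrank W.K (G n) : ℝ≥0∞) / numRank W (pw X n)) atTop
    (𝓝 (N : ℝ≥0∞))

/-- A finite index implies that there is a class of trace one. -/
lemma exists_pt_of_finite [Nontrivial (W.H X)]
    {G : ∀ n, Submodule W.K (W.H (pw X n))} (hA : ∀ n, algSpan W (pw X n) ≤ G n) {N : ℕ∞}
    (hN : IsIndex W X G N) (hN' : N ≠ ⊤) : ∃ z ∈ algSpan W X, W.tr X z = 1 := by
  by_contra hcon
  have hZ : ∀ z ∈ algSpan W X, W.tr X z = 0 := by
    intro z hz
    by_contra hz0
    exact hcon ⟨(W.tr X z)⁻¹ • z, Submodule.smul_mem _ _ hz, by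
      rw [map_smul, smul_eq_mul, inv_mul_cancel₀ hz0]⟩
  have h0 : ∀ n, numRank W (pw X n) = 0 := by
    intro n
    have h1 : (algSpan W (pw X n)).map (transcendental W (pw X n)).mkQ = ⊥ := by
      rw [eq_bot_iff]
      rintro _ ⟨c, hc, rfl⟩
      rw [Submodule.mem_bot, Submodule.mkQ_apply, Submodule.Quotient.mk_eq_zero]
      exact transcendental_of_tr hZ n hc
    have h2 : numRank W (pw X n) = Module.finrank W.K
      ((algSpan W (pw X n)).map (transcendental W (pw X n)).mkQ) := rfl
    rw [h2, h1, finrank_bot]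
  have h1 : ∀ n, (Module.finrank W.K (G n) : ℝ≥0∞) / numRank W (pw X n) = ⊤ := by
    intro n
    have := nontrivial_pw (W := W) (X := X) n
    rw [h0, Nat.cast_zero, ENNReal.div_zero]
    have h2 : Module.finrank W.K (G n) ≠ 0 := by
      intro h3
      have h4 := Submodule.finrank_eq_zero.1 h3
      have h5 : (1 : W.H (pw X n)) ∈ G n := hA n (one_algSpan _)
      rw [h4, Submodule.mem_bot] at h5
      exact one_ne_zero h5
    exact_mod_cast h2
  rw [IsIndex] at hN
  simp only [h1] at hN
  have h2 := tendsto_nhds_unique hN tendsto_const_nhds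
  apply hN'
  have h3 : ((N : ℕ∞) : ℝ≥0∞) = ((⊤ : ℕ∞) : ℝ≥0∞) := by rw [h2]; simp
  exact ENat.toENNReal_inj.1 h3

lemma ratio_ofReal {a b : ℕ} (hb : 0 < b) :
    ENNReal.ofReal ((a : ℝ) / b) = (a : ℝ≥0∞) / b := by
  rw [ENNReal.ofReal_div_of_pos (by exact_mod_cast hb), ENNReal.ofReal_natCast,
    ENNReal.ofReal_natCast]

/-- A finite index is the limit of real numbers. -/
lemma IsIndex.real {z : W.H X} (hz : z ∈ algSpan W X) (hz1 : W.tr X z = 1)
    {G : ∀ n, Submodule W.K (W.H (pw X n))} {N : ℕ} (hN : IsIndex W X G N) :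
    Tendsto (fun n => (Module.finrank W.K (G n) : ℝ) / numRank W (pw X n)) atTop
      (𝓝 (N : ℝ)) := by
  have hpos : ∀ n, 0 < numRank W (pw X n) := by
    intro n
    obtain ⟨w, hw, hw1⟩ := exists_pt_pw hz hz1 n
    exact numRank_pos_of hw hw1
  have h1 : Tendsto (fun n => ENNReal.ofReal ((Module.finrank W.K (G n) : ℝ) /
      numRank W (pw X n))) atTop (𝓝 ((N : ℕ) : ℝ≥0∞)) := by
    have h2 := hN
    rw [IsIndex, ENat.toENNReal_coe] at h2
    refine h2.congr fun n => ?_
    exact (ratio_ofReal (hpos n)).symm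
  have h2 := (ENNReal.tendsto_toReal (ENNReal.natCast_ne_top N)).comp h1
  rw [ENNReal.toReal_natCast] at h2
  refine h2.congr fun n => ?_
  exact ENNReal.toReal_ofReal (by positivity)

/-- **The gap between the indices.** -/
theorem gap_index [Nontrivial (W.H X)]
    {G' G : ∀ n, Submodule W.K (W.H (pw X n))} (hG' : StableSystem W X G')
    (hG : StableSystem W X G) (hA : ∀ n, algSpan W (pw X n) ≤ G' n)
    (hle : ∀ n, G' n ≤ G n) {m : ℕ} (hne : G' m ≠ G m) {N' N : ℕ∞}
    (h1 : IsIndex W X G' N') (h2 : IsIndex W X G N) : N' + 1 ≤ N := by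
  by_cases hN : N = ⊤
  · rw [hN]; exact le_top
  have hA' : ∀ n, algSpan W (pw X n) ≤ G n := fun n => (hA n).trans (hle n)
  obtain ⟨z, hz, hz1⟩ := exists_pt_of_finite hA' h2 hN
  have hle' : N' ≤ N := by
    have h3 : (N' : ℝ≥0∞) ≤ (N : ℝ≥0∞) := by
      refine le_of_tendsto_of_tendsto' h1 h2 fun n => ?_
      apply ENNReal.div_le_div_right
      exact_mod_cast Submodule.finrank_mono (hle n)
    exact_mod_cast h3
  have hN' : N' ≠ ⊤ := fun h => hN (top_le_iff.1 (h ▸ hle'))
  obtain ⟨n', rfl⟩ := ENat.ne_top_iff_exists.1 hN'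
  obtain ⟨n, rfl⟩ := ENat.ne_top_iff_exists.1 hN
  have h3 := h1.real hz hz1
  have h4 := h2.real hz hz1
  rcases full_or_infinite hz hz1 with hF | hinf
  · have h5 := gap_limit hF hG' hG hle hne h3 h4
    exact_mod_cast h5
  · exfalso
    exact not_tendsto_nhds_of_tendsto_atTop (hinf G hA') _ h4

/-- The system generated by finitely many classes. -/
noncomputable def genSys (W : WeilCohomology.{u, v} ops) (X : 𝒱.Obj) {r : ℕ}
    (c : Fin r → Σ n, W.H (pw X n)) (n : ℕ) : Submodule W.K (W.H (pw X n)) :=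
  algSpan W (pw X n) ⊔
    ⨆ i, (CC W (pw X (c i).1) (pw X n)).map (LinearMap.applyₗ (c i).2)

lemma genSys_stable {r : ℕ} (c : Fin r → Σ n, W.H (pw X n)) :
    StableSystem W X (genSys W X c) := by
  intro a b f hf x hx
  have h1 : genSys W X c a ≤ (genSys W X c b).comap f := by
    apply sup_le
    · intro y hy
      exact Submodule.mem_sup_left (CC.algSpan hf hy)
    · apply iSup_le
      rintro i _ ⟨g, hg, rfl⟩
      apply Submodule.mem_sup_right
      exact Submodule.mem_iSup_of_mem i ⟨f ∘ₗ g, isCat_CC.comp_mem hf hg, rfl⟩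
  exact h1 hx

lemma genSys_le {G : ∀ n, Submodule W.K (W.H (pw X n))} (hG : StableSystem W X G)
    (hA : ∀ n, algSpan W (pw X n) ≤ G n) {r : ℕ} {c : Fin r → Σ n, W.H (pw X n)}
    (hc : ∀ i, (c i).2 ∈ G (c i).1) (n : ℕ) : genSys W X c n ≤ G n := by
  apply sup_le (hA n)
  apply iSup_le
  rintro i _ ⟨g, hg, rfl⟩
  exact hG _ _ g hg _ (hc i)

lemma mem_genSys {r : ℕ} (c : Fin r → Σ n, W.H (pw X n)) (i : Fin r) :
    (c i).2 ∈ genSys W X c (c i).1 := by
  apply Submodule.mem_sup_right
  exact Submodule.mem_iSup_of_mem i ⟨LinearMap.id, isCat_CC.id_mem _, rfl⟩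

/-- **Finite generation**: a stable system with a finite index `N` is generated by the algebraic
classes and at most `N - 1` of its members, which can be chosen in a given spanning family. -/
theorem exists_generators [Nontrivial (W.H X)]
    {G : ∀ n, Submodule W.K (W.H (pw X n))} (hG : StableSystem W X G)
    (hA : ∀ n, algSpan W (pw X n) ≤ G n) {N : ℕ∞} (hN : IsIndex W X G N) (hN' : N ≠ ⊤)
    (P : ∀ n, Set (W.H (pw X n))) (hP : ∀ n, G n = Submodule.span W.K (P n)) :
    ∃ (r : ℕ) (c : Fin r → Σ n, W.H (pw X n)), ((r : ℕ∞) + 1 ≤ N) ∧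
      (∀ i, (c i).2 ∈ P (c i).1) ∧ ∀ n, G n = genSys W X c n := by
  have hind : ∀ G' : ∀ n, Submodule W.K (W.H (pw X n)), StableSystem W X G' →
      (∀ n, algSpan W (pw X n) ≤ G' n) → ∃ N' : ℕ∞, 1 ≤ N' ∧ IsIndex W X G' N' := by
    intro G' hG' hA'
    obtain ⟨N', h1, h2, -, -⟩ := exists_index hG' hA'
    exact ⟨N', h1, h2⟩
  have hAgen : ∀ {r : ℕ} (c : Fin r → Σ n, W.H (pw X n)) (n : ℕ),
      algSpan W (pw X n) ≤ genSys W X c n := fun c n => le_sup_left
  have hcG : ∀ {r : ℕ} {c : Fin r → Σ n, W.H (pw X n)}, (∀ i, (c i).2 ∈ P (c i).1) →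
      ∀ i, (c i).2 ∈ G (c i).1 := by
    intro r c hc i
    rw [hP]
    exact Submodule.subset_span (hc i)
  have hmono : ∀ {r : ℕ} {c : Fin r → Σ n, W.H (pw X n)}, (∀ i, (c i).2 ∈ P (c i).1) →
      ∀ {N' : ℕ∞}, IsIndex W X (genSys W X c) N' → N' ≤ N := by
    intro r c hc N' h1
    have h3 : (N' : ℝ≥0∞) ≤ (N : ℝ≥0∞) := by
      refine le_of_tendsto_of_tendsto' h1 hN fun n => ?_
      apply ENNReal.div_le_div_right
      exact_mod_cast Submodule.finrank_mono (genSys_le hG hA (hcG hc) n)
    exact_mod_cast h3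
  by_contra hcon
  push Not at hcon
  -- longer and longer chains
  have key : ∀ r : ℕ, ∃ c : Fin r → Σ n, W.H (pw X n), (∀ i, (c i).2 ∈ P (c i).1) ∧
      ∃ N' : ℕ∞, IsIndex W X (genSys W X c) N' ∧ (r : ℕ∞) + 1 ≤ N' := by
    intro r
    induction r with
    | zero =>
      refine ⟨Fin.elim0, fun i => i.elim0, ?_⟩
      obtain ⟨N', h1, h2⟩ := hind _ (genSys_stable (W := W) (X := X) Fin.elim0) (hAgen _)
      refine ⟨N', h2, ?_⟩
      rw [Nat.cast_zero, zero_add]
      exact h1
    | succ r ih =>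
      obtain ⟨c, hc, N', h1, h2⟩ := ih
      obtain ⟨n, hn⟩ := hcon r c (h2.trans (hmono hc h1)) hc
      -- a new class
      obtain ⟨x, hx, hx'⟩ : ∃ x ∈ P n, x ∉ genSys W X c n := by
        by_contra hcon2
        push Not at hcon2
        apply hn
        apply le_antisymm _ (genSys_le hG hA (hcG hc) n)
        rw [hP n, Submodule.span_le]
        exact hcon2
      let c' : Fin (r + 1) → Σ n, W.H (pw X n) := Fin.snoc (α := fun _ => Σ n, W.H (pw X n)) c
        ⟨n, x⟩
      have e1 : ∀ i : Fin r, c' i.castSucc = c i := fun i => Fin.snoc_castSucc _ _ _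
      have e2 : c' (Fin.last r) = ⟨n, x⟩ := Fin.snoc_last _ _
      have hc' : ∀ i, (c' i).2 ∈ P (c' i).1 := by
        intro i
        refine Fin.lastCases ?_ (fun i => ?_) i
        · rw [e2]; exact hx
        · rw [e1]; exact hc i
      obtain ⟨N'', h3, h4⟩ := hind _ (genSys_stable c') (hAgen c')
      refine ⟨c', hc', N'', h4, ?_⟩
      have hle : ∀ l, genSys W X c l ≤ genSys W X c' l := by
        intro l
        apply genSys_le (genSys_stable c') (hAgen c')
        intro i
        rw [← e1]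
        exact mem_genSys c' i.castSucc
      have h5 : N' + 1 ≤ N'' := by
        refine gap_index (genSys_stable c) (genSys_stable c') (hAgen c) hle (m := n) ?_ h1 h4
        intro h6
        apply hx'
        rw [h6]
        have h7 := mem_genSys c' (Fin.last r)
        rw [e2] at h7
        exact h7
      push_cast
      exact (add_le_add_left h2 1).trans h5
  obtain ⟨n, rfl⟩ := ENat.ne_top_iff_exists.1 hN'
  obtain ⟨c, hc, N', h1, h2⟩ := key n
  have h3 := h2.trans (hmono hc h1)
  have h4 : n + 1 ≤ n := by exact_mod_cast h3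
  omega

end Pool.Agent.Y129
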