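import Pool.Agent.Y129.Gal
import Pool.Agent.Y129.Gen
import Pool.Agent.Y129.GDefs

/-!
# A finite index of the Tate classes: nilpotence and generators
-/

open CategoryTheory AlgebraicGeometry Finset Filter Topology TensorProduct

open scoped ENNReal

universe u v w

namespace Pool.Agent.Y129

open Pool.Agent.H914 Pool.Agent.H914.VarClass Pool.Agent.H914.VarClass.Obj
  Pool.Agent.H914.WeilCohomology Pool.Agent.H281R3.HT Pool.Agent.TH125.Gal

variable {k : Type u} [Field k] {𝒱 : VarClass k} {ops : CycleOps 𝒱}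
  {W : WeilCohomology.{u, v} ops} {X Y Z : 𝒱.Obj}

lemma corr_base (L : Type v) [Field L] [Algebra W.K L] (z : W.H (X.prod Y)) :
    (baseW W L).corr ((1 : L) ⊗ₜ[W.K] z : (baseW W L).H (X.prod Y)) =
      (W.corr z).baseChange L :=
  corrOp_base (L := L) (W.map (fst X Y)) (W.push (snd X Y)) z

lemma pow_baseChange {K : Type*} [Field K] {V : Type*} [AddCommGroup V] [Module K V]
    (L : Type*) [Field L] [Algebra K L] (f : Module.End K V) (n : ℕ) :
    (f.baseChange L : Module.End L (L ⊗[K] V)) ^ n = ((f ^ n : Module.End K V)).baseChange L := by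
  induction n with
  | zero =>
    rw [pow_zero, pow_zero]
    exact LinearMap.baseChange_id.symm
  | succ n ih => rw [pow_succ, pow_succ, ih]; exact (LinearMap.baseChange_comp _ _).symm

lemma isNilpotent_of_baseChange {K : Type*} [Field K] {V : Type*} [AddCommGroup V] [Module K V]
    (L : Type*) [Field L] [Algebra K L] {f : Module.End K V}
    (h : IsNilpotent (f.baseChange L : Module.End L (L ⊗[K] V))) : IsNilpotent f := by
  obtain ⟨n, hn⟩ := h
  refine ⟨n, LinearMap.ext fun v => ?_⟩
  rw [pow_baseChange] at hn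
  have h1 : (1 : L) ⊗ₜ[K] ((f ^ n) v) = 0 := by
    have h2 := congrArg (fun g => g ((1 : L) ⊗ₜ[K] v)) hn
    simpa using h2
  have h3 : Function.Injective (fun v : V => (1 : L) ⊗ₜ[K] v) :=
    Module.FaithfullyFlat.tensorProduct_mk_injective V
  exact h3 (h1.trans (TensorProduct.tmul_zero _ _).symm)

/-- The extension of a class. -/
noncomputable def ext1 (L : Type v) [Field L] [Algebra W.K L] (a : W.H Y) : (baseW W L).H Y :=
  (1 : L) ⊗ₜ[W.K] a

lemma ext1_mul (L : Type v) [Field L] [Algebra W.K L] (a b : W.H Y) :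
    ext1 L a * ext1 L b = ext1 (W := W) (Y := Y) L (a * b) := by
  have h3 : ((1 : L) ⊗ₜ[W.K] a) * ((1 : L) ⊗ₜ[W.K] b) =
    ((1 : L) * 1) ⊗ₜ[W.K] (a * b) := Algebra.TensorProduct.tmul_mul_tmul _ _ _ _
  rw [one_mul] at h3
  exact h3

lemma one_tmul_transcendental (L : Type v) [Field L] [Algebra W.K L] {z : W.H Y}
    (hz : z ∈ transcendental W Y) : ext1 L z ∈ transcendental (baseW W L) Y := by
  rw [mem_transcendental] at hz
  refine (mem_transcendental (W := baseW W L)).2 fun d hd => ?_
  induction hd using Submodule.span_induction with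
  | mem x hx =>
    obtain ⟨j, c, hc, rfl⟩ := Set.mem_iUnion.1 hx
    have h2 : (baseW W L).cl Y c = ext1 L (W.cl Y c) := rfl
    rw [h2, ext1_mul]
    refine (tr_one_tmul L (W.cl Y c * z)).trans ?_
    rw [hz _ (Submodule.subset_span (Set.mem_iUnion.2 ⟨j, c, hc, rfl⟩)), map_zero]
    rfl
  | zero => rw [zero_mul, map_zero]
  | add x y _ _ hx hy => rw [add_mul, map_add, hx, hy, add_zero]
  | smul r x _ hx => rw [smul_mul_assoc, map_smul, hx, smul_zero]

/-- A numerically trivial correspondence is nilpotent if numerical triviality can be tested with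
the trace form. -/
lemma nilpotent_of_good (h : Good W Y Y) {z : W.H (Y.prod Y)} (hz : z ∈ algSpan W (Y.prod Y))
    (hz' : z ∈ transcendental W (Y.prod Y)) : IsNilpotent (W.corr z : Module.End W.K (W.H Y)) := by
  have h1 : opL W Y Y (W.map (swap Y Y) z) = W.corr z := by
    rw [opL_apply, swap_swap]
  have h2 := (h _ (map_algSpan (swap Y Y) hz)).1 (map_transcendental (swap Y Y) hz')
  rw [h1] at h2
  have hfC : W.corr z ∈ CC W Y Y := map_corr_mem hz
  have hpow : ∀ r : ℕ, ((W.corr z : Module.End W.K (W.H Y)) ^ r) ∈ CC W Y Y := by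
    intro r
    induction r with
    | zero => exact isCat_CC.id_mem Y
    | succ r ih => rw [pow_succ]; exact isCat_CC.comp_mem ih hfC
  apply isNilpotent_of_trace_pow
  intro r
  rw [pow_succ]
  exact h2 _ (hpow r)

lemma Full.numNilpotent (h : Full W X) : NumNilpotent W X := by
  intro n z hz hz'
  have hz'' : z ∈ transcendental W ((pw X n).prod (pw X n)) := mem_transcendental.2 hz'
  apply isNilpotent_of_baseChange (AlgebraicClosure W.K)
  have h1 : Good (baseW W (AlgebraicClosure W.K)) (pw X n) (pw X n) :=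
    h.good ⟨n, ⟨Iso.refl _⟩⟩ ⟨n, ⟨Iso.refl _⟩⟩
  have h2 := nilpotent_of_good h1 (one_tmul_algSpan (AlgebraicClosure W.K) hz)
    (one_tmul_transcendental (AlgebraicClosure W.K) hz'')
  exact (corr_base (AlgebraicClosure W.K) z) ▸ h2

/-- A finite index implies that numerically trivial correspondences are nilpotent. -/
theorem IsIndex.numNilpotent [Nontrivial (W.H X)]
    {G : ∀ n, Submodule W.K (W.H (pw X n))} (hA : ∀ n, algSpan W (pw X n) ≤ G n) {N : ℕ∞}
    (hN : IsIndex W X G N) (hN' : N ≠ ⊤) : NumNilpotent W X := by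
  obtain ⟨z, hz, hz1⟩ := exists_pt_of_finite hA hN hN'
  rcases full_or_infinite hz hz1 with h | h
  · exact h.numNilpotent
  · exfalso
    obtain ⟨n, rfl⟩ := ENat.ne_top_iff_exists.1 hN'
    exact not_tendsto_nhds_of_tendsto_atTop (h G hA) _ (hN.real hz hz1)

lemma genSys_le_genBy {r : ℕ} (c : Fin r → Σ n, W.H (pw X n)) (n : ℕ) :
    genSys W X c n ≤ genBy W X c n := by
  apply sup_le
  · exact le_sup_left
  · apply iSup_le
    rintro i _ ⟨f, hf, rfl⟩
    obtain ⟨z, hz, rfl⟩ := exists_corr_eq hf
    rw [LinearMap.applyₗ_apply_apply]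
    apply Submodule.mem_sup_right
    induction hz using Submodule.span_induction with
    | mem x hx =>
      obtain ⟨j, z, hz, rfl⟩ := Set.mem_iUnion.1 hx
      refine Submodule.subset_span (Set.mem_iUnion.2 ⟨i, j, _, ⟨z, hz, rfl⟩, ?_⟩)
      rw [corr_apply]
    | zero => rw [corr_zero]; exact Submodule.zero_mem _
    | add x y hx' hy' hx hy =>
      rw [corr_add]
      exact Submodule.add_mem _ (hx (map_corr_mem hx')) (hy (map_corr_mem hy'))
    | smul r x hx' hx =>
      rw [corr_smul]
      exact Submodule.smul_mem _ _ (hx (map_corr_mem hx'))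

end Pool.Agent.Y129
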