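import Mathlib

/-!
# Gram matrices of signed permutation representations
-/

open Module LinearMap Finset

namespace Pool.Agent.Y129

section RankMap

/-- The rank of a matrix does not change under field extensions. -/
lemma rank_map_field {F L : Type*} [Field F] [Field L] (f : F →+* L) {m : Type*} [Fintype m]
    [DecidableEq m] (M : Matrix m m F) : (M.map f).rank = M.rank := by
  classical
  obtain ⟨V, U, e, hV, hU, h⟩ := M.exists_rank_normal_form
  set w : m → F := fun i => Sum.elim (fun _ => 1) (fun _ => 0) (e i) with hw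
  have h1 : V * M * U = Matrix.diagonal w := by
    rw [h]
    ext i j
    rw [Matrix.submatrix_apply, Matrix.diagonal_apply]
    by_cases hij : i = j
    · subst hij
      rw [if_pos rfl, hw]
      simp only
      rcases e i with a | a <;> simp
    · rw [if_neg hij]
      have hne : e i ≠ e j := fun h' => hij (e.injective h')
      rcases hi : e i with a | a <;> rcases hj : e j with b | b
      · rw [hi, hj] at hne
        simp only [Matrix.fromBlocks_apply₁₁]
        exact Matrix.one_apply_ne (fun h' => hne (by rw [h']))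
      all_goals simp
  have hVm : IsUnit (V.map f) := by
    have := hV.map (RingHom.mapMatrix (m := m) f)
    exact this
  have hUm : IsUnit (U.map f) := by
    have := hU.map (RingHom.mapMatrix (m := m) f)
    exact this
  have h2 : V.map f * M.map f * U.map f = Matrix.diagonal (fun i => f (w i)) := by
    have := congrArg (RingHom.mapMatrix (m := m) f) h1
    rw [map_mul, map_mul] at this
    refine this.trans ?_
    rw [RingHom.mapMatrix_apply, Matrix.diagonal_map (map_zero f)]
  have h3 : M.rank = (Matrix.diagonal w).rank := by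
    rw [← h1, Matrix.rank_mul_eq_left_of_isUnit_det U _ ((Matrix.isUnit_iff_isUnit_det _).1 hU),
      Matrix.rank_mul_eq_right_of_isUnit_det V _ ((Matrix.isUnit_iff_isUnit_det _).1 hV)]
  have h4 : (M.map f).rank = (Matrix.diagonal (fun i => f (w i))).rank := by
    rw [← h2, Matrix.rank_mul_eq_left_of_isUnit_det (U.map f) _
      ((Matrix.isUnit_iff_isUnit_det _).1 hUm),
      Matrix.rank_mul_eq_right_of_isUnit_det (V.map f) _
        ((Matrix.isUnit_iff_isUnit_det _).1 hVm)]
  rw [h3, h4, Matrix.rank_diagonal, Matrix.rank_diagonal]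
  apply Fintype.card_congr
  apply Equiv.subtypeEquivRight
  intro i
  rw [ne_eq, ne_eq, map_eq_zero]

/-- For a symmetric real matrix, the square of the trace is at most the rank times the trace of the
square. -/
lemma sq_trace_le {m : Type*} [Fintype m] [DecidableEq m] (A : Matrix m m ℝ)
    (hA : A.IsHermitian) : A.trace ^ 2 ≤ A.rank * (A * A).trace := by
  have h1 : A.trace = ∑ i, hA.eigenvalues i := hA.trace_eq_sum_eigenvalues
  have h2 : (A * A).trace = ∑ i, hA.eigenvalues i ^ 2 := by
    have h3 := hA.spectral_theorem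
    have h4 : A * A = Unitary.conjStarAlgAut ℝ _ hA.eigenvectorUnitary
        (Matrix.diagonal (RCLike.ofReal ∘ hA.eigenvalues) *
          Matrix.diagonal (RCLike.ofReal ∘ hA.eigenvalues)) := by
      rw [map_mul]
      rw [← h3]
    rw [h4, Unitary.conjStarAlgAut_apply, Matrix.trace_mul_comm, ← mul_assoc,
      Unitary.coe_star_mul_self, one_mul, Matrix.diagonal_mul_diagonal, Matrix.trace_diagonal]
    apply Finset.sum_congr rfl
    intro i _
    simp [sq]
  rw [h1, h2, hA.rank_eq_card_non_zero_eigs, Fintype.card_subtype]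
  have h5 : ∑ i, hA.eigenvalues i =
      ∑ i ∈ univ.filter (fun i => hA.eigenvalues i ≠ 0), hA.eigenvalues i := by
    rw [Finset.sum_filter_ne_zero]
  have h6 : ∑ i, hA.eigenvalues i ^ 2 =
      ∑ i ∈ univ.filter (fun i => hA.eigenvalues i ≠ 0), hA.eigenvalues i ^ 2 := by
    rw [Finset.sum_filter]
    apply Finset.sum_congr rfl
    intro i _
    split_ifs with h
    · rfl
    · push Not at h
      rw [h]; ring
  rw [h5, h6]
  exact sq_sum_le_card_mul_sum_sq

end RankMap

section Signed

variable {G : Type} [Group G] [Fintype G] {Ω : Type} [Fintype Ω] [DecidableEq Ω]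
  [MulAction G Ω] {K : Type*} [Field K] [CharZero K] {V : Type*} [AddCommGroup V] [Module K V]
  (e : Basis Ω K V) (T : G →* Module.End K V) (s : G → Ω → ℤ)

/-- The trace of the operator of `g`. -/
def signTrace (s : G → Ω → ℤ) (g : G) : ℤ := ∑ x, if g • x = x then s g x else 0

omit [CharZero K] [Fintype G] in
lemma trace_signed (hT : ∀ g x, T g (e x) = ((s g x : ℤ) : K) • e (g • x)) (g : G) :
    LinearMap.trace K V (T g) = (signTrace s g : K) := by
  rw [LinearMap.trace_eq_matrix_trace K e, Matrix.trace, signTrace]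
  push_cast
  apply Finset.sum_congr rfl
  intro x _
  rw [Matrix.diag_apply, LinearMap.toMatrix_apply, hT, map_smul, Finsupp.smul_apply,
    Basis.repr_self, Finsupp.single_apply]
  split_ifs <;> simp

omit [Fintype G] [Fintype Ω] [DecidableEq Ω] in
lemma sign_inv (hT : ∀ g x, T g (e x) = ((s g x : ℤ) : K) • e (g • x))
    (hs : ∀ g x, s g x = 1 ∨ s g x = -1) (g : G) (x : Ω) (hx : g • x = x) :
    s g⁻¹ x = s g x := by
  have h1 : T g⁻¹ (T g (e x)) = e x := by
    rw [← Module.End.mul_apply, ← map_mul, inv_mul_cancel, map_one]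
    rfl
  rw [hT, hx, map_smul, hT, smul_smul] at h1
  have hx' : g⁻¹ • x = x := by
    conv_lhs => rw [← hx]
    rw [inv_smul_smul]
  rw [hx'] at h1
  have h2 := congrArg (fun v => e.repr v x) h1
  simp only [map_smul, Finsupp.smul_apply, Basis.repr_self, Finsupp.single_eq_same,
    smul_eq_mul, mul_one] at h2
  have h3 : s g x * s g⁻¹ x = 1 := by exact_mod_cast h2
  rcases hs g x with h | h <;> rcases hs g⁻¹ x with h' | h' <;> rw [h, h'] at h3 ⊢ <;> omega

omit [Fintype G] in
lemma signTrace_inv (hT : ∀ g x, T g (e x) = ((s g x : ℤ) : K) • e (g • x))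
    (hs : ∀ g x, s g x = 1 ∨ s g x = -1) (g : G) :
    signTrace s g⁻¹ = signTrace s g := by
  rw [signTrace, signTrace]
  apply Finset.sum_congr rfl
  intro x _
  have h1 : (g⁻¹ • x = x) ↔ (g • x = x) := by
    rw [inv_smul_eq_iff, eq_comm]
  by_cases h : g • x = x
  · rw [if_pos h, if_pos (h1.2 h), sign_inv e T s hT hs g x h]
  · rw [if_neg h, if_neg (fun h' => h (h1.1 h'))]

omit [Fintype G] in
lemma abs_signTrace_le (hs : ∀ g x, s g x = 1 ∨ s g x = -1) (g : G) :
    |signTrace s g| ≤ Fintype.card (MulAction.fixedBy Ω g) := by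
  rw [signTrace]
  refine (Finset.abs_sum_le_sum_abs _ _).trans ?_
  have h1 : ∀ x, |if g • x = x then s g x else 0| = if g • x = x then 1 else 0 := by
    intro x
    split_ifs
    · rcases hs g x with h | h <;> rw [h] <;> rfl
    · rfl
  simp only [h1]
  rw [Finset.sum_boole, Fintype.card_subtype]
  rfl

/-- The Gram matrix. -/
def gramM (s : G → Ω → ℤ) : Matrix G G ℤ := Matrix.of fun g h => signTrace s (g * h⁻¹)

/-- **The growth estimate**: the rank of the Gram matrix of a signed permutation representation. -/
theorem card_sq_le [DecidableEq G] (hT : ∀ g x, T g (e x) = ((s g x : ℤ) : K) • e (g • x))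
    (hs : ∀ g x, s g x = 1 ∨ s g x = -1)
    [Fintype (MulAction.orbitRel.Quotient G (Ω × Ω))] :
    Fintype.card Ω ^ 2 ≤ ((gramM s).map (Int.castRingHom K)).rank *
      Fintype.card (MulAction.orbitRel.Quotient G (Ω × Ω)) := by
  classical
  have hsymm := signTrace_inv e T s hT hs
  -- compare the ranks
  have hr : ((gramM s).map (Int.castRingHom K)).rank =
      ((gramM s).map (Int.castRingHom ℝ)).rank := by
    have e1 : (gramM s).map (Int.castRingHom K) =
        ((gramM s).map (Int.castRingHom ℚ)).map (Rat.castHom K) := by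
      ext i j
      simp
    have e2 : (gramM s).map (Int.castRingHom ℝ) =
        ((gramM s).map (Int.castRingHom ℚ)).map (Rat.castHom ℝ) := by
      ext i j
      simp
    rw [e1, e2, rank_map_field, rank_map_field]
  set A : Matrix G G ℝ := (gramM s).map (Int.castRingHom ℝ) with hA
  have hAH : A.IsHermitian := by
    ext g h
    rw [Matrix.conjTranspose_apply, hA, Matrix.map_apply, Matrix.map_apply, gramM,
      Matrix.of_apply, Matrix.of_apply, ← hsymm (g * h⁻¹), mul_inv_rev, inv_inv]
    simp
  have h1 := sq_trace_le A hAH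
  have h2 : A.trace = (Fintype.card G : ℝ) * Fintype.card Ω := by
    rw [Matrix.trace]
    have : ∀ g, A.diag g = Fintype.card Ω := by
      intro g
      have hone : signTrace s (1 : G) = Fintype.card Ω := by
        rw [signTrace]
        have hs1 : ∀ x, s 1 x = 1 := by
          intro x
          have := hT 1 x
          rw [map_one, one_smul, Module.End.one_apply] at this
          have h3 := congrArg (fun v => e.repr v x) this
          simp only [map_smul, Finsupp.smul_apply, Basis.repr_self, Finsupp.single_eq_same,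
            smul_eq_mul, mul_one] at h3
          exact_mod_cast h3.symm
        simp [hs1]
      rw [Matrix.diag_apply, hA, Matrix.map_apply, gramM, Matrix.of_apply, mul_inv_cancel, hone]
      simp
    rw [Finset.sum_congr rfl (fun g _ => this g)]
    simp
  have h3 : (A * A).trace = (Fintype.card G : ℝ) * ∑ g, (signTrace s g : ℝ) ^ 2 := by
    rw [Matrix.trace]
    have : ∀ g, (A * A).diag g = ∑ g, (signTrace s g : ℝ) ^ 2 := by
      intro g
      rw [Matrix.diag_apply, Matrix.mul_apply]
      have e1 : ∀ h, A g h * A h g = (signTrace s (g * h⁻¹) : ℝ) ^ 2 := by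
        intro h
        have e2 : signTrace s (h * g⁻¹) = signTrace s (g * h⁻¹) := by
          rw [← hsymm (g * h⁻¹), mul_inv_rev, inv_inv]
        rw [hA, Matrix.map_apply, Matrix.map_apply, gramM, Matrix.of_apply, Matrix.of_apply, e2,
          sq]
        simp
      rw [Finset.sum_congr rfl (fun h _ => e1 h)]
      exact Fintype.sum_equiv ((Equiv.inv G).trans (Equiv.mulLeft g)) _ _ (fun h => rfl)
    rw [Finset.sum_congr rfl (fun g _ => this g)]
    simp
  have h4 : ∑ g, (signTrace s g : ℝ) ^ 2 ≤
      Fintype.card (MulAction.orbitRel.Quotient G (Ω × Ω)) * Fintype.card G := by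
    have h5 := MulAction.sum_card_fixedBy_eq_card_orbits_mul_card_group G (Ω × Ω)
    have h6 : ((∑ g : G, Fintype.card (MulAction.fixedBy (Ω × Ω) g) : ℕ) : ℝ) =
        (Fintype.card (MulAction.orbitRel.Quotient G (Ω × Ω)) : ℝ) * Fintype.card G := by
      rw [h5]; push_cast; rfl
    rw [← h6]
    push_cast
    apply Finset.sum_le_sum
    intro g _
    have h7 : Fintype.card (MulAction.fixedBy (Ω × Ω) g) =
        Fintype.card (MulAction.fixedBy Ω g) ^ 2 := by
      rw [sq, ← Fintype.card_prod]
      apply Fintype.card_congr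
      refine ⟨fun p => (⟨p.1.1, congrArg Prod.fst p.2⟩, ⟨p.1.2, congrArg Prod.snd p.2⟩),
        fun p => ⟨(p.1.1, p.2.1), Prod.ext p.1.2 p.2.2⟩, fun p => rfl, fun p => rfl⟩
    rw [h7]
    have h8 := abs_signTrace_le s hs g
    have h9 : |(signTrace s g : ℝ)| ≤ Fintype.card (MulAction.fixedBy Ω g) := by
      exact_mod_cast h8
    rw [← sq_abs]
    push_cast
    exact pow_le_pow_left₀ (abs_nonneg _) h9 2
  rw [h2, h3] at h1
  have hG : (0 : ℝ) < Fintype.card G := by exact_mod_cast Fintype.card_pos
  have h5 : ((Fintype.card G : ℝ) * Fintype.card Ω) ^ 2 ≤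
      A.rank * (Fintype.card G * (Fintype.card (MulAction.orbitRel.Quotient G (Ω × Ω)) *
        Fintype.card G)) :=
    h1.trans (mul_le_mul_of_nonneg_left (mul_le_mul_of_nonneg_left h4 hG.le)
      (Nat.cast_nonneg _))
  have h6 : (Fintype.card Ω : ℝ) ^ 2 ≤ A.rank *
      Fintype.card (MulAction.orbitRel.Quotient G (Ω × Ω)) := by
    have h7 : (Fintype.card G : ℝ) ^ 2 * (Fintype.card Ω : ℝ) ^ 2 ≤
        (Fintype.card G : ℝ) ^ 2 * (A.rank *
          Fintype.card (MulAction.orbitRel.Quotient G (Ω × Ω))) := by
      nlinarith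
    exact le_of_mul_le_mul_left h7 (by positivity)
  rw [hr]
  exact_mod_cast h6

omit [CharZero K] in
/-- The rank of the Gram matrix is at most the dimension of a space of operators which contains the
representation, modulo the trace form. -/
theorem rank_gram_le [DecidableEq G] [Module.Finite K V]
    (hT : ∀ g x, T g (e x) = ((s g x : ℤ) : K) • e (g • x))
    (S P : Submodule K (Module.End K V)) (hTS : ∀ g, T g ∈ S)
    (hP : ∀ f ∈ P, ∀ g ∈ S, LinearMap.trace K V (g ∘ₗ f) = 0) :
    ((gramM s).map (Int.castRingHom K)).rank ≤ finrank K (S.map P.mkQ) := by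
  classical
  -- the two linear maps
  let v : Module.End K V →ₗ[K] (G → K) :=
    LinearMap.pi fun g => LinearMap.trace K V ∘ₗ LinearMap.mulLeft K (T g)
  have hv : P ≤ LinearMap.ker v := by
    intro f hf
    rw [LinearMap.mem_ker]
    funext g
    exact hP f hf (T g) (hTS g)
  let u : (G → K) →ₗ[K] Module.End K V := Fintype.linearCombination K (fun h => T h⁻¹)
  have hu : ∀ c, u c ∈ S := by
    intro c
    rw [Fintype.linearCombination_apply]
    exact Submodule.sum_mem _ (fun h _ => Submodule.smul_mem _ _ (hTS _))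
  have h1 : ((gramM s).map (Int.castRingHom K)).mulVecLin = (P.liftQ v hv) ∘ₗ P.mkQ ∘ₗ u := by
    apply LinearMap.ext
    intro c
    funext g
    rw [LinearMap.comp_apply, LinearMap.comp_apply, Submodule.mkQ_apply, Submodule.liftQ_apply,
      Matrix.mulVecLin_apply, Matrix.mulVec, dotProduct, Fintype.linearCombination_apply]
    change _ = LinearMap.trace K V (T g * ∑ i, c i • T i⁻¹)
    rw [Finset.mul_sum, map_sum]
    apply Finset.sum_congr rfl
    intro h _
    rw [mul_smul_comm, map_smul, ← map_mul, trace_signed e T s hT, Matrix.map_apply, gramM,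
      Matrix.of_apply, smul_eq_mul, mul_comm]
    rfl
  rw [Matrix.rank, h1, LinearMap.range_comp]
  refine (Submodule.finrank_map_le _ _).trans ?_
  apply Submodule.finrank_mono
  rintro _ ⟨c, rfl⟩
  exact ⟨u c, hu c, rfl⟩

end Signed

section Orbits

variable {ι : Type} [Fintype ι] [DecidableEq ι]

/-- The action of permutations on words. -/
abbrev wordAct (k : ℕ) (ι : Type) : MulAction (Equiv.Perm (Fin k)) (Fin k → ι) where
  smul σ x := fun i => x (σ⁻¹ i)
  one_smul x := rfl
  mul_smul σ τ x := by
    funext i
    change x ((σ * τ)⁻¹ i) = x (τ⁻¹ (σ⁻¹ i))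
    rw [mul_inv_rev]
    rfl

attribute [local instance] wordAct

omit [Fintype ι] in
/-- Words with the same numbers of letters differ by a permutation. -/
lemma exists_perm {k : ℕ} (z z' : Fin k → ι)
    (h : ∀ c, (univ.filter (fun i => z i = c)).card = (univ.filter (fun i => z' i = c)).card) :
    ∃ σ : Equiv.Perm (Fin k), ∀ i, z' (σ i) = z i := by
  have h1 : ∀ c, Nonempty ({i // z i = c} ≃ {i // z' i = c}) := by
    intro c
    rw [← Fintype.card_eq, Fintype.card_subtype, Fintype.card_subtype]
    exact h c
  let σ : Equiv.Perm (Fin k) := (Equiv.sigmaFiberEquiv z).symm.trans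
    ((Equiv.sigmaCongrRight (fun c => (h1 c).some)).trans (Equiv.sigmaFiberEquiv z'))
  exact ⟨σ, fun i => ((h1 (z i)).some ⟨i, rfl⟩).2⟩

/-- The number of orbits on pairs of words. -/
lemma card_orbits_le (k : ℕ) [Fintype (MulAction.orbitRel.Quotient (Equiv.Perm (Fin k))
    ((Fin k → ι) × (Fin k → ι)))] :
    Fintype.card (MulAction.orbitRel.Quotient (Equiv.Perm (Fin k))
      ((Fin k → ι) × (Fin k → ι))) ≤ (k + 1) ^ (Fintype.card ι ^ 2) := by
  classical
  let cnt : (Fin k → ι) × (Fin k → ι) → ι × ι → Fin (k + 1) := fun p c =>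
    ⟨(univ.filter (fun i => (p.1 i, p.2 i) = c)).card, by
      have := Finset.card_le_univ (univ.filter (fun i => (p.1 i, p.2 i) = c))
      rw [Fintype.card_fin] at this
      omega⟩
  have hinj : Function.Injective (fun q : MulAction.orbitRel.Quotient (Equiv.Perm (Fin k))
      ((Fin k → ι) × (Fin k → ι)) => cnt (Quotient.out q)) := by
    intro q q' hqq
    rw [← Quotient.out_eq q, ← Quotient.out_eq q']
    apply Quotient.sound
    set p := Quotient.out q with hp
    set p' := Quotient.out q' with hp'
    have h1 : ∀ c, (univ.filter (fun i => (p'.1 i, p'.2 i) = c)).card =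
        (univ.filter (fun i => (p.1 i, p.2 i) = c)).card := by
      intro c
      have h2 := congrArg Fin.val (congrFun hqq c)
      exact h2.symm
    obtain ⟨σ, hσ⟩ := exists_perm (fun i => (p'.1 i, p'.2 i)) (fun i => (p.1 i, p.2 i)) h1
    refine ⟨σ, ?_⟩
    apply Prod.ext
    · funext j
      change p'.1 (σ⁻¹ j) = p.1 j
      have := congrArg Prod.fst (hσ (σ⁻¹ j))
      simp only at this
      rw [← this]
      exact congrArg _ (σ.apply_symm_apply j)
    · funext j
      change p'.2 (σ⁻¹ j) = p.2 j
      have := congrArg Prod.snd (hσ (σ⁻¹ j))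
      simp only at this
      rw [← this]
      exact congrArg _ (σ.apply_symm_apply j)
  refine (Fintype.card_le_of_injective _ hinj).trans ?_
  rw [Fintype.card_fun, Fintype.card_prod, Fintype.card_fin, sq]

end Orbits

end Pool.Agent.Y129
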