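import Pool.Agent.Y129.Rank
import Pool.Agent.TH125.Gal.Dec

/-!
# The ratio law for systems of classes on the powers of a variety
-/

open CategoryTheory AlgebraicGeometry Finset Filter Topology TensorProduct

universe u v

namespace Pool.Agent.Y129

open Pool.Agent.H914 Pool.Agent.H914.VarClass Pool.Agent.H914.VarClass.Obj
  Pool.Agent.H914.WeilCohomology Pool.Agent.H281R3.HT

variable {k : Type u} [Field k] {𝒱 : VarClass k} {ops : CycleOps 𝒱}
  {W : WeilCohomology.{u, v} ops} {X Y Z : 𝒱.Obj}

/-! ### The hypotheses -/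

lemma homEqNum_algSpan (h : HomEqNum W X) {c : W.H X} (hc : c ∈ algSpan W X)
    (hc' : c ∈ transcendental W X) : c = 0 := by
  have h1 := (Pool.Agent.TH125.Gal.isCompl h).disjoint
  rw [Submodule.disjoint_def] at h1
  exact h1 c hc hc'

lemma tr_mul_cl_eq {j l : ℕ} {z w : X.Cycles} (hz : X.IsCyc j z) (hw : X.IsCyc l w)
    (hjl : j + l ≠ X.dim) : W.tr X (W.cl X z * W.cl X w) = 0 :=
  W.tr_eq_zero (W.mul_mem (W.cl_mem hz) (W.cl_mem hw)) (by omega)

/-- The conjecture D in terms of linear combinations of algebraic classes. -/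
lemma homEqNum_of_algSpan (h : ∀ c ∈ algSpan W X, c ∈ transcendental W X → c = 0) :
    HomEqNum W X := by
  intro j hj z hz hnum
  apply h _ (Submodule.subset_span (Set.mem_iUnion.2 ⟨j, z, hz, rfl⟩))
  rw [mem_transcendental]
  intro d hd
  induction hd using Submodule.span_induction with
  | mem x hx =>
    obtain ⟨l, w, hw, rfl⟩ := Set.mem_iUnion.1 hx
    rw [W.even_comm (W.cl_mem hw)]
    by_cases hjl : j + l = X.dim
    · obtain rfl : l = X.dim - j := by omega
      rw [Pool.Agent.W534.tr_mul_cl' hz hw hjl, hnum w hw]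
      simp
    · exact tr_mul_cl_eq hz hw hjl
  | zero => rw [zero_mul, map_zero]
  | add x y _ _ hx hy => rw [add_mul, map_add, hx, hy, add_zero]
  | smul r x _ hx => rw [smul_mul_assoc, map_smul, hx, smul_zero]

lemma prod_iso_pw {Y Z : 𝒱.Obj} {a c : ℕ} (i : Y ≅ pw X a) (j : Z ≅ pw X c) :
    Nonempty (Y.prod Z ≅ pw X (a + c + 1)) := by
  obtain ⟨e⟩ := pw_iso X a c (a + c + 1) rfl
  exact ⟨(prodIso i j).trans e⟩

/-- The powers of `X`, if homological and numerical equivalence agree on them. -/
lemma goodSet_D (h : ∀ n, HomEqNum W (pw X n)) :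
    GoodSet W {Y | ∃ n, Nonempty (Y ≅ pw X n)} where
  prod_mem := by
    rintro Y Z ⟨a, ⟨i⟩⟩ ⟨c, ⟨j⟩⟩
    exact ⟨_, prod_iso_pw i j⟩
  good := by
    rintro Y Z ⟨a, ⟨i⟩⟩ ⟨c, ⟨j⟩⟩ d hd
    apply mem_transcendental_iff' _ hd
    intro e he he'
    obtain ⟨f⟩ := prod_iso_pw i j
    have h1 := homEqNum_algSpan (h _) (map_algSpan f.inv he) (map_transcendental f.inv he')
    have h2 : W.map f.hom (W.map f.inv e) = e := by
      rw [← W.map_comp, f.hom_inv_id, W.map_id]
    rw [← h2, h1, map_zero]

/-! ### Algebraically closed coefficient fields -/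

/-- The correspondences between the powers of `X`. -/
noncomputable def CP (W : WeilCohomology.{u, v} ops) (X : 𝒱.Obj) (m n : ℕ) :
    Submodule W.K (W.H (pw X m) →ₗ[W.K] W.H (pw X n)) :=
  CC W (pw X m) (pw X n)

/-- The powers of `X` satisfy the formal properties used in the asymptotic argument. -/
theorem isPowers [IsAlgClosed W.K] [Nontrivial (W.H X)] {S : Set 𝒱.Obj} (hS : GoodSet W S)
    (hX : X ∈ S) : IsPowers (H := fun n => W.H (pw X n)) (CP W X)
      (fun n => numRank W (pw X n)) (Module.finrank W.K (W.H X)) where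
  cat := ⟨fun n => isCat_CC.id_mem (pw X n), fun hg hf => isCat_CC.comp_mem hg hf⟩
  b_pos := Module.finrank_pos
  finrank_eq m := finrank_pw X m
  nd_eq m n := by
    have h1 := nd_CC (hS.good (hS.pw_mem hX n) (hS.pw_mem hX m))
    rw [numRank_pw X n m (m + n + 1) (by ring)] at h1
    exact h1
  nd_le m p ε hε hε' := by
    obtain ⟨i⟩ := pw_iso X p p (2 * p + 1) (by ring)
    exact nd_sand_le hS (hS.pw_mem hX p) (hS.pw_mem hX m) (hS.pw_mem hX _) i.symm hε hε'
  nd_le' m p ε hε hε' := by
    obtain ⟨i⟩ := pw_iso X p p (2 * p + 1) (by ring)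
    exact nd_sand_le' hS (hS.pw_mem hX p) (hS.pw_mem hX m) hX (hS.pw_mem hX (2 * p + 1))
      i.symm hε hε'
  grow n := numRank_grow hS hX n
  retract := by
    have h := exists_retract (W := W) (X := X) (hS.good hX hX)
    exact h

/-- A system of subspaces of the cohomology of the powers of `X` which is stable under algebraic
correspondences. -/
def StableSystem (W : WeilCohomology.{u, v} ops) (X : 𝒱.Obj)
    (G : ∀ n, Submodule W.K (W.H (pw X n))) : Prop :=
  ∀ m n, ∀ f ∈ CC W (pw X m) (pw X n), ∀ a ∈ G m, f a ∈ G n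

/-- The ratio law for algebraically closed coefficient fields. -/
theorem ratio_law_closed [IsAlgClosed W.K] [Nontrivial (W.H X)] {S : Set 𝒱.Obj}
    (hS : GoodSet W S) (hXS : X ∈ S)
    {G : ∀ n, Submodule W.K (W.H (pw X n))} (hG : StableSystem W X G) :
    (∃ N : ℕ, (∀ n, Module.finrank W.K (G (2 * n + 1)) ≤ N * numRank W (pw X (2 * n + 1))) ∧
      Tendsto (fun n => (Module.finrank W.K (G n) : ℝ) / numRank W (pw X n)) atTop
        (𝓝 (N : ℝ))) ∨
    Tendsto (fun n => (Module.finrank W.K (G n) : ℝ) / numRank W (pw X n)) atTop atTop :=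
  (isPowers hS hXS).law (𝒢 := G) hG

/-! ### Extension of the coefficients -/

section Base

variable (L : Type v) [Field L] [Algebra W.K L]

lemma CC.base {F : W.H X →ₗ[W.K] W.H Y} (hF : F ∈ CC W X Y) :
    (F.baseChange L : L ⊗[W.K] W.H X →ₗ[L] L ⊗[W.K] W.H Y) ∈ CC (baseW W L) X Y := by
  refine Submodule.iSup_induction (fun d : ℤ => KOp W X Y d)
    (motive := fun F => (F.baseChange L : L ⊗[W.K] W.H X →ₗ[L] L ⊗[W.K] W.H Y) ∈
      CC (baseW W L) X Y) hF ?_ ?_ ?_
  · intro d f hf
    exact KOp.le_CC (W := baseW W L) d (KOp.base hf)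
  · rw [LinearMap.baseChange_zero]
    exact Submodule.zero_mem _
  · intro f g hf hg
    rw [LinearMap.baseChange_add]
    exact Submodule.add_mem _ hf hg

lemma pa_base : pa (baseW W L) X = (pa W X).baseChange L := by
  apply LinearMap.ext
  intro x
  refine gr_induction ((baseW W L).isInternal X) (p := fun x => pa (baseW W L) X x =
    (pa W X).baseChange L x) ?_ ?_ x
  · intro i a ha
    rw [pa_apply ha]
    have ha' : a ∈ (W.gr X i).baseChange L := ha
    refine base_induction (P := fun a : L ⊗[W.K] W.H X => ((-1 : L) ^ i) • a =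
      (pa W X).baseChange L a) ?_ ?_ ?_ ha'
    · rw [smul_zero, map_zero]
    · intro x y hx hy
      rw [smul_add, hx, hy, map_add]
    · intro l a ha
      rw [LinearMap.baseChange_tmul, pa_apply ha, TensorProduct.tmul_smul,
        TensorProduct.smul_tmul', TensorProduct.smul_tmul']
      congr 1
      rw [Algebra.smul_def ((-1 : W.K) ^ i) l, map_pow, map_neg, map_one, smul_eq_mul]
  · intro a b ha hb
    have h1 : pa (baseW W L) X (a + b) = pa (baseW W L) X a + pa (baseW W L) X b :=
      map_add _ _ _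
    refine h1.trans ?_
    rw [ha, hb]
    exact (map_add ((pa W X).baseChange L) a b).symm

lemma homEqNum_base' (h : HomEqNum W X) : HomEqNum (baseW W L) X := fun j hj z hz hnum => by
  have h1 := h j hj z hz hnum
  have h2 : (baseW W L).cl X z = (1 : L) ⊗ₜ[W.K] (W.cl X z) := rfl
  rw [h2, h1, TensorProduct.tmul_zero]
  rfl

lemma numRank_base : numRank (baseW W L) X = numRank W X := by
  rw [numRank_eq_sum, numRank_eq_sum]

lemma StableSystem.base {G : ∀ n, Submodule W.K (W.H (pw X n))} (hG : StableSystem W X G) :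
    StableSystem (baseW W L) X (fun n => (G n).baseChange L) := by
  intro m n f hf a ha
  refine Submodule.iSup_induction (fun d : ℤ => KOp (baseW W L) (pw X m) (pw X n) d)
    (motive := fun f => f a ∈ (G n).baseChange L) hf ?_ ?_ ?_
  · intro d f hf
    induction hf using Submodule.span_induction with
    | mem f hf =>
      obtain ⟨p, hp, z, hz, rfl⟩ := hf
      have h1 : (baseW W L).corr ((baseW W L).cl _ z) = (W.corr (W.cl _ z)).baseChange L :=
        corrOp_base (L := L) (W.map (fst (pw X m) (pw X n)))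
          (W.push (snd (pw X m) (pw X n))) (W.cl _ z)
      have h2 : W.corr (W.cl _ z) ∈ CC W (pw X m) (pw X n) := KOp.le_CC d (KOp.gen hp hz)
      rw [h1]
      have ha' : a ∈ (G m).baseChange L := ha
      refine base_induction (P := fun a : L ⊗[W.K] W.H (pw X m) =>
        (W.corr (W.cl _ z)).baseChange L a ∈ (G n).baseChange L) ?_ ?_ ?_ ha'
      · rw [map_zero]; exact Submodule.zero_mem _
      · intro x y hx hy
        rw [map_add]; exact Submodule.add_mem _ hx hy
      · intro l a ha
        rw [LinearMap.baseChange_tmul]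
        exact Submodule.tmul_mem_baseChange_of_mem _ (hG m n _ h2 a ha)
    | zero => exact Submodule.zero_mem _
    | add x y _ _ hx hy => exact Submodule.add_mem _ hx hy
    | smul r x _ hx => exact Submodule.smul_mem _ _ hx
  · exact Submodule.zero_mem _
  · intro f g hf hg
    exact Submodule.add_mem _ hf hg

end Base

lemma finrank_baseChange {K : Type*} [Field K] {V : Type*} [AddCommGroup V] [Module K V]
    (L : Type*) [Field L] [Algebra K L] (G : Submodule K V) :
    Module.finrank L (G.baseChange L) = Module.finrank K G := by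
  have h1 : Function.Injective (G.subtype.baseChange L) :=
    Module.Flat.lTensor_preserves_injective_linearMap (M := L) G.subtype
      (Submodule.injective_subtype G)
  have h2 : G.baseChange L = LinearMap.range (G.subtype.baseChange L) := rfl
  rw [h2, LinearMap.finrank_range_of_inj h1, Module.finrank_baseChange]

end Pool.Agent.Y129
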