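import Mathlib

/-!
# Finite-dimensional algebras of operators over algebraically closed fields
-/

open Module LinearMap

namespace Pool.Agent.Y129

section Trace

variable {K : Type*} [Field K] {M : Type*} [AddCommGroup M] [Module K M] [Module.Finite K M]

/-- The trace of an idempotent is its rank. -/
lemma trace_idem {f : Module.End K M} (hf : IsIdempotentElem f) :
    LinearMap.trace K M f = (finrank K (range f) : K) :=
  hf.isProj_range.trace

omit [Module.Finite K M] in
/-- The trace of a nilpotent operator vanishes. -/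
lemma trace_nil {f : Module.End K M} (hf : IsNilpotent f) : LinearMap.trace K M f = 0 :=
  (isNilpotent_trace_of_isNilpotent hf).eq_zero

/-- A functional on matrices which vanishes on commutators is a multiple of the trace. -/
lemma eq_smul_trace {n : ℕ} [NeZero n] (f : Matrix (Fin n) (Fin n) K →ₗ[K] K)
    (hf : ∀ a b, f (a * b) = f (b * a)) (a : Matrix (Fin n) (Fin n) K) :
    f a = f (Matrix.single 0 0 1) * a.trace := by
  have h1 : ∀ i j, f (Matrix.single i j 1) = if i = j then f (Matrix.single 0 0 1) else 0 := by
    intro i j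
    have e1 : (Matrix.single i j (1 : K)) = Matrix.single i 0 1 * Matrix.single 0 j 1 := by
      rw [Matrix.single_mul_single_same, one_mul]
    rw [e1, hf]
    split_ifs with h
    · subst h
      rw [Matrix.single_mul_single_same, one_mul]
    · rw [Matrix.single_mul_single_of_ne (h := fun h' => h h'.symm), map_zero]
  conv_lhs => rw [Matrix.matrix_eq_sum_single a]
  rw [map_sum]
  simp only [map_sum]
  have h2 : ∀ i j, f (Matrix.single i j (a i j)) = a i j * f (Matrix.single i j 1) := by
    intro i j
    rw [← smul_eq_mul, ← map_smul, Matrix.smul_single, smul_eq_mul, mul_one]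
  rw [Matrix.trace, Finset.mul_sum]
  apply Finset.sum_congr rfl
  intro i _
  rw [Matrix.diag_apply, Finset.sum_eq_single i]
  · rw [h2, h1, if_pos rfl, mul_comm]
  · intro j _ hj
    rw [h2, h1, if_neg (Ne.symm hj), mul_zero]
  · intro h
    exact absurd (Finset.mem_univ i) h

end Trace

section TracePi

variable {K : Type*} [Field K] {ι : Type*} [Fintype ι] [DecidableEq ι] {M : ι → Type*}
  [∀ i, AddCommGroup (M i)] [∀ i, Module K (M i)] [∀ i, Module.Finite K (M i)]

omit [∀ i, Module.Finite K (M i)] in
lemma sum_single_proj : ∑ i, (LinearMap.single K M i) ∘ₗ (LinearMap.proj i) =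
    (LinearMap.id : (∀ i, M i) →ₗ[K] (∀ i, M i)) := by
  apply LinearMap.ext
  intro x
  rw [LinearMap.sum_apply]
  funext j
  rw [Finset.sum_apply, Finset.sum_eq_single j]
  · simp
  · intro i _ hij
    simp [Pi.single_eq_of_ne (Ne.symm hij)]
  · simp

/-- The trace of an operator on a product. -/
lemma trace_pi (f : Module.End K (∀ i, M i)) :
    LinearMap.trace K (∀ i, M i) f =
      ∑ i, LinearMap.trace K (M i) (LinearMap.proj i ∘ₗ f ∘ₗ LinearMap.single K M i) := by
  have h1 : f = ∑ i, (f ∘ₗ LinearMap.single K M i) ∘ₗ LinearMap.proj i := by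
    apply LinearMap.ext
    intro x
    have h2 := congrArg (fun g => g x) (sum_single_proj (K := K) (M := M))
    simp only [LinearMap.sum_apply, LinearMap.comp_apply, LinearMap.id_apply] at h2 ⊢
    conv_lhs => rw [← h2]
    rw [map_sum]
  conv_lhs => rw [h1]
  rw [map_sum]
  apply Finset.sum_congr rfl
  intro i _
  rw [LinearMap.trace_comp_comm']

end TracePi

section Mat

variable {K : Type*} [Field K]

/-- The trace of the operator `M ↦ Y M X` on matrices. -/
lemma trace_sandwich {n : ℕ} (Y X : Matrix (Fin n) (Fin n) K) :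
    LinearMap.trace K (Matrix (Fin n) (Fin n) K)
      (LinearMap.mulLeft K Y ∘ₗ LinearMap.mulRight K X) = Y.trace * X.trace := by
  rw [LinearMap.trace_eq_matrix_trace K (Matrix.stdBasis K (Fin n) (Fin n)), Matrix.trace]
  simp only [Matrix.diag_apply, LinearMap.toMatrix_apply,
    LinearMap.comp_apply, LinearMap.mulRight_apply, LinearMap.mulLeft_apply]
  rw [Fintype.sum_prod_type, Matrix.trace, Matrix.trace, Finset.sum_mul_sum]
  apply Finset.sum_congr rfl
  intro i _
  apply Finset.sum_congr rfl
  intro j _
  have h : ∀ N : Matrix (Fin n) (Fin n) K, (Matrix.stdBasis K (Fin n) (Fin n)).repr N (i, j) =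
      N i j := by
    intro N
    simp [Matrix.stdBasis]
  rw [h, Matrix.stdBasis_eq_single, Matrix.mul_apply, Finset.sum_eq_single i]
  · rw [Matrix.mul_apply, Finset.sum_eq_single j]
    · simp
    · intro l _ hl
      rw [Matrix.single_apply_of_ne (h := fun h' => hl h'.2.symm), zero_mul]
    · simp
  · intro l _ hl
    rw [Matrix.mul_apply, Finset.sum_eq_zero, mul_zero]
    intro m _
    rw [Matrix.single_apply_of_ne (h := fun h' => hl h'.1.symm), zero_mul]
  · simp

end Mat

section Wedderburn

variable {K : Type*} [Field K] [IsAlgClosed K]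

/-- The semisimple quotient of a finite-dimensional algebra. -/
theorem exists_wedderburn (B : Type*) [Ring B] [Algebra K B] [Module.Finite K B] :
    ∃ (n : ℕ) (d : Fin n → ℕ) (_ : ∀ i, NeZero (d i))
      (π : B →ₐ[K] (∀ i, Matrix (Fin (d i)) (Fin (d i)) K)), Function.Surjective π ∧
        ∀ x, π x = 0 → IsNilpotent x := by
  have hA : IsArtinianRing B := IsArtinianRing.of_finite K B
  obtain ⟨n, d, hd, ⟨e⟩⟩ :=
    IsSemisimpleRing.exists_algEquiv_pi_matrix_of_isAlgClosed K (B ⧸ Ring.jacobson B)
  refine ⟨n, d, hd, (e : _ →ₐ[K] _).comp (Ideal.Quotient.mkₐ K (Ring.jacobson B)), ?_, ?_⟩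
  · rw [AlgHom.coe_comp]
    exact e.surjective.comp (Ideal.Quotient.mkₐ_surjective K _)
  · intro x hx
    have h1 : Ideal.Quotient.mkₐ K (Ring.jacobson B) x = 0 := by
      apply e.injective
      rw [map_zero]
      exact hx
    have h2 : x ∈ Ring.jacobson B := Ideal.Quotient.eq_zero_iff_mem.1 h1
    obtain ⟨m, hm⟩ := IsSemiprimaryRing.isNilpotent (R := B)
    refine ⟨m, ?_⟩
    have h3 : x ^ m ∈ (Ring.jacobson B) ^ m := Ideal.pow_mem_pow h2 m
    rw [hm] at h3
    exact h3

end Wedderburn

section Data

variable {K : Type*} [Field K]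

/-- Data as in Wedderburn's theorem for the semisimple quotient of the algebra `B`. -/
structure WData (K : Type*) [Field K] (B : Type*) [Ring B] [Algebra K B] where
  /-- the number of blocks -/
  n : ℕ
  /-- the sizes of the blocks -/
  d : Fin n → ℕ
  ne : ∀ i, NeZero (d i)
  /-- the projection to the semisimple quotient -/
  π : B →ₐ[K] (∀ i, Matrix (Fin (d i)) (Fin (d i)) K)
  surj : Function.Surjective π
  nil : ∀ x, π x = 0 → IsNilpotent x

attribute [instance] WData.ne

lemma nonempty_wdata [IsAlgClosed K] (B : Type*) [Ring B] [Algebra K B] [Module.Finite K B] :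
    Nonempty (WData K B) := by
  obtain ⟨n, d, hd, π, h1, h2⟩ := exists_wedderburn (K := K) B
  exact ⟨⟨n, d, hd, π, h1, h2⟩⟩

variable {B : Type*} [Ring B] [Algebra K B] (w : WData K B)

namespace WData

/-- The ranks of the components of an element of the algebra. -/
noncomputable def rk (x : B) (k : Fin w.n) : ℕ := (w.π x k).rank

lemma trace_eq_rk {x : B} (hx : IsIdempotentElem x) (k : Fin w.n) :
    (w.π x k).trace = (w.rk x k : K) := by
  have h1 : IsIdempotentElem (w.π x k) := by
    have h2 := congrFun (congrArg w.π hx.eq) k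
    rwa [map_mul] at h2
  have h3 : IsIdempotentElem (Matrix.toLin' (w.π x k)) := by
    have := h1.map (Matrix.toLinAlgEquiv' (R := K) (n := Fin (w.d k)))
    exact this
  have h4 := trace_idem h3
  rw [Matrix.trace_toLin'_eq] at h4
  rw [h4, rk, Matrix.rank]
  rfl

/-- Idempotent lifts of the first diagonal matrix units. -/
lemma exists_lift (k : Fin w.n) : ∃ E : B, IsIdempotentElem E ∧
    w.π E = Pi.single k (Matrix.single 0 0 1) := by
  have h1 : IsIdempotentElem (Pi.single k (Matrix.single 0 0 1) :
      ∀ i, Matrix (Fin (w.d i)) (Fin (w.d i)) K) := by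
    rw [IsIdempotentElem, ← Pi.single_mul, Matrix.single_mul_single_same, one_mul]
  exact exists_isIdempotentElem_eq_of_ker_isNilpotent w.π.toRingHom
    (fun x hx => w.nil x (RingHom.mem_ker.1 hx)) _ (w.surj _) h1

/-- A trace functional is a linear combination of the traces of the blocks. -/
lemma functional (θ : B →ₗ[K] K) (hθ : ∀ a b, θ (a * b) = θ (b * a))
    (h0 : ∀ x, w.π x = 0 → θ x = 0) (E : Fin w.n → B)
    (hE : ∀ k, w.π (E k) = Pi.single k (Matrix.single 0 0 1)) (x : B) :
    θ x = ∑ k, θ (E k) * (w.π x k).trace := by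
  classical
  obtain ⟨s, hs⟩ := LinearMap.exists_rightInverse_of_surjective w.π.toLinearMap
    (LinearMap.range_eq_top.2 w.surj)
  have hs' : ∀ y, w.π (s y) = y := fun y => congrArg (fun f => f y) hs
  have h1 : ∀ a b, w.π a = w.π b → θ a = θ b := by
    intro a b hab
    rw [← sub_eq_zero, ← map_sub]
    apply h0
    rw [map_sub, hab, sub_self]
  set f : ∀ k, Matrix (Fin (w.d k)) (Fin (w.d k)) K →ₗ[K] K := fun k =>
    θ ∘ₗ s ∘ₗ LinearMap.single K (fun i => Matrix (Fin (w.d i)) (Fin (w.d i)) K) k with hf
  have h2 : ∀ k M, f k M = θ (E k) * M.trace := by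
    intro k M
    rw [eq_smul_trace (f k)]
    · congr 1
      apply h1
      rw [hE]
      exact hs' _
    · intro a b
      have h3 : ∀ a b, f k (a * b) = θ (s (Pi.single k a) * s (Pi.single k b)) := by
        intro a b
        have h4 : w.π (s (Pi.single k a) * s (Pi.single k b)) = Pi.single k (a * b) := by
          rw [map_mul, hs', hs', ← Pi.single_mul]
        apply h1
        rw [h4]
        exact hs' _
      rw [h3, h3, hθ]
  have h3 : θ x = θ (s (w.π x)) := h1 _ _ (by rw [hs'])
  rw [h3]
  have h4 : w.π x = ∑ k, Pi.single k (w.π x k) := (Finset.univ_sum_single (w.π x)).symm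
  conv_lhs => rw [h4]
  rw [map_sum, map_sum]
  apply Finset.sum_congr rfl
  intro k _
  rw [← h2]
  rfl

/-- Multiplicities: the dimension of the image of an idempotent on a module. -/
lemma module_rank [CharZero K] {V : Type*} [AddCommGroup V] [Module K V] [Module.Finite K V]
    (r : B →ₐ[K] Module.End K V) (E : Fin w.n → B) (hE' : ∀ k, IsIdempotentElem (E k))
    (hE : ∀ k, w.π (E k) = Pi.single k (Matrix.single 0 0 1)) {x : B}
    (hx : IsIdempotentElem x) :
    finrank K (range (r x)) = ∑ k, finrank K (range (r (E k))) * w.rk x k := by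
  have h1 := w.functional (LinearMap.trace K V ∘ₗ r.toLinearMap) (by
    intro a b
    simp only [LinearMap.comp_apply, AlgHom.toLinearMap_apply, map_mul]
    exact LinearMap.trace_mul_comm K _ _) (by
    intro y hy
    exact trace_nil ((w.nil y hy).map r)) E hE x
  simp only [LinearMap.comp_apply, AlgHom.toLinearMap_apply] at h1
  rw [trace_idem (hx.map r)] at h1
  have h2 : ((∑ k, finrank K (range (r (E k))) * w.rk x k : ℕ) : K) =
      ∑ k, LinearMap.trace K V (r (E k)) * (w.π x k).trace := by
    rw [Nat.cast_sum]
    apply Finset.sum_congr rfl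
    intro k _
    rw [Nat.cast_mul, trace_idem ((hE' k).map r), w.trace_eq_rk hx]
  rw [← h2] at h1
  exact_mod_cast h1

/-- The dimension of `y R x` in the semisimple quotient `R`. -/
lemma finrank_sandwich [CharZero K] {x y : B} (hx : IsIdempotentElem x)
    (hy : IsIdempotentElem y) :
    finrank K (range (LinearMap.mulLeft K (w.π y) ∘ₗ LinearMap.mulRight K (w.π x))) =
      ∑ k, w.rk y k * w.rk x k := by
  classical
  have hx' : IsIdempotentElem (w.π x) := hx.map w.π
  have hy' : IsIdempotentElem (w.π y) := hy.map w.π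
  have h1 : IsIdempotentElem
      (LinearMap.mulLeft K (w.π y) ∘ₗ LinearMap.mulRight K (w.π x)) := by
    apply LinearMap.ext
    intro a
    simp only [Module.End.mul_apply, LinearMap.comp_apply, LinearMap.mulLeft_apply,
      LinearMap.mulRight_apply]
    rw [mul_assoc, mul_assoc, hx'.eq, ← mul_assoc, hy'.eq]
  have h2 := trace_idem h1
  rw [trace_pi] at h2
  have h3 : ∀ k, LinearMap.proj k ∘ₗ
      (LinearMap.mulLeft K (w.π y) ∘ₗ LinearMap.mulRight K (w.π x)) ∘ₗ
        LinearMap.single K (fun i => Matrix (Fin (w.d i)) (Fin (w.d i)) K) k =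
      LinearMap.mulLeft K (w.π y k) ∘ₗ LinearMap.mulRight K (w.π x k) := by
    intro k
    apply LinearMap.ext
    intro M
    simp only [LinearMap.comp_apply, LinearMap.mulLeft_apply, LinearMap.mulRight_apply,
      LinearMap.proj_apply, LinearMap.coe_single, Pi.mul_apply, Pi.single_eq_same]
  simp only [h3, trace_sandwich] at h2
  have h4 : ((∑ k, w.rk y k * w.rk x k : ℕ) : K) =
      ∑ k, (w.π y k).trace * (w.π x k).trace := by
    rw [Nat.cast_sum]
    apply Finset.sum_congr rfl
    intro k _
    rw [Nat.cast_mul, w.trace_eq_rk hx, w.trace_eq_rk hy]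
  rw [← h4] at h2
  exact_mod_cast h2.symm

/-- The radical of the trace form of a faithful module. -/
lemma radical [CharZero K] {V : Type*} [AddCommGroup V] [Module K V] [Module.Finite K V]
    (r : B →ₐ[K] Module.End K V) (hr : Function.Injective r) (x : B) :
    w.π x = 0 ↔ ∀ y, LinearMap.trace K V (r (y * x)) = 0 := by
  constructor
  · intro hx y
    apply trace_nil
    apply IsNilpotent.map
    apply w.nil
    rw [map_mul, hx, mul_zero]
  · intro h
    choose E hE' hE using w.exists_lift
    have h1 : ∀ y, ∑ k, LinearMap.trace K V (r (E k)) * (w.π (y * x) k).trace = 0 := by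
      intro y
      rw [← h y]
      have := w.functional (LinearMap.trace K V ∘ₗ r.toLinearMap) (by
        intro a b
        simp only [LinearMap.comp_apply, AlgHom.toLinearMap_apply, map_mul]
        exact LinearMap.trace_mul_comm K _ _) (by
        intro y hy
        exact trace_nil ((w.nil y hy).map r)) E hE (y * x)
      exact this.symm
    funext k
    ext i j
    obtain ⟨y, hy⟩ := w.surj (Pi.single k (Matrix.single j i 1))
    have h2 := h1 y
    rw [Finset.sum_eq_single k] at h2
    · rw [map_mul, Pi.mul_apply, hy, Pi.single_eq_same] at h2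
      have h3 : (Matrix.single j i (1 : K) * w.π x k).trace = w.π x k i j := by
        rw [Matrix.trace, Finset.sum_eq_single j]
        · simp
        · intro l _ hl
          simp [hl]
        · simp
      rw [h3, mul_eq_zero] at h2
      rcases h2 with h2 | h2
      · exfalso
        rw [trace_idem ((hE' k).map r), Nat.cast_eq_zero, Submodule.finrank_eq_zero,
          LinearMap.range_eq_bot] at h2
        have h4 : E k = 0 := hr (by rw [h2, map_zero])
        have h5 := hE k
        rw [h4, map_zero] at h5
        have h6 := congrFun h5 k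
        rw [Pi.single_eq_same] at h6
        have h7 := congrFun (congrFun h6 0) 0
        simp at h7
      · rw [h2]; rfl
    · intro l _ hl
      rw [map_mul, Pi.mul_apply, hy, Pi.single_eq_of_ne hl, zero_mul]
      simp
    · simp

end WData

end Data

end Pool.Agent.Y129
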