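import Pool.Agent.Y129.Corr

/-!
# Isomorphisms of products, and the uniform bound for multiplicities
-/

open CategoryTheory AlgebraicGeometry Finset

universe u v

namespace Pool.Agent.Y129

open Pool.Agent.H914 Pool.Agent.H914.VarClass Pool.Agent.H914.VarClass.Obj
  Pool.Agent.H914.WeilCohomology Pool.Agent.H281R3.HT

variable {k : Type u} [Field k] {𝒱 : VarClass k} {ops : CycleOps 𝒱}
  {W : WeilCohomology.{u, v} ops} {X Y Z : 𝒱.Obj}

/-- Morphisms to a product are determined by their components. -/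
lemma prod_ext {T X Y : 𝒱.Obj} {f g : T ⟶ X.prod Y} (h1 : f ≫ fst X Y = g ≫ fst X Y)
    (h2 : f ≫ snd X Y = g ≫ snd X Y) : f = g := by
  apply SmVar.Hom.ext
  apply Limits.pullback.hom_ext
  · exact congrArg SmVar.Hom.hom h1
  · exact congrArg SmVar.Hom.hom h2

lemma map_algSpan (f : X ⟶ Y) {c : W.H Y} (hc : c ∈ algSpan W Y) : W.map f c ∈ algSpan W X := by
  induction hc using Submodule.span_induction with
  | mem x hx =>
    obtain ⟨j, z, hz, rfl⟩ := Set.mem_iUnion.1 hx
    rw [← W.cl_pull]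
    exact Submodule.subset_span (Set.mem_iUnion.2 ⟨j, _, ops.pull_mem _ hz, rfl⟩)
  | zero => rw [map_zero]; exact Submodule.zero_mem _
  | add x y _ _ hx hy => rw [map_add]; exact Submodule.add_mem _ hx hy
  | smul r x _ hx => rw [map_smul]; exact Submodule.smul_mem _ _ hx

lemma push_algSpan (f : X ⟶ Y) {c : W.H X} (hc : c ∈ algSpan W X) :
    W.push f c ∈ algSpan W Y := by
  induction hc using Submodule.span_induction with
  | mem x hx =>
    obtain ⟨j, z, hz, rfl⟩ := Set.mem_iUnion.1 hx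
    by_cases hd : X.dim ≤ j + Y.dim
    · rw [← W.cl_push]
      exact Submodule.subset_span (Set.mem_iUnion.2 ⟨j + Y.dim - X.dim, _,
        ops.push_mem _ hz (by omega), rfl⟩)
    · have h1 := W.push_mem f (W.cl_mem hz)
      rw [grZ_of_neg (by omega), Submodule.mem_bot] at h1
      rw [h1]
      exact Submodule.zero_mem _
  | zero => rw [map_zero]; exact Submodule.zero_mem _
  | add x y _ _ hx hy => rw [map_add]; exact Submodule.add_mem _ hx hy
  | smul r x _ hx => rw [map_smul]; exact Submodule.smul_mem _ _ hx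

lemma map_transcendental (f : X ⟶ Y) {c : W.H Y} (hc : c ∈ transcendental W Y) :
    W.map f c ∈ transcendental W X := by
  rw [mem_transcendental] at hc ⊢
  intro d hd
  rw [← W.tr_push]
  exact hc _ (push_algSpan f hd)

/-- Isomorphisms and operators. -/
lemma na_iso (i : X ≅ Y) {Φ : Module.End W.K (W.H X)} {Ψ : Module.End W.K (W.H Y)}
    (h : ∀ c, W.map i.hom (Ψ c) = Φ (W.map i.hom c)) :
    na W X ((algSpan W X).map Φ) = na W Y ((algSpan W Y).map Ψ) := by
  have e1 : ∀ c : W.H Y, W.map i.inv (W.map i.hom c) = c := fun c => by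
    rw [← W.map_comp, i.inv_hom_id, W.map_id]
  have e2 : ∀ c : W.H X, W.map i.hom (W.map i.inv c) = c := fun c => by
    rw [← W.map_comp, i.hom_inv_id, W.map_id]
  have h1 : (algSpan W X).map Φ = ((algSpan W Y).map Ψ).map (W.map i.hom).toLinearMap := by
    apply le_antisymm
    · rintro _ ⟨c, hc, rfl⟩
      refine ⟨Ψ (W.map i.inv c), ⟨_, map_algSpan i.inv hc, rfl⟩, ?_⟩
      rw [AlgHom.toLinearMap_apply, h, e2]
    · rintro _ ⟨_, ⟨c, hc, rfl⟩, rfl⟩
      exact ⟨W.map i.hom c, map_algSpan i.hom hc, (h c).symm⟩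
  rw [na, h1, na, ← Submodule.map_comp]
  apply finrank_map_eq
  intro s _
  rw [LinearMap.comp_apply, Submodule.mkQ_apply, Submodule.mkQ_apply,
    Submodule.Quotient.mk_eq_zero, Submodule.Quotient.mk_eq_zero, AlgHom.toLinearMap_apply]
  constructor
  · intro h2
    rw [← e1 s]
    exact map_transcendental i.inv h2
  · intro h2
    exact map_transcendental i.hom h2

lemma numRank_iso (i : X ≅ Y) : numRank W X = numRank W Y := by
  have h1 := na_iso (W := W) i (Φ := LinearMap.id) (Ψ := LinearMap.id) (fun _ => rfl)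
  rw [Submodule.map_id, Submodule.map_id] at h1
  exact h1

/-- Regrouping the factors. -/
noncomputable def regA (Q P : 𝒱.Obj) :
    ((Q.prod Q).prod P).prod P ≅ (Q.prod P).prod (Q.prod P) where
  hom := Obj.lift
    (Obj.lift (fst _ P ≫ fst _ P ≫ fst Q Q) (fst _ P ≫ snd _ P))
    (Obj.lift (fst _ P ≫ fst _ P ≫ snd Q Q) (snd _ P))
  inv := Obj.lift
    (Obj.lift (Obj.lift (fst (Q.prod P) (Q.prod P) ≫ fst Q P) (snd (Q.prod P) (Q.prod P) ≫ fst Q P))
      (fst (Q.prod P) (Q.prod P) ≫ snd Q P))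
    (snd (Q.prod P) (Q.prod P) ≫ snd Q P)
  hom_inv_id := by
    refine prod_ext (prod_ext (prod_ext ?_ ?_) ?_) ?_ <;> simp
  inv_hom_id := by
    refine prod_ext (prod_ext ?_ ?_) (prod_ext ?_ ?_) <;> simp

/-- The regrouping isomorphism and operators on the factors. -/
lemma regA_extOp {Q P : 𝒱.Obj} (e : Module.End W.K (W.H Q)) {e' : Module.End W.K (W.H Q)}
    (he' : e' ∈ CC W Q Q) (c : W.H ((Q.prod P).prod (Q.prod P))) :
    W.map (regA Q P).hom (extOp W (extOp W e LinearMap.id) (extOp W e' LinearMap.id) c) =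
      extOp W (extOp W (extOp W e e') LinearMap.id) LinearMap.id
        (W.map (regA Q P).hom c) := by
  -- the pull-back of an external product
  have key : ∀ (q q' : W.H Q) (p p' : W.H P) (i : ℕ), p ∈ W.gr P i →
      W.map (regA Q P).hom (W.map (fst _ _) (W.map (fst Q P) q * W.map (snd Q P) p) *
        W.map (snd _ _) (W.map (fst Q P) q' * W.map (snd Q P) p')) =
      W.map (fst _ _) (W.map (fst _ _) (W.map (fst Q Q) q *
        W.map (snd Q Q) ((pa W Q ^ i) q')) * W.map (snd _ _) p) * W.map (snd _ _) p' := by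
    intro q q' p p' i hp
    have e1 : (regA Q P).hom ≫ fst _ _ ≫ fst Q P = fst _ P ≫ fst _ P ≫ fst Q Q := by
      simp [regA]
    have e2 : (regA Q P).hom ≫ fst _ _ ≫ snd Q P = fst _ P ≫ snd _ P := by simp [regA]
    have e3 : (regA Q P).hom ≫ snd _ _ ≫ fst Q P = fst _ P ≫ fst _ P ≫ snd Q Q := by
      simp [regA]
    have e4 : (regA Q P).hom ≫ snd _ _ ≫ snd Q P = snd _ P := by simp [regA]
    have f1 : ∀ x, W.map (regA Q P).hom (W.map (fst _ _) (W.map (fst Q P) x)) =
        W.map (fst _ P ≫ fst _ P ≫ fst Q Q) x := fun x => by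
      rw [← W.map_comp, ← W.map_comp, Category.assoc, e1]
    have f2 : ∀ x, W.map (regA Q P).hom (W.map (fst _ _) (W.map (snd Q P) x)) =
        W.map (fst _ P ≫ snd _ P) x := fun x => by
      rw [← W.map_comp, ← W.map_comp, Category.assoc, e2]
    have f3 : ∀ x, W.map (regA Q P).hom (W.map (snd _ _) (W.map (fst Q P) x)) =
        W.map (fst _ P ≫ fst _ P ≫ snd Q Q) x := fun x => by
      rw [← W.map_comp, ← W.map_comp, Category.assoc, e3]
    have f4 : ∀ x, W.map (regA Q P).hom (W.map (snd _ _) (W.map (snd Q P) x)) =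
        W.map (snd _ P) x := fun x => by
      rw [← W.map_comp, ← W.map_comp, Category.assoc, e4]
    simp only [map_mul, f1, f2, f3, f4]
    have h1 := comm_pa (W := W) (f := (fst _ P ≫ fst _ P ≫ snd Q Q :
      ((Q.prod Q).prod P).prod P ⟶ Q)) (g := (fst _ P ≫ snd _ P :
      ((Q.prod Q).prod P).prod P ⟶ P)) hp q'
    simp only [W.map_comp] at h1 ⊢
    rw [mul_assoc, ← mul_assoc (W.map _ (W.map _ p)), h1]
    simp only [mul_assoc]
  refine W.kunneth_induction (p := fun c => W.map (regA Q P).hom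
    (extOp W (extOp W e LinearMap.id) (extOp W e' LinearMap.id) c) =
      extOp W (extOp W (extOp W e e') LinearMap.id) LinearMap.id
        (W.map (regA Q P).hom c)) ?_ ?_ c
  · intro a b ha hb
    simp only [map_add, ha, hb]
  intro _ _ a _ b _
  refine W.kunneth_induction (p := fun a => W.map (regA Q P).hom
    (extOp W (extOp W e LinearMap.id) (extOp W e' LinearMap.id)
      (W.map (fst _ _) a * W.map (snd _ _) b)) =
      extOp W (extOp W (extOp W e e') LinearMap.id) LinearMap.id
        (W.map (regA Q P).hom (W.map (fst _ _) a * W.map (snd _ _) b))) ?_ ?_ a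
  · intro a a' ha ha'
    simp only [map_add, add_mul, ha, ha']
  intro _ i q _ p hp
  refine W.kunneth_induction (p := fun b => W.map (regA Q P).hom
    (extOp W (extOp W e LinearMap.id) (extOp W e' LinearMap.id)
      (W.map (fst _ _) (W.map (fst Q P) q * W.map (snd Q P) p) * W.map (snd _ _) b)) =
      extOp W (extOp W (extOp W e e') LinearMap.id) LinearMap.id
        (W.map (regA Q P).hom
          (W.map (fst _ _) (W.map (fst Q P) q * W.map (snd Q P) p) * W.map (snd _ _) b)))
            ?_ ?_ b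
  · intro a a' ha ha'
    simp only [map_add, mul_add, ha, ha']
  intro _ _ q' _ p' _
  rw [extOp_tmul, extOp_tmul, extOp_tmul, LinearMap.id_apply, LinearMap.id_apply,
    key _ _ _ _ i hp, key _ _ _ _ i hp, extOp_tmul, extOp_tmul, extOp_tmul,
    LinearMap.id_apply, LinearMap.id_apply, CC.pa_pow_comm he']

lemma extOp_idem {e : Module.End W.K (W.H X)} {f : Module.End W.K (W.H Y)}
    (he : IsIdempotentElem e) (hf : IsIdempotentElem f) : IsIdempotentElem (extOp W e f) := by
  rw [IsIdempotentElem, extOp_mul, he.eq, hf.eq]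

/-- The rank of an external product of idempotents. -/
lemma finrank_range_extOp {φ : Module.End W.K (W.H X)} {ψ : Module.End W.K (W.H Y)}
    (hφ : IsIdempotentElem φ) (hψ : IsIdempotentElem ψ) :
    Module.finrank W.K (LinearMap.range (extOp W φ ψ)) =
      Module.finrank W.K (LinearMap.range φ) * Module.finrank W.K (LinearMap.range ψ) := by
  have h1 : LinearMap.trace W.K _ (extOp W φ ψ) =
      LinearMap.trace W.K _ φ * LinearMap.trace W.K _ ψ := by
    rw [← LinearMap.trace_tensorProduct' φ ψ,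
      ← LinearMap.trace_conj' (TensorProduct.map φ ψ) (kappa W X Y)]
    rfl
  rw [Y129.trace_idem (extOp_idem hφ hψ), Y129.trace_idem hφ, Y129.trace_idem hψ] at h1
  exact_mod_cast h1

/-- Adjoints of external products with the identity. -/
lemma Adj.ext_id {e' e : Module.End W.K (W.H X)} (h : Adj W e' e) (he : e ∈ CC W X X) :
    Adj W (extOp W e' (LinearMap.id : Module.End W.K (W.H Y))) (extOp W e LinearMap.id) := by
  intro c d
  refine W.kunneth_induction (p := fun c => W.tr (X.prod Y) (extOp W e' LinearMap.id c * d) =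
    W.tr (X.prod Y) (c * extOp W e LinearMap.id d)) ?_ ?_ c
  · intro a b ha hb
    simp only [map_add, add_mul, ha, hb]
  intro _ j a _ b hb
  refine W.kunneth_induction (p := fun d => W.tr (X.prod Y) (extOp W e' LinearMap.id
    (W.map (fst X Y) a * W.map (snd X Y) b) * d) =
    W.tr (X.prod Y) (W.map (fst X Y) a * W.map (snd X Y) b * extOp W e LinearMap.id d)) ?_ ?_ d
  · intro a b ha hb
    simp only [map_add, mul_add, ha, hb]
  intro _ _ x _ y _
  have key : ∀ (a x : W.H X), W.tr (X.prod Y) (W.map (fst X Y) a * W.map (snd X Y) b *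
      (W.map (fst X Y) x * W.map (snd X Y) y)) =
        W.tr X (a * (pa W X ^ j) x) * W.tr Y (b * y) := by
    intro a x
    rw [mul_assoc, ← mul_assoc (W.map (snd X Y) b), comm_pa hb x, mul_assoc (W.map (fst X Y) _),
      ← map_mul (W.map (snd X Y)), ← mul_assoc, ← map_mul (W.map (fst X Y)), W.tr_prod]
  rw [extOp_tmul, extOp_tmul, LinearMap.id_apply, LinearMap.id_apply, key, key, h,
    CC.pa_pow_comm he]

/-- The numerical dimension of `(e × 1) Hom(P, Q × P)`. -/
noncomputable def FF (W : WeilCohomology.{u, v} ops) (P Q : 𝒱.Obj)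
    (e : Module.End W.K (W.H Q)) : ℕ :=
  nd (CC W) P (Q.prod P) (sand (CC W) P (Q.prod P) (extOp W e LinearMap.id) LinearMap.id)

variable {S : Set 𝒱.Obj} (hS : GoodSet W S)

include hS

lemma FF_eq {P Q : 𝒱.Obj} (hP : P ∈ S) (hQ : Q ∈ S) {e : Module.End W.K (W.H Q)}
    (he : e ∈ CC W Q Q) :
    FF W P Q e = na W ((Q.prod P).prod P) ((algSpan W ((Q.prod P).prod P)).map
      (extOp W (extOp W e LinearMap.id) LinearMap.id)) :=
  nd_eq_na (hS.good (hS.prod_mem hQ hP) hP) (CC.ext he (isCat_CC.id_mem P))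
    (isCat_CC.id_mem P) adj_id

variable [IsAlgClosed W.K]

/-- The basic step. -/
lemma FF_sq_le {P Q : 𝒱.Obj} (hP : P ∈ S) (hQ : Q ∈ S) {e : Module.End W.K (W.H Q)}
    (he : e ∈ CC W Q Q) (he' : IsIdempotentElem e) : ∃ e' ∈ CC W Q Q, IsIdempotentElem e' ∧
      Module.finrank W.K (LinearMap.range e') = Module.finrank W.K (LinearMap.range e) ∧
      FF W P Q e ^ 2 ≤ numRank W (P.prod P) * FF W P (Q.prod Q) (extOp W e e') := by
  obtain ⟨e', h1, h2⟩ := CC.exists_adj' he
  refine ⟨e', h1, h2.idem he', h2.finrank, ?_⟩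
  have hid : (LinearMap.id : Module.End W.K (W.H P)) ∈ CC W P P := isCat_CC.id_mem P
  have h3 := nd_sq_le (isCat_CC (W := W)) P (Q.prod P) hid
    (IsIdempotentElem.one (M := Module.End W.K (W.H P))) (CC.ext he hid)
    (extOp_idem he' (IsIdempotentElem.one (M := Module.End W.K (W.H P))))
  rw [sand_one, nd_CC (hS.good hP hP)] at h3
  have h4 : nd (CC W) (Q.prod P) (Q.prod P) (sand (CC W) (Q.prod P) (Q.prod P)
      (extOp W e LinearMap.id) (extOp W e LinearMap.id)) =
      FF W P (Q.prod Q) (extOp W e e') := by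
    rw [FF_eq hS hP (hS.prod_mem hQ hQ) (CC.ext he h1),
      nd_eq_na (hS.good (hS.prod_mem hQ hP) (hS.prod_mem hQ hP)) (CC.ext he hid)
        (CC.ext h1 hid) (h2.ext_id he)]
    exact (na_iso (regA Q P) (regA_extOp e h1)).symm
  rw [h4] at h3
  exact h3

omit [IsAlgClosed W.K] in
/-- The trivial bound. -/
lemma FF_le {P Q : 𝒱.Obj} {e : Module.End W.K (W.H Q)} (he : e ∈ CC W Q Q)
    (he' : IsIdempotentElem e) (hP : P ∈ S) (hQ : Q ∈ S) :
    FF W P Q e ≤ Module.finrank W.K (LinearMap.range e) * Module.finrank W.K (W.H P) ^ 2 := by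
  rw [FF_eq hS hP hQ he, na]
  refine (Submodule.finrank_map_le _ _).trans ?_
  have h1 : (algSpan W ((Q.prod P).prod P)).map
      (extOp W (extOp W e LinearMap.id) LinearMap.id) ≤
      LinearMap.range (extOp W (extOp W e (LinearMap.id : Module.End W.K (W.H P)))
        (LinearMap.id : Module.End W.K (W.H P))) := LinearMap.map_le_range
  refine (Submodule.finrank_mono h1).trans ?_
  have hid : IsIdempotentElem (LinearMap.id : Module.End W.K (W.H P)) := IsIdempotentElem.one
  rw [finrank_range_extOp (extOp_idem he' hid) hid, finrank_range_extOp he' hid,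
    LinearMap.range_id, finrank_top, sq, mul_assoc]

omit hS [IsAlgClosed W.K] in
/-- A numerical lemma. -/
lemma le_of_pow_le {F E B w : ℕ} (h : ∀ j : ℕ, F ^ 2 ^ j ≤ E ^ (2 ^ j - 1) * (B * w ^ 2 ^ j)) :
    F ≤ w * E := by
  by_contra hcon
  push Not at hcon
  rcases Nat.eq_zero_or_pos E with hE | hE
  · subst hE
    have := h 1
    simp at this
    omega
  rcases Nat.eq_zero_or_pos w with hw | hw
  · subst hw
    have := h 0
    simp at this
    omega
  -- `F ≥ w E + 1`
  have hpos : (0 : ℝ) < w * E := by positivity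
  have hR : 1 < (F : ℝ) / (w * E) := by
    rw [lt_div_iff₀ hpos, one_mul]
    exact_mod_cast hcon
  have h1 : ∀ j : ℕ, ((F : ℝ) / (w * E)) ^ 2 ^ j ≤ B := by
    intro j
    rw [div_pow, div_le_iff₀ (by positivity)]
    have h2 : ((F ^ 2 ^ j : ℕ) : ℝ) ≤ ((E ^ (2 ^ j - 1) * (B * w ^ 2 ^ j) : ℕ) : ℝ) := by
      exact_mod_cast h j
    push_cast at h2
    refine h2.trans ?_
    rw [mul_pow]
    have h3 : (E : ℝ) ^ (2 ^ j - 1) ≤ (E : ℝ) ^ 2 ^ j :=
      pow_le_pow_right₀ (by exact_mod_cast hE) (Nat.sub_le _ _)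
    calc (E : ℝ) ^ (2 ^ j - 1) * (B * w ^ 2 ^ j) ≤ (E : ℝ) ^ 2 ^ j * (B * w ^ 2 ^ j) :=
          mul_le_mul_of_nonneg_right h3 (by positivity)
      _ = B * (w ^ 2 ^ j * E ^ 2 ^ j) := by ring
  obtain ⟨n, hn⟩ := pow_unbounded_of_one_lt (B : ℝ) hR
  have h2 : ((F : ℝ) / (w * E)) ^ n ≤ ((F : ℝ) / (w * E)) ^ 2 ^ n :=
    pow_le_pow_right₀ hR.le (Nat.lt_two_pow_self).le
  linarith [h1 n]

/-- Iteration. -/
lemma FF_pow_le {P : 𝒱.Obj} (hP : P ∈ S) (j : ℕ) : ∀ {Q : 𝒱.Obj} (_ : Q ∈ S)
    {e : Module.End W.K (W.H Q)} (_ : e ∈ CC W Q Q) (_ : IsIdempotentElem e),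
      FF W P Q e ^ 2 ^ j ≤ numRank W (P.prod P) ^ (2 ^ j - 1) *
        (Module.finrank W.K (W.H P) ^ 2 * Module.finrank W.K (LinearMap.range e) ^ 2 ^ j) := by
  induction j with
  | zero =>
    intro Q hQ e he he'
    have := FF_le hS he he' hP hQ
    simp only [pow_zero, pow_one, Nat.sub_self, one_mul]
    linarith
  | succ j ih =>
    intro Q hQ e he he'
    obtain ⟨e', h1, h2, h3, h4⟩ := FF_sq_le hS hP hQ he he'
    have h5 := ih (hS.prod_mem hQ hQ) (CC.ext he h1) (extOp_idem he' h2)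
    rw [finrank_range_extOp he' h2, h3] at h5
    have h6 : 2 ^ (j + 1) = 2 * 2 ^ j := by ring
    rw [h6, pow_mul]
    refine (Nat.pow_le_pow_left h4 (2 ^ j)).trans ?_
    rw [mul_pow]
    refine (Nat.mul_le_mul_left _ h5).trans (le_of_eq ?_)
    have h7 : 1 ≤ 2 ^ j := Nat.one_le_two_pow
    rw [← mul_assoc, ← pow_add]
    congr 2
    · omega
    · rw [← sq, ← pow_mul]

/-- **The uniform bound**: the numerical dimension of `(e × 1) Hom(P, Q × P)` is at most the rank
of `e` times the numerical dimension of `End(P)`. -/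
theorem FF_le_mul {P Q : 𝒱.Obj} (hP : P ∈ S) (hQ : Q ∈ S)
    {e : Module.End W.K (W.H Q)} (he : e ∈ CC W Q Q) (he' : IsIdempotentElem e) :
    FF W P Q e ≤ Module.finrank W.K (LinearMap.range e) * numRank W (P.prod P) :=
  le_of_pow_le (fun j => FF_pow_le hS hP j hQ he he')

omit hS [IsAlgClosed W.K]

/-- Another regrouping of the factors. -/
noncomputable def regB (U P : 𝒱.Obj) : (U.prod P).prod P ≅ (P.prod P).prod U where
  hom := Obj.lift (Obj.lift (fst _ P ≫ snd U P) (snd _ P)) (fst _ P ≫ fst U P)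
  inv := Obj.lift (Obj.lift (snd _ U) (fst _ U ≫ fst P P)) (fst _ U ≫ snd P P)
  hom_inv_id := by
    refine prod_ext (prod_ext ?_ ?_) ?_ <;> simp
  inv_hom_id := by
    refine prod_ext (prod_ext ?_ ?_) ?_ <;> simp

lemma regB_extOp {U P : 𝒱.Obj} {e : Module.End W.K (W.H U)} (he : e ∈ CC W U U)
    (c : W.H ((P.prod P).prod U)) :
    W.map (regB U P).hom (extOp W LinearMap.id e c) =
      extOp W (extOp W e LinearMap.id) LinearMap.id (W.map (regB U P).hom c) := by
  have key : ∀ (u : W.H U) (p p' : W.H P) (i j : ℕ), p ∈ W.gr P i → p' ∈ W.gr P j →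
      W.map (regB U P).hom (W.map (fst _ _) (W.map (fst P P) p * W.map (snd P P) p') *
        W.map (snd _ _) u) =
      W.map (fst _ _) (W.map (fst _ _) ((pa W U ^ i) ((pa W U ^ j) u)) * W.map (snd _ _) p) *
        W.map (snd _ _) p' := by
    intro u p p' i j hp hp'
    have e1 : (regB U P).hom ≫ fst _ _ ≫ fst P P = fst _ P ≫ snd _ P := by simp [regB]
    have e2 : (regB U P).hom ≫ fst _ _ ≫ snd P P = snd _ P := by simp [regB]
    have e3 : (regB U P).hom ≫ snd _ _ = fst _ P ≫ fst _ P := by simp [regB]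
    have f1 : ∀ x, W.map (regB U P).hom (W.map (fst _ _) (W.map (fst P P) x)) =
        W.map (fst _ P ≫ snd _ P) x := fun x => by
      rw [← W.map_comp, ← W.map_comp, Category.assoc, e1]
    have f2 : ∀ x, W.map (regB U P).hom (W.map (fst _ _) (W.map (snd P P) x)) =
        W.map (snd _ P) x := fun x => by
      rw [← W.map_comp, ← W.map_comp, Category.assoc, e2]
    have f3 : ∀ x, W.map (regB U P).hom (W.map (snd _ _) x) =
        W.map (fst _ P ≫ fst _ P) x := fun x => by
      rw [← W.map_comp, e3]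
    simp only [map_mul, f1, f2, f3]
    have h1 := comm_pa (W := W) (f := (fst _ P ≫ fst _ P : (U.prod P).prod P ⟶ U))
      (g := (snd _ P : (U.prod P).prod P ⟶ P)) hp' u
    have h2 := comm_pa (W := W) (f := (fst _ P ≫ fst _ P : (U.prod P).prod P ⟶ U))
      (g := (fst _ P ≫ snd _ P : (U.prod P).prod P ⟶ P)) hp ((pa W U ^ j) u)
    rw [mul_assoc, h1, ← mul_assoc, h2]
    simp only [W.map_comp]
  refine W.kunneth_induction (p := fun c => W.map (regB U P).hom (extOp W LinearMap.id e c) =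
      extOp W (extOp W e LinearMap.id) LinearMap.id (W.map (regB U P).hom c)) ?_ ?_ c
  · intro a b ha hb
    simp only [map_add, ha, hb]
  intro _ _ a _ u _
  refine W.kunneth_induction (p := fun a => W.map (regB U P).hom (extOp W LinearMap.id e
      (W.map (fst _ _) a * W.map (snd _ _) u)) =
      extOp W (extOp W e LinearMap.id) LinearMap.id (W.map (regB U P).hom
        (W.map (fst _ _) a * W.map (snd _ _) u))) ?_ ?_ a
  · intro a a' ha ha'
    simp only [map_add, add_mul, ha, ha']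
  intro i j p hp p' hp'
  rw [extOp_tmul, LinearMap.id_apply, key _ _ _ i j hp hp', key _ _ _ i j hp hp', extOp_tmul,
    extOp_tmul, LinearMap.id_apply, LinearMap.id_apply, CC.pa_pow_comm he, CC.pa_pow_comm he]

/-- Products of isomorphisms. -/
noncomputable def prodIso {X X' Y Y' : 𝒱.Obj} (i : X ≅ X') (j : Y ≅ Y') :
    X.prod Y ≅ X'.prod Y' where
  hom := Obj.lift (fst _ _ ≫ i.hom) (snd _ _ ≫ j.hom)
  inv := Obj.lift (fst _ _ ≫ i.inv) (snd _ _ ≫ j.inv)
  hom_inv_id := by
    refine prod_ext ?_ ?_ <;> simp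
  inv_hom_id := by
    refine prod_ext ?_ ?_ <;> simp

lemma prodIso_extOp {X X' U : 𝒱.Obj} (i : X ≅ X') (e : Module.End W.K (W.H U))
    (c : W.H (X'.prod U)) :
    W.map (prodIso i (Iso.refl U)).hom (extOp W LinearMap.id e c) =
      extOp W LinearMap.id e (W.map (prodIso i (Iso.refl U)).hom c) := by
  have key : ∀ (x : W.H X') (u : W.H U), W.map (prodIso i (Iso.refl U)).hom
      (W.map (fst _ _) x * W.map (snd _ _) u) =
      W.map (fst _ _) (W.map i.hom x) * W.map (snd _ _) u := by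
    intro x u
    have e1 : (prodIso i (Iso.refl U)).hom ≫ fst _ _ = fst _ _ ≫ i.hom := by simp [prodIso]
    have e2 : (prodIso i (Iso.refl U)).hom ≫ snd _ _ = snd _ _ := by simp [prodIso]
    rw [map_mul (W.map (prodIso i (Iso.refl U)).hom), ← W.map_comp, ← W.map_comp, e1, e2,
      W.map_comp]
  refine W.kunneth_induction (p := fun c =>
    W.map (prodIso i (Iso.refl U)).hom (extOp W LinearMap.id e c) =
      extOp W LinearMap.id e (W.map (prodIso i (Iso.refl U)).hom c)) ?_ ?_ c
  · intro a b ha hb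
    simp only [map_add, ha, hb]
  intro _ _ x _ u _
  rw [extOp_tmul, key, key, extOp_tmul]
  rfl

include hS in
/-- **The bound for multiplicities**: the numerical dimension of `Hom(U, Z) e`, for an idempotent
`e` on `U`, is at most the rank of `e` times the numerical rank of `Z`, if `Z` is a square. -/
theorem nd_sand_le [IsAlgClosed W.K] {U Z P : 𝒱.Obj} (hP : P ∈ S) (hU : U ∈ S) (hZ : Z ∈ S)
    (i : Z ≅ P.prod P) {e : Module.End W.K (W.H U)} (he : e ∈ CC W U U)
    (he' : IsIdempotentElem e) :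
    nd (CC W) U Z (sand (CC W) U Z LinearMap.id e) ≤
      Module.finrank W.K (LinearMap.range e) * numRank W Z := by
  obtain ⟨e', h1, h2⟩ := CC.exists_adj' he
  rw [nd_eq_na (hS.good hZ hU) (isCat_CC.id_mem Z) h1 h2,
    na_iso (prodIso i (Iso.refl U)) (Ψ := extOp W LinearMap.id e')
    (prodIso_extOp i e'), ← na_iso (regB U P) (regB_extOp h1), ← FF_eq hS hP hU h1,
    ← h2.finrank, numRank_iso i]
  exact FF_le_mul hS hP hU h1 (h2.idem he')

end Pool.Agent.Y129
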