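import Pool.Agent.Y129.Defs
import Pool.Agent.Y129.Reg
import Pool.Agent.Y129.Asym
import Pool.Agent.Y129.Gram

/-!
# Powers of a variety
-/

open CategoryTheory AlgebraicGeometry Finset

universe u v

namespace Pool.Agent.Y129

open Pool.Agent.H914 Pool.Agent.H914.VarClass Pool.Agent.H914.VarClass.Obj
  Pool.Agent.H914.WeilCohomology Pool.Agent.H281R3.HT

variable {k : Type u} [Field k] {𝒱 : VarClass k} {ops : CycleOps 𝒱}
  {W : WeilCohomology.{u, v} ops} {X Y Z : 𝒱.Obj}

lemma one_algSpan (X : 𝒱.Obj) : (1 : W.H X) ∈ algSpan W X := by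
  rw [← W.cl_fund]
  exact Submodule.subset_span (Set.mem_iUnion.2 ⟨0, _, X.V.fundCycle_mem, rfl⟩)

/-- Pull-backs are algebraic correspondences. -/
lemma map_CC (f : X ⟶ Y) : (W.map f).toLinearMap ∈ CC W Y X := by
  have h1 : W.corr (W.push (Obj.lift f (𝟙 X)) 1) = (W.map f).toLinearMap := by
    apply LinearMap.ext
    intro a
    have e1 : Obj.lift f (𝟙 X) ≫ fst Y X = f := Obj.lift_fst _ _
    have e2 : Obj.lift f (𝟙 X) ≫ snd Y X = 𝟙 X := Obj.lift_snd _ _
    rw [corr_apply, ← W.push_mul, ← W.map_comp, e1, ← W.push_comp, e2, W.push_id, one_mul]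
    rfl
  rw [← h1]
  exact map_corr_mem (push_algSpan _ (one_algSpan X))

lemma pj_zero (n : ℕ) : pj X (n + 1) 0 = fst X (pw X n) := rfl

lemma pj_succ (n : ℕ) (i : Fin (n + 1)) : pj X (n + 1) i.succ = snd X (pw X n) ≫ pj X n i := rfl

/-- The morphism to a power with given components. -/
noncomputable def liftN {T : 𝒱.Obj} (X : 𝒱.Obj) : (n : ℕ) → (Fin (n + 1) → (T ⟶ X)) →
    (T ⟶ pw X n)
  | 0, f => f 0
  | n + 1, f => Obj.lift (f 0) (liftN X n (fun i => f i.succ))

lemma liftN_pj {T : 𝒱.Obj} (n : ℕ) (f : Fin (n + 1) → (T ⟶ X)) (i : Fin (n + 1)) :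
    liftN X n f ≫ pj X n i = f i := by
  induction n with
  | zero =>
    have hi : i = 0 := Fin.ext (by omega)
    subst hi
    exact Category.comp_id _
  | succ n ih =>
    refine Fin.cases ?_ (fun i => ?_) i
    · rw [pj_zero]
      exact Obj.lift_fst _ _
    · rw [pj_succ]
      change Obj.lift (f 0) (liftN X n (fun i => f i.succ)) ≫ (snd X (pw X n) ≫ pj X n i) = _
      rw [lift_snd_assoc, ih]

lemma pw_ext {T : 𝒱.Obj} (n : ℕ) {f g : T ⟶ pw X n} (h : ∀ i, f ≫ pj X n i = g ≫ pj X n i) :
    f = g := by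
  induction n with
  | zero =>
    have := h 0
    exact (Category.comp_id f).symm.trans (this.trans (Category.comp_id g))
  | succ n ih =>
    apply prod_ext
    · exact h 0
    · apply ih
      intro i
      rw [Category.assoc, Category.assoc]
      exact h i.succ

lemma GoodSet.pw_mem {S : Set 𝒱.Obj} (hS : GoodSet W S) (hX : X ∈ S) (n : ℕ) : pw X n ∈ S := by
  induction n with
  | zero => exact hX
  | succ n ih => exact hS.prod_mem hX ih

/-- Associativity. -/
noncomputable def assocIso (X Y Z : 𝒱.Obj) : (X.prod Y).prod Z ≅ X.prod (Y.prod Z) where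
  hom := Obj.lift (fst _ _ ≫ fst _ _) (Obj.lift (fst _ _ ≫ snd _ _) (snd _ _))
  inv := Obj.lift (Obj.lift (fst _ _) (snd _ _ ≫ fst _ _)) (snd _ _ ≫ snd _ _)
  hom_inv_id := by
    refine prod_ext (prod_ext ?_ ?_) ?_ <;> simp
  inv_hom_id := by
    refine prod_ext ?_ (prod_ext ?_ ?_) <;> simp

lemma pw_iso (X : 𝒱.Obj) (a c n : ℕ) (h : n = a + c + 1) :
    Nonempty ((pw X a).prod (pw X c) ≅ pw X n) := by
  subst h
  induction a with
  | zero =>
    have : 0 + c + 1 = c + 1 := by omega
    rw [this]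
    exact ⟨Iso.refl _⟩
  | succ a ih =>
    obtain ⟨i⟩ := ih
    have : a + 1 + c + 1 = (a + c + 1) + 1 := by omega
    rw [this]
    exact ⟨(assocIso X (pw X a) (pw X c)).trans (prodIso (Iso.refl X) i)⟩

lemma numRank_pw (X : 𝒱.Obj) (a c n : ℕ) (h : n = a + c + 1) :
    numRank W ((pw X a).prod (pw X c)) = numRank W (pw X n) := by
  obtain ⟨i⟩ := pw_iso X a c n h
  exact numRank_iso i

lemma finrank_prod (X Y : 𝒱.Obj) : Module.finrank W.K (W.H (X.prod Y)) =
    Module.finrank W.K (W.H X) * Module.finrank W.K (W.H Y) := by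
  rw [← (kappa W X Y).finrank_eq, Module.finrank_tensorProduct]

lemma finrank_pw (X : 𝒱.Obj) (n : ℕ) : Module.finrank W.K (W.H (pw X n)) =
    Module.finrank W.K (W.H X) ^ (n + 1) := by
  induction n with
  | zero => rw [zero_add, pow_one]; rfl
  | succ n ih =>
    have : Module.finrank W.K (W.H (pw X (n + 1))) = Module.finrank W.K (W.H X) *
        Module.finrank W.K (W.H (pw X n)) := finrank_prod X (pw X n)
    rw [this, ih, pow_succ' _ (n + 1)]

/-! ### Permutations of the factors -/

/-- The automorphism of the power given by a permutation. -/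
noncomputable def permHom (X : 𝒱.Obj) (n : ℕ) (σ : Equiv.Perm (Fin (n + 1))) :
    pw X n ⟶ pw X n :=
  liftN X n (fun i => pj X n (σ i))

lemma permHom_mul (n : ℕ) (σ τ : Equiv.Perm (Fin (n + 1))) :
    permHom X n (σ * τ) = permHom X n σ ≫ permHom X n τ := by
  apply pw_ext
  intro i
  rw [Category.assoc, permHom, permHom, permHom, liftN_pj, liftN_pj, liftN_pj]
  rfl

lemma permHom_one (n : ℕ) : permHom X n 1 = 𝟙 (pw X n) := by
  apply pw_ext
  intro i
  rw [permHom, liftN_pj, Category.id_comp]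
  rfl

/-- The action of permutations on the cohomology of the power. -/
noncomputable def permRep (W : WeilCohomology.{u, v} ops) (X : 𝒱.Obj) (n : ℕ) :
    Equiv.Perm (Fin (n + 1)) →* Module.End W.K (W.H (pw X n)) where
  toFun σ := (W.map (permHom X n σ)).toLinearMap
  map_one' := by
    apply LinearMap.ext
    intro a
    rw [permHom_one, AlgHom.toLinearMap_apply, W.map_id]
    rfl
  map_mul' σ τ := by
    apply LinearMap.ext
    intro a
    rw [permHom_mul, AlgHom.toLinearMap_apply, W.map_comp]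
    rfl

/-- The product of a list of elements which commute up to signs. -/
lemma prod_perm {A : Type*} [Ring A] {l l' : List A} (h : l.Perm l')
    (hc : ∀ a ∈ l, ∀ b ∈ l, a * b = b * a ∨ a * b = -(b * a)) :
    l.prod = l'.prod ∨ l.prod = -l'.prod := by
  induction h with
  | nil => exact Or.inl rfl
  | cons x _ ih =>
    rw [List.prod_cons, List.prod_cons]
    rcases ih (fun a ha b hb => hc a (List.mem_cons_of_mem _ ha) b
      (List.mem_cons_of_mem _ hb)) with h | h
    · left; rw [h]
    · right; rw [h, mul_neg]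
  | swap x y l =>
    rw [List.prod_cons, List.prod_cons, List.prod_cons, List.prod_cons, ← mul_assoc, ← mul_assoc]
    rcases hc y (by simp) x (by simp) with h | h
    · left; rw [h]
    · right; rw [h, neg_mul]
  | trans h1 _ ih1 ih2 =>
    rcases ih1 hc with h | h <;>
      rcases ih2 (fun a ha b hb => hc a (h1.mem_iff.2 ha) b (h1.mem_iff.2 hb)) with h' | h'
    · left; rw [h, h']
    · right; rw [h, h']
    · right; rw [h, h']
    · left; rw [h, h', neg_neg]

section Words

variable {ι : Type} (v : Module.Basis ι W.K (W.H X))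

/-- The external product of the elements of a basis given by a word. -/
noncomputable def word (n : ℕ) (x : Fin (n + 1) → ι) : W.H (pw X n) :=
  (List.ofFn fun i => W.map (pj X n i) (v (x i))).prod

lemma word_succ (n : ℕ) (x : Fin (n + 2) → ι) :
    word v (n + 1) x = W.map (fst X (pw X n)) (v (x 0)) *
      W.map (snd X (pw X n)) (word v n (fun i => x i.succ)) := by
  rw [word, word, List.ofFn_succ, List.prod_cons, map_list_prod, List.map_ofFn]
  congr 2
  · apply congrArg List.ofFn
    funext i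
    exact W.map_comp (snd X (pw X n)) (pj X n i) _

/-- The words form a basis. -/
lemma exists_word_basis [Finite ι] (n : ℕ) :
    ∃ e : Module.Basis (Fin (n + 1) → ι) W.K (W.H (pw X n)), ∀ x, e x = word v n x := by
  induction n with
  | zero =>
    refine ⟨v.reindex (Equiv.funUnique (Fin 1) ι).symm, fun x => ?_⟩
    have h2 : (v.reindex (Equiv.funUnique (Fin 1) ι).symm) x = v (x 0) := by
      rw [Module.Basis.reindex_apply, Equiv.symm_symm]
      rfl
    refine h2.trans ?_
    have h1 : word v 0 x = (List.ofFn fun i : Fin 1 => W.map (𝟙 X) (v (x i))).prod := rfl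
    rw [h1]
    have h3 : (List.ofFn fun i : Fin 1 => W.map (𝟙 X) (v (x i))) = [v (x 0)] := by
      simp only [List.ofFn_succ, List.ofFn_zero]
      rw [W.map_id]
    rw [h3]
    exact List.prod_singleton.symm
  | succ n ih =>
    obtain ⟨e, he⟩ := ih
    refine ⟨((v.tensorProduct e).map (kappa W X (pw X n))).reindex
      (Fin.consEquiv (fun _ => ι)), fun x => ?_⟩
    have h2 : (((v.tensorProduct e).map (kappa W X (pw X n))).reindex
      (Fin.consEquiv (fun _ => ι))) x = W.map (fst X (pw X n)) (v (x 0)) *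
      W.map (snd X (pw X n)) (e (fun i => x i.succ)) := by
      rw [Module.Basis.reindex_apply, Module.Basis.map_apply,
        ← kappa_tmul, ← Module.Basis.tensorProduct_apply]
      rfl
    refine h2.trans ?_
    rw [he]
    exact (word_succ v n x).symm

variable {v}

lemma permRep_word (hv : ∀ i, ∃ d, v i ∈ W.gr X d) (n : ℕ) (σ : Equiv.Perm (Fin (n + 1)))
    (x : Fin (n + 1) → ι) : permRep W X n σ (word v n x) = word v n (fun i => x (σ⁻¹ i)) ∨
      permRep W X n σ (word v n x) = -word v n (fun i => x (σ⁻¹ i)) := by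
  have h1 : permRep W X n σ (word v n x) =
      (List.ofFn ((fun j => W.map (pj X n j) (v (x (σ⁻¹ j)))) ∘ σ)).prod := by
    change W.map (permHom X n σ) (word v n x) = _
    rw [word, map_list_prod, List.map_ofFn]
    congr 2
    funext i
    simp only [Function.comp_apply]
    rw [← W.map_comp, permHom, liftN_pj]
    congr 3
    exact (σ.symm_apply_apply i).symm
  rw [h1, word]
  apply prod_perm (Equiv.Perm.ofFn_comp_perm σ _)
  intro a ha b hb
  rw [List.mem_ofFn] at ha hb
  obtain ⟨i, rfl⟩ := ha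
  obtain ⟨j, rfl⟩ := hb
  simp only [Function.comp_apply]
  obtain ⟨d, hd⟩ := hv (x (σ⁻¹ (σ i)))
  obtain ⟨d', hd'⟩ := hv (x (σ⁻¹ (σ j)))
  rw [W.comm (W.map_mem _ hd) (W.map_mem _ hd')]
  rcases neg_one_pow_eq_or W.K (d * d') with h | h
  · left; rw [h, one_smul]
  · right; rw [h, neg_one_smul]

end Words

/-- A homogeneous basis. -/
lemma exists_homogeneous_basis (W : WeilCohomology.{u, v} ops) (X : 𝒱.Obj) :
    ∃ (ι : Type) (_ : Fintype ι) (_ : DecidableEq ι) (v : Module.Basis ι W.K (W.H X)),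
      ∀ i, ∃ d, v i ∈ W.gr X d := by
  classical
  let b := (W.isInternal X).collectedBasis (fun i => Module.finBasis W.K (W.gr X i))
  have : Finite (Σ i, Fin (Module.finrank W.K (W.gr X i))) :=
    Module.Finite.finite_basis b
  refine ⟨_, Fintype.ofFinite _, inferInstance, b, ?_⟩
  rintro ⟨i, j⟩
  exact ⟨i, (W.isInternal X).collectedBasis_mem
    (fun i => Module.finBasis W.K (W.gr X i)) ⟨i, j⟩⟩

/-- **The growth of the numerical ranks.** -/
theorem numRank_grow {S : Set 𝒱.Obj} (hS : GoodSet W S) (hX : X ∈ S) (n : ℕ) :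
    (Module.finrank W.K (W.H X) ^ 2) ^ (n + 1) ≤
      (n + 2) ^ (Module.finrank W.K (W.H X) ^ 2) * numRank W (pw X (2 * n + 1)) := by
  classical
  obtain ⟨ι, _, _, v, hv⟩ := exists_homogeneous_basis W X
  obtain ⟨e, he⟩ := exists_word_basis v n
  have hP := hS.pw_mem hX n
  let _ := wordAct (n + 1) ι
  have h1 : ∀ (σ : Equiv.Perm (Fin (n + 1))) (x : Fin (n + 1) → ι), ∃ s : ℤ,
      (s = 1 ∨ s = -1) ∧ permRep W X n σ (e x) = ((s : ℤ) : W.K) • e (σ • x) := by
    intro σ x
    rw [he, he]
    rcases permRep_word hv n σ x with h | h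
    · refine ⟨1, Or.inl rfl, ?_⟩
      rw [h, Int.cast_one, one_smul]
      rfl
    · refine ⟨-1, Or.inr rfl, ?_⟩
      rw [h, Int.cast_neg, Int.cast_one, neg_one_smul]
      rfl
  choose s hs hT using h1
  have h2 := card_sq_le e (permRep W X n) s hT hs
  have h3 := rank_gram_le e (permRep W X n) s hT (CC W (pw X n) (pw X n))
    (perp (CC W) (pw X n) (pw X n)) (fun σ => map_CC _) (fun f hf g hg => hf g hg)
  have h4 := card_orbits_le (ι := ι) (n + 1)
  have h5 : Module.finrank W.K ((CC W (pw X n) (pw X n)).map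
      (perp (CC W) (pw X n) (pw X n)).mkQ) = numRank W (pw X (2 * n + 1)) := by
    have h6 := nd_CC (X := pw X n) (hS.good hP hP)
    rw [numRank_pw X n n (2 * n + 1) (by ring)] at h6
    exact h6
  have hι : Fintype.card ι = Module.finrank W.K (W.H X) :=
    (Module.finrank_eq_card_basis v).symm
  rw [h5] at h3
  rw [hι] at h4
  rw [Fintype.card_fun, hι, Fintype.card_fin] at h2
  calc (Module.finrank W.K (W.H X) ^ 2) ^ (n + 1) =
        (Module.finrank W.K (W.H X) ^ (n + 1)) ^ 2 := by rw [← pow_mul, ← pow_mul, mul_comm]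
    _ ≤ _ := h2
    _ ≤ numRank W (pw X (2 * n + 1)) * (n + 1 + 1) ^ (Module.finrank W.K (W.H X) ^ 2) :=
        Nat.mul_le_mul h3 h4
    _ = _ := by rw [mul_comm]

end Pool.Agent.Y129
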