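import Pool.Agent.Y129.Retr
import Pool.Agent.W534.PoleA

/-!
# The numerical rank as a sum over the codimensions
-/

open CategoryTheory AlgebraicGeometry Finset

universe u v

namespace Pool.Agent.Y129

open Pool.Agent.H914 Pool.Agent.H914.VarClass Pool.Agent.H914.VarClass.Obj
  Pool.Agent.H914.WeilCohomology Pool.Agent.H281R3.HT

variable {k : Type u} [Field k] {𝒱 : VarClass k} {ops : CycleOps 𝒱}
  {W : WeilCohomology.{u, v} ops} {X Y Z : 𝒱.Obj}

/-- The span of the classes of cycles of codimension `j`. -/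
noncomputable abbrev SC (W : WeilCohomology.{u, v} ops) (X : 𝒱.Obj) (j : ℕ) :
    Submodule W.K (W.H X) := spanCycles W X (j : ℤ)

lemma span_le_algSpan (j : ℕ) : SC W X j ≤ algSpan W X := by
  rw [SC, spanCycles_eq]
  exact Submodule.span_mono (Set.subset_iUnion _ _)

lemma algSpan_eq_iSup (W : WeilCohomology.{u, v} ops) (X : 𝒱.Obj) :
    algSpan W X = ⨆ j : ℕ, SC W X j := by
  rw [algSpan, Submodule.span_iUnion]
  exact iSup_congr fun j => (spanCycles_eq j).symm

lemma span_eq_bot {j : ℕ} (hj : X.dim < j) : SC W X j = ⊥ := by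
  rw [eq_bot_iff]
  intro a ha
  have h1 : a ∈ W.gr X (2 * j) := span_gr ha
  have h2 : W.gr X (2 * j) = ⊥ := W.gr_eq_bot X (2 * j) (by omega)
  rw [h2] at h1
  exact h1

/-- The functionals on the spaces of algebraic classes. -/
noncomputable def toDual (W : WeilCohomology.{u, v} ops) (X : 𝒱.Obj) (l : ℕ) :
    W.H X →ₗ[W.K] Module.Dual W.K (SC W X l) where
  toFun a := W.tr X ∘ₗ LinearMap.mulLeft W.K a ∘ₗ (SC W X l).subtype
  map_add' := by
    intro a b
    ext c
    simp [add_mul]
  map_smul' := by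
    intro a b
    ext c
    simp

lemma toDual_apply (l : ℕ) (a : W.H X) (b : SC W X l) :
    toDual W X l a b = W.tr X (a * (b : W.H X)) := rfl

/-- All functionals. -/
noncomputable def toDuals (W : WeilCohomology.{u, v} ops) (X : 𝒱.Obj) :
    W.H X →ₗ[W.K] (∀ l : Fin (X.dim + 1), Module.Dual W.K (SC W X (l : ℕ))) :=
  LinearMap.pi fun l => toDual W X (l : ℕ)

lemma toDuals_apply (a : W.H X) (l : Fin (X.dim + 1)) (b : SC W X (l : ℕ)) :
    toDuals W X a l b = W.tr X (a * (b : W.H X)) := rfl

lemma toDuals_eq_zero (a : W.H X) : toDuals W X a = 0 ↔ a ∈ transcendental W X := by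
  rw [mem_transcendental]
  constructor
  · intro h d hd
    rw [algSpan_eq_iSup] at hd
    refine Submodule.iSup_induction (fun j : ℕ => SC W X j)
      (motive := fun d => W.tr X (d * a) = 0) hd ?_ ?_ ?_
    · intro j x hx
      by_cases hj : j ≤ X.dim
      · have h1 : toDuals W X a ⟨j, by omega⟩ ⟨x, hx⟩ = 0 := by rw [h]; rfl
        rw [toDuals_apply] at h1
        rw [W.even_comm (span_gr hx)]
        exact h1
      · rw [span_eq_bot (by omega), Submodule.mem_bot] at hx
        rw [hx, zero_mul, map_zero]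
    · rw [zero_mul, map_zero]
    · intro x y hx hy
      rw [add_mul, map_add, hx, hy, add_zero]
  · intro h
    funext l
    apply LinearMap.ext
    intro b
    rw [toDuals_apply, ← W.even_comm (span_gr b.2)]
    exact h _ (span_le_algSpan _ b.2)

lemma range_pi_proj {K ι : Type*} [Field K] [Fintype ι] {A B : ι → Type*}
    [∀ i, AddCommGroup (A i)] [∀ i, Module K (A i)] [∀ i, AddCommGroup (B i)]
    [∀ i, Module K (B i)] [∀ i, Module.Finite K (B i)] (f : ∀ i, A i →ₗ[K] B i) :
    Module.finrank K (LinearMap.range (LinearMap.pi fun i => f i ∘ₗ LinearMap.proj i)) =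
      ∑ i, Module.finrank K (LinearMap.range (f i)) := by
  have h1 : LinearMap.range (LinearMap.pi fun i => f i ∘ₗ LinearMap.proj i) =
      LinearMap.range (LinearMap.pi fun i => (LinearMap.range (f i)).subtype ∘ₗ
        (LinearMap.proj i : (∀ i, LinearMap.range (f i)) →ₗ[K] _)) := by
    ext y
    constructor
    · rintro ⟨x, rfl⟩
      exact ⟨fun i => ⟨f i (x i), x i, rfl⟩, rfl⟩
    · rintro ⟨x, rfl⟩
      choose z hz using fun i => (x i).2
      exact ⟨z, funext fun i => hz i⟩
  rw [h1, LinearMap.finrank_range_of_inj, Module.finrank_pi_fintype]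
  intro x y hxy
  funext i
  exact Subtype.ext (congrFun hxy i)

/-- The sum of algebraic classes. -/
noncomputable def sumCyc (W : WeilCohomology.{u, v} ops) (X : 𝒱.Obj) :
    (∀ l : Fin (X.dim + 1), SC W X (X.dim - (l : ℕ) : ℕ)) →ₗ[W.K] W.H X :=
  ∑ l : Fin (X.dim + 1), (SC W X (X.dim - (l : ℕ) : ℕ)).subtype ∘ₗ LinearMap.proj l

lemma sumCyc_apply (x : ∀ l : Fin (X.dim + 1), SC W X (X.dim - (l : ℕ) : ℕ)) :
    sumCyc W X x = ∑ l, (x l : W.H X) := by
  rw [sumCyc, LinearMap.sum_apply]
  rfl

lemma range_sumCyc : LinearMap.range (sumCyc W X) = algSpan W X := by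
  apply le_antisymm
  · rintro _ ⟨x, rfl⟩
    rw [sumCyc_apply]
    exact Submodule.sum_mem _ fun l _ => span_le_algSpan _ (x l).2
  · rw [algSpan_eq_iSup]
    apply iSup_le
    intro j
    by_cases hj : j ≤ X.dim
    · intro a ha
      classical
      obtain ⟨l, hl⟩ : ∃ l : Fin (X.dim + 1), X.dim - (l : ℕ) = j :=
        ⟨⟨X.dim - j, by omega⟩, by simp only; omega⟩
      have ha' : a ∈ SC W X (X.dim - (l : ℕ) : ℕ) := by
        rw [hl]; exact ha
      refine ⟨Pi.single l ⟨a, ha'⟩, ?_⟩
      rw [sumCyc_apply, Finset.sum_eq_single l]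
      · rw [Pi.single_eq_same]
      · intro l' _ hl'
        rw [Pi.single_eq_of_ne hl']
        rfl
      · intro h
        exact absurd (Finset.mem_univ _) h
    · rw [span_eq_bot (by omega)]
      exact bot_le

/-- The pairing of the cycles in complementary codimensions. -/
noncomputable def pairC (W : WeilCohomology.{u, v} ops) (X : 𝒱.Obj) (l : Fin (X.dim + 1)) :
    SC W X (X.dim - (l : ℕ) : ℕ) →ₗ[W.K] Module.Dual W.K (SC W X (l : ℕ)) :=
  Pool.Agent.W534.pair W X (X.dim - (l : ℕ)) (l : ℕ)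

lemma pairC_apply (l : Fin (X.dim + 1)) (a : SC W X (X.dim - (l : ℕ) : ℕ))
    (b : SC W X (l : ℕ)) : pairC W X l a b = W.tr X ((a : W.H X) * (b : W.H X)) := rfl

lemma toDuals_sumCyc : toDuals W X ∘ₗ sumCyc W X =
    LinearMap.pi fun l : Fin (X.dim + 1) => pairC W X l ∘ₗ LinearMap.proj l := by
  apply LinearMap.ext
  intro x
  funext l
  apply LinearMap.ext
  intro b
  have h1 : (toDuals W X ∘ₗ sumCyc W X) x l b = W.tr X (sumCyc W X x * (b : W.H X)) := rfl
  have h2 : (LinearMap.pi fun l : Fin (X.dim + 1) =>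
      pairC W X l ∘ₗ LinearMap.proj l) x l b = W.tr X ((x l : W.H X) * (b : W.H X)) := rfl
  rw [h1, h2, sumCyc_apply, Finset.sum_mul, map_sum, Finset.sum_eq_single l]
  · intro l' _ hl'
    refine W.tr_eq_zero (W.mul_mem (span_gr (x l').2) (span_gr b.2)) ?_
    intro h
    apply hl'
    apply Fin.ext
    have h3 := l'.2
    have h4 := l.2
    omega
  · intro h
    exact absurd (Finset.mem_univ _) h

lemma finrank_pairC (l : Fin (X.dim + 1)) : Module.finrank W.K (LinearMap.range (pairC W X l)) =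
    Pool.Agent.W534.numRank ops X (l : ℕ) := by
  have hl : (l : ℕ) ≤ X.dim := by have := l.2; omega
  rw [Pool.Agent.W534.numRank_eq (W := W) hl, Pool.Agent.W534.kRank_symm]
  rfl

/-- **The numerical rank is the sum of the ranks of the groups of cycles modulo numerical
equivalence.** -/
theorem numRank_eq_sum (W : WeilCohomology.{u, v} ops) (X : 𝒱.Obj) : numRank W X =
    ∑ j ∈ range (X.dim + 1), Pool.Agent.W534.numRank ops X j := by
  have h1 : numRank W X = Module.finrank W.K ((algSpan W X).map (toDuals W X)) := by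
    rw [numRank, na]
    apply finrank_map_eq
    intro a _
    rw [Submodule.mkQ_apply, Submodule.Quotient.mk_eq_zero, toDuals_eq_zero]
  rw [h1, ← range_sumCyc, ← LinearMap.range_comp, toDuals_sumCyc, range_pi_proj,
    ← Fin.sum_univ_eq_sum_range (fun j => Pool.Agent.W534.numRank ops X j)]
  exact Finset.sum_congr rfl fun l _ => finrank_pairC l

end Pool.Agent.Y129
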