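import Pool.Agent.Y129.Pow

/-!
# Retracts and the bound for multiplicities in the odd powers
-/

open CategoryTheory AlgebraicGeometry Finset

universe u v

namespace Pool.Agent.Y129

open Pool.Agent.H914 Pool.Agent.H914.VarClass Pool.Agent.H914.VarClass.Obj
  Pool.Agent.H914.WeilCohomology Pool.Agent.H281R3.HT

variable {k : Type u} [Field k] {𝒱 : VarClass k} {ops : CycleOps 𝒱}
  {W : WeilCohomology.{u, v} ops} {X Y Z : 𝒱.Obj}

/-- The operator `a ↦ f_*(z a)`. -/
noncomputable def pushMul (W : WeilCohomology.{u, v} ops) (f : X ⟶ Y) (z : W.H X) :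
    W.H X →ₗ[W.K] W.H Y :=
  W.push f ∘ₗ LinearMap.mulLeft W.K z

lemma pushMul_apply (f : X ⟶ Y) (z a : W.H X) : pushMul W f z a = W.push f (z * a) := rfl

/-- These operators are algebraic. -/
lemma pushMul_CC (f : X ⟶ Y) {z : W.H X} (hz : z ∈ algSpan W X) : pushMul W f z ∈ CC W X Y := by
  have h1 : W.corr (W.push (Obj.lift (𝟙 X) f) z) = pushMul W f z := by
    apply LinearMap.ext
    intro a
    have e1 : Obj.lift (𝟙 X) f ≫ fst X Y = 𝟙 X := Obj.lift_fst _ _
    have e2 : Obj.lift (𝟙 X) f ≫ snd X Y = f := Obj.lift_snd _ _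
    rw [corr_apply, ← W.push_mul, ← W.map_comp, e1, ← W.push_comp, e2, W.map_id]
    rfl
  rw [← h1]
  exact map_corr_mem (push_algSpan _ hz)

lemma algSpan_mul {a b : W.H X} (ha : a ∈ algSpan W X) (hb : b ∈ algSpan W X) :
    a * b ∈ algSpan W X := by
  induction ha using Submodule.span_induction with
  | mem x hx =>
    obtain ⟨j, z, hz, rfl⟩ := Set.mem_iUnion.1 hx
    induction hb using Submodule.span_induction with
    | mem y hy =>
      obtain ⟨l, w, hw, rfl⟩ := Set.mem_iUnion.1 hy
      rw [← W.cl_mul]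
      exact Submodule.subset_span (Set.mem_iUnion.2 ⟨j + l, _, ops.mul_mem hz hw, rfl⟩)
    | zero => rw [mul_zero]; exact Submodule.zero_mem _
    | add x y _ _ hx hy => rw [mul_add]; exact Submodule.add_mem _ hx hy
    | smul r x _ hx => rw [mul_smul_comm]; exact Submodule.smul_mem _ _ hx
  | zero => rw [zero_mul]; exact Submodule.zero_mem _
  | add x y _ _ hx hy => rw [add_mul]; exact Submodule.add_mem _ hx hy
  | smul r x _ hx => rw [smul_mul_assoc]; exact Submodule.smul_mem _ _ hx

/-- There is an algebraic class with trace one. -/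
lemma exists_pt [Nontrivial (W.H X)] (hg : Good W X X) :
    ∃ z ∈ algSpan W X, W.tr X z = 1 := by
  by_contra hcon
  push Not at hcon
  have h0 : ∀ z ∈ algSpan W X, W.tr X z = 0 := by
    intro z hz
    by_contra hne
    apply hcon ((W.tr X z)⁻¹ • z) (Submodule.smul_mem _ _ hz)
    rw [map_smul, smul_eq_mul, inv_mul_cancel₀ hne]
  have h1 : ∀ c ∈ algSpan W (X.prod X), c ∈ transcendental W (X.prod X) := by
    intro c hc
    rw [mem_transcendental]
    intro d hd
    have h2 : W.tr X (W.push (snd X X) (d * c)) = W.tr (X.prod X) (d * c) := by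
      have := W.tr_push (snd X X) (d * c) 1
      rwa [mul_one, map_one, mul_one] at this
    rw [← h2]
    exact h0 _ (push_algSpan _ (algSpan_mul hd hc))
  -- the identity is orthogonal to everything
  have h2 : (LinearMap.id : Module.End W.K (W.H X)) ∈ CC W X X := isCat_CC.id_mem X
  have h3 := h2
  rw [← map_opL] at h3
  obtain ⟨c, hc, h4⟩ := h3
  have h5 := (hg c hc).1 (h1 c hc)
  rw [h4] at h5
  have h6 := h5 LinearMap.id h2
  rw [LinearMap.id_comp, LinearMap.trace_id] at h6
  have h7 : 0 < Module.finrank W.K (W.H X) := Module.finrank_pos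
  have h8 : (Module.finrank W.K (W.H X) : W.K) ≠ 0 := Nat.cast_ne_zero.2 h7.ne'
  exact h8 h6

/-- The cohomology of `X` is a retract of the cohomology of `X × Y`. -/
lemma push_fst_mul (a : W.H X) {z : W.H Y} (hz : z ∈ algSpan W Y) (hz1 : W.tr Y z = 1) :
    W.push (fst X Y) (W.map (snd X Y) z * W.map (fst X Y) a) = a := by
  apply W.tr_ext
  intro c
  have h1 := W.tr_push (fst X Y) (W.map (snd X Y) z * W.map (fst X Y) a) c
  rw [h1, mul_assoc, ← map_mul, algSpan_even (map_algSpan (snd X Y) hz), W.tr_prod, hz1, mul_one]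

lemma exists_retract [Nontrivial (W.H X)] (hg : Good W X X) :
    ∃ i ∈ CC W X (X.prod X), ∃ r ∈ CC W (X.prod X) X, r ∘ₗ i = LinearMap.id := by
  obtain ⟨z, hz, hz1⟩ := exists_pt hg
  refine ⟨_, map_CC (fst X X), pushMul W (fst X X) (W.map (snd X X) z),
    pushMul_CC _ (map_algSpan _ hz), ?_⟩
  apply LinearMap.ext
  intro a
  exact push_fst_mul a hz hz1

lemma pa_pow_pow (i : ℕ) (a : W.H X) : (pa W X ^ i) ((pa W X ^ i) a) = a := by
  have h1 : pa W X * pa W X = 1 := par_mul_par (W.isInternal X)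
  have h2 : pa W X ^ i * pa W X ^ i = 1 := by
    rw [← (Commute.refl (pa W X)).mul_pow, h1, one_pow]
  exact congrArg (fun f => f a) h2

/-- A third regrouping of the factors. -/
noncomputable def regC (X Z U : 𝒱.Obj) : (X.prod Z).prod U ≅ Z.prod (U.prod X) where
  hom := Obj.lift (fst _ U ≫ snd X Z) (Obj.lift (snd _ U) (fst _ U ≫ fst X Z))
  inv := Obj.lift (Obj.lift (snd Z _ ≫ snd U X) (fst Z _)) (snd Z _ ≫ fst U X)
  hom_inv_id := by
    refine prod_ext (prod_ext ?_ ?_) ?_ <;> simp
  inv_hom_id := by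
    refine prod_ext ?_ (prod_ext ?_ ?_) <;> simp

lemma regC_extOp {X Z U : 𝒱.Obj} {e : Module.End W.K (W.H U)} (he : e ∈ CC W U U)
    (c : W.H (Z.prod (U.prod X))) :
    W.map (regC X Z U).hom (extOp W LinearMap.id (extOp W e LinearMap.id) c) =
      extOp W LinearMap.id e (W.map (regC X Z U).hom c) := by
  have key : ∀ (z : W.H Z) (u : W.H U) (x : W.H X) (i j : ℕ), z ∈ W.gr Z i → x ∈ W.gr X j →
      W.map (regC X Z U).hom (W.map (fst _ _) z * W.map (snd _ _)
        (W.map (fst U X) u * W.map (snd U X) x)) =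
      W.map (fst _ _) (W.map (fst _ _) ((pa W X ^ i) x) * W.map (snd _ _) z) *
        W.map (snd _ _) ((pa W U ^ j) u) := by
    intro z u x i j hz hx
    have e1 : (regC X Z U).hom ≫ fst _ _ = fst _ U ≫ snd X Z := by simp [regC]
    have e2 : (regC X Z U).hom ≫ snd _ _ ≫ fst U X = snd _ U := by simp [regC]
    have e3 : (regC X Z U).hom ≫ snd _ _ ≫ snd U X = fst _ U ≫ fst X Z := by simp [regC]
    have f1 : ∀ x, W.map (regC X Z U).hom (W.map (fst _ _) x) =
        W.map (fst _ U ≫ snd X Z) x := fun x => by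
      rw [← W.map_comp, e1]
    have f2 : ∀ x, W.map (regC X Z U).hom (W.map (snd _ _) (W.map (fst U X) x)) =
        W.map (snd _ U) x := fun x => by
      rw [← W.map_comp, ← W.map_comp, Category.assoc, e2]
    have f3 : ∀ x, W.map (regC X Z U).hom (W.map (snd _ _) (W.map (snd U X) x)) =
        W.map (fst _ U ≫ fst X Z) x := fun x => by
      rw [← W.map_comp, ← W.map_comp, Category.assoc, e3]
    simp only [map_mul, f1, f2, f3]
    have h1 := comm_pa (W := W) (f := (snd _ U : (X.prod Z).prod U ⟶ U))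
      (g := (fst _ U ≫ fst X Z : (X.prod Z).prod U ⟶ X)) hx ((pa W U ^ j) u)
    rw [pa_pow_pow] at h1
    have h2 := comm_pa (W := W) (f := (fst _ U ≫ fst X Z : (X.prod Z).prod U ⟶ X))
      (g := (fst _ U ≫ snd X Z : (X.prod Z).prod U ⟶ Z)) hz x
    rw [← h1, ← mul_assoc, h2]
    simp only [W.map_comp]
  refine W.kunneth_induction (p := fun c => W.map (regC X Z U).hom (extOp W LinearMap.id
    (extOp W e LinearMap.id) c) = extOp W LinearMap.id e (W.map (regC X Z U).hom c)) ?_ ?_ c
  · intro a b ha hb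
    simp only [map_add, ha, hb]
  intro i _ z hz b _
  refine W.kunneth_induction (p := fun b => W.map (regC X Z U).hom (extOp W LinearMap.id
    (extOp W e LinearMap.id) (W.map (fst _ _) z * W.map (snd _ _) b)) =
      extOp W LinearMap.id e (W.map (regC X Z U).hom (W.map (fst _ _) z *
        W.map (snd _ _) b))) ?_ ?_ b
  · intro a b ha hb
    simp only [map_add, mul_add, ha, hb]
  intro _ j u _ x hx
  rw [extOp_tmul, extOp_tmul, LinearMap.id_apply, LinearMap.id_apply, key _ _ _ i j hz hx,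
    key _ _ _ i j hz hx, extOp_tmul, LinearMap.id_apply, CC.pa_pow_comm he]

/-- The bound for multiplicities in `X × Z`, if `Z` is a square. -/
theorem nd_sand_le' [IsAlgClosed W.K] {S : Set 𝒱.Obj} (hS : GoodSet W S) {U X Z P : 𝒱.Obj}
    (hP : P ∈ S) (hU : U ∈ S) (hX : X ∈ S) (hZ : Z ∈ S) (i : Z ≅ P.prod P)
    {e : Module.End W.K (W.H U)} (he : e ∈ CC W U U) (he' : IsIdempotentElem e) :
    nd (CC W) U (X.prod Z) (sand (CC W) U (X.prod Z) LinearMap.id e) ≤
      Module.finrank W.K (LinearMap.range e) *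
        (Module.finrank W.K (W.H X) * numRank W Z) := by
  obtain ⟨e', h1, h2⟩ := CC.exists_adj' he
  have hid : (LinearMap.id : Module.End W.K (W.H X)) ∈ CC W X X := isCat_CC.id_mem X
  have hid' : IsIdempotentElem (LinearMap.id : Module.End W.K (W.H X)) := IsIdempotentElem.one
  have h3 := nd_sand_le hS hP (hS.prod_mem hU hX) hZ i (CC.ext he hid) (extOp_idem he' hid')
  rw [finrank_range_extOp he' hid', LinearMap.range_id, finrank_top, mul_assoc] at h3
  refine le_trans (le_of_eq ?_) h3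
  rw [nd_eq_na (hS.good (hS.prod_mem hX hZ) hU) (isCat_CC.id_mem _) h1 h2,
    nd_eq_na (hS.good hZ (hS.prod_mem hU hX)) (isCat_CC.id_mem _) (CC.ext h1 hid) (h2.ext_id he)]
  exact na_iso (regC X Z U) (regC_extOp h1)

end Pool.Agent.Y129
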