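import Pool.Agent.Y129.Defs
import Pool.Agent.TH125.Gal.Pub
import Pool.Agent.W534.PoleDefs

/-!
# The index of the Tate classes on the powers of a variety: definitions
-/

open CategoryTheory AlgebraicGeometry Finset

universe u v w

namespace Pool.Agent.Y129

section Alg

variable {K : Type*} [Field K] {A : Type*} [Ring A] [Algebra K A] {Γ : Type*} [Group Γ]

/-- The Tate classes of codimension `j`: the elements `c` of `gr (2 * j)` such that
`ρ g c = χ g ^ j • c` for all `g` in a subgroup of finite index. -/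
def tateClasses (χ : Γ →* Kˣ) (gr : ℕ → Submodule K A) (ρ : Γ →* (A ≃ₐ[K] A)) (j : ℕ) :
    Submodule K A where
  carrier := {c | c ∈ gr (2 * j) ∧ ∃ Δ : Subgroup Γ, Δ.FiniteIndex ∧
    ∀ g ∈ Δ, ρ g c = (χ g : K) ^ j • c}
  add_mem' := by
    rintro a b ⟨ha, Δ, hΔ, h1⟩ ⟨hb, Δ', hΔ', h2⟩
    refine ⟨add_mem ha hb, Δ ⊓ Δ', inferInstance, fun g hg => ?_⟩
    rw [map_add, h1 g hg.1, h2 g hg.2, smul_add]
  zero_mem' := ⟨zero_mem _, ⊤, inferInstance, fun g _ => by rw [map_zero, smul_zero]⟩
  smul_mem' := by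
    rintro r a ⟨ha, Δ, hΔ, h1⟩
    refine ⟨Submodule.smul_mem _ _ ha, Δ, hΔ, fun g hg => ?_⟩
    rw [map_smul, h1 g hg, smul_comm]

end Alg

open Pool.Agent.H914 Pool.Agent.H914.VarClass Pool.Agent.H914.VarClass.Obj
  Pool.Agent.H914.WeilCohomology Pool.Agent.H281R3.HT Pool.Agent.TH125.Gal

variable {k : Type u} [Field k] {𝒱 : VarClass k} {ops : CycleOps 𝒱}

/-- The group `Γ` acts on the cohomology algebras of all powers of `X` like a Galois group (`ρ n` is
the action on the cohomology of the product of `n + 1` copies of `X`), and the actions are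
compatible with the projections to the factors. -/
structure PowerAction (W : WeilCohomology.{u, v} ops) (X : 𝒱.Obj) {Γ : Type w} [Group Γ]
    (χ : Γ →* W.Kˣ) (ρ : ∀ n, Γ →* (W.H (pw X n) ≃ₐ[W.K] W.H (pw X n))) : Prop where
  galois : ∀ n, IsGaloisAct χ (W.gr (pw X n)) (pw X n).dim (W.tr (pw X n))
    (algClasses W (pw X n)) (ρ n)
  proj : ∀ n i, Intertwines (A := W.H X) (B := W.H (pw X n)) (W.map (pj X n i)) (ρ 0) (ρ n)

/-- The dimension of the space of all Tate classes (in all codimensions) on the product of `n + 1`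
copies of `X`. -/
noncomputable def tateDim (W : WeilCohomology.{u, v} ops) (X : 𝒱.Obj) {Γ : Type w} [Group Γ]
    (χ : Γ →* W.Kˣ) (ρ : ∀ n, Γ →* (W.H (pw X n) ≃ₐ[W.K] W.H (pw X n))) (n : ℕ) : ℕ :=
  ∑ j ∈ range ((pw X n).dim + 1),
    Module.finrank W.K (tateClasses χ (W.gr (pw X n)) (ρ n) j)

/-- The rank of the group of all algebraic cycles (of all codimensions) on `X` modulo numerical
equivalence. -/
noncomputable def cycRank (ops : CycleOps 𝒱) (X : 𝒱.Obj) : ℕ :=
  ∑ j ∈ range (X.dim + 1), Pool.Agent.W534.numRank ops X j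

end Pool.Agent.Y129
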