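import Pool.Agent.Y129.Law
import Pool.Agent.Y129.Half.Main

/-!
# The ratio law without hypotheses on the variety
-/

open CategoryTheory AlgebraicGeometry Finset Filter Topology TensorProduct

universe u v

namespace Pool.Agent.Y129

open Pool.Agent.H914 Pool.Agent.H914.VarClass Pool.Agent.H914.VarClass.Obj
  Pool.Agent.H914.WeilCohomology Pool.Agent.H281R3.HT

variable {k : Type u} [Field k] {𝒱 : VarClass k} {ops : CycleOps 𝒱}
  {W : WeilCohomology.{u, v} ops} {X Y Z : 𝒱.Obj}

/-- The system of the algebraic classes. -/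
noncomputable def algSys (W : WeilCohomology.{u, v} ops) : Pool.Agent.Y129.Half.Sys W where
  C X := algSpan W X
  even {X c} hc := by
    induction hc using Submodule.span_induction with
    | mem x hx =>
      obtain ⟨j, z, hz, rfl⟩ := Set.mem_iUnion.1 hx
      exact Pool.Agent.Y129.Half.PH.of' (by omega) (W.cl_mem hz)
    | zero => exact Submodule.zero_mem _
    | add x y _ _ hx hy => exact Submodule.add_mem _ hx hy
    | smul r x _ hx => exact Submodule.smul_mem _ _ hx
  one X := one_algSpan X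
  mul := algSpan_mul
  map f _ hc := map_algSpan f hc
  push f _ hc := push_algSpan f hc

lemma mem_algOp {f : W.H X →ₗ[W.K] W.H Y} : f ∈ (algSys W).Op X Y ↔ f ∈ CC W X Y := by
  rw [Pool.Agent.Y129.Half.Sys.mem_Op]
  constructor
  · rintro ⟨c, hc, rfl⟩
    exact map_corr_mem hc
  · intro h
    exact exists_corr_eq h

lemma mem_algNum {c : W.H X} : c ∈ (algSys W).Num X ↔ c ∈ algSpan W X ∧
    c ∈ transcendental W X := by
  constructor
  · rintro ⟨h1, h2⟩
    refine ⟨h1, mem_transcendental.2 fun d hd => ?_⟩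
    rw [algSpan_even hd]
    exact h2 d hd
  · rintro ⟨h1, h2⟩
    refine ⟨h1, fun d hd => ?_⟩
    rw [← algSpan_even hd]
    exact mem_transcendental.1 h2 d hd

lemma numRank_add (W : WeilCohomology.{u, v} ops) (X : 𝒱.Obj) :
    numRank W X + Module.finrank W.K (algSpan W X ⊓ transcendental W X : Submodule W.K (W.H X)) =
      Module.finrank W.K (algSpan W X) := by
  have h1 := LinearMap.finrank_range_add_finrank_ker
    ((transcendental W X).mkQ.domRestrict (algSpan W X))
  rw [LinearMap.range_domRestrict] at h1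
  have h2 : Module.finrank W.K
      (LinearMap.ker ((transcendental W X).mkQ.domRestrict (algSpan W X))) =
      Module.finrank W.K (algSpan W X ⊓ transcendental W X : Submodule W.K (W.H X)) := by
    have h3 : (LinearMap.ker ((transcendental W X).mkQ.domRestrict (algSpan W X))).map
        (algSpan W X).subtype = algSpan W X ⊓ transcendental W X := by
      ext x
      constructor
      · rintro ⟨⟨c, hc⟩, hc', rfl⟩
        refine ⟨hc, ?_⟩
        rw [SetLike.mem_coe, LinearMap.mem_ker, LinearMap.domRestrict_apply,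
          Submodule.mkQ_apply, Submodule.Quotient.mk_eq_zero] at hc'
        exact hc'
      · rintro ⟨hx, hx'⟩
        refine ⟨⟨x, hx⟩, ?_, rfl⟩
        rw [SetLike.mem_coe, LinearMap.mem_ker, LinearMap.domRestrict_apply,
          Submodule.mkQ_apply, Submodule.Quotient.mk_eq_zero]
        exact hx'
    rw [← h3]
    exact (Submodule.equivMapOfInjective _ (Submodule.subtype_injective _) _).finrank_eq
  rw [h2] at h1
  exact h1

lemma algSys_a (W : WeilCohomology.{u, v} ops) (X : 𝒱.Obj) : (algSys W).a X = numRank W X := by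
  have h1 := (algSys W).a_add_num X
  have h2 := numRank_add W X
  have h3 : (algSys W).Num X = algSpan W X ⊓ transcendental W X := by
    ext c
    rw [mem_algNum, Submodule.mem_inf]
  rw [h3] at h1
  have h4 : Module.finrank W.K ((algSys W).C X) = Module.finrank W.K (algSpan W X) := rfl
  omega

/-- The two conventions for the powers. -/
lemma iso_pw (X : 𝒱.Obj) (n : ℕ) : Nonempty (Pool.Agent.Y129.Half.pw X n ≅ pw X n) := by
  induction n with
  | zero => exact ⟨Iso.refl X⟩
  | succ n ih =>
    obtain ⟨i⟩ := ih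
    obtain ⟨j⟩ := pw_iso X n 0 (n + 1) rfl
    exact ⟨(prodIso i (Iso.refl X)).trans j⟩

/-- If numerically trivial correspondences are nilpotent, numerical equivalence can be tested
with the trace form. -/
lemma good_of_nilpotent (h : ∀ {c : W.H (Y.prod Y)}, c ∈ algSpan W (Y.prod Y) →
    c ∈ transcendental W (Y.prod Y) → IsNilpotent (W.corr c)) : Good W X Y := by
  intro c hc
  constructor
  · intro hc' g hg
    -- `g ∘ opL c` is numerically trivial
    have h1 : opL W X Y c ∈ (algSys W).NOp Y X := by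
      rw [Pool.Agent.Y129.Half.Sys.mem_NOp]
      refine ⟨W.map (swap Y X) c, ?_, rfl⟩
      rw [mem_algNum]
      exact ⟨map_algSpan _ hc, map_transcendental _ hc'⟩
    have h2 : g ∘ₗ opL W X Y c ∈ (algSys W).NOp Y Y :=
      Pool.Agent.Y129.Half.Sys.NOp.comp_left (mem_algOp.2 hg) h1
    obtain ⟨d, hd, h3⟩ := Pool.Agent.Y129.Half.Sys.mem_NOp.1 h2
    rw [mem_algNum] at hd
    have h4 := h hd.1 hd.2
    rw [h3] at h4
    exact Y129.trace_nil h4
  · intro h
    rw [mem_transcendental]
    intro d hd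
    rw [tr_mul_eq]
    set f : Module.End W.K (W.H Y) := W.corr d ∘ₗ opL W X Y c with hf
    have hfC : f ∈ CC W Y Y := isCat_CC.comp_mem (map_corr_mem hd) (opL_mem hc)
    have hpow : ∀ r : ℕ, f ^ r ∈ CC W Y Y := by
      intro r
      induction r with
      | zero => exact isCat_CC.id_mem Y
      | succ r ih => rw [pow_succ]; exact isCat_CC.comp_mem ih hfC
    have h1 : IsNilpotent f := by
      apply isNilpotent_of_trace_pow
      intro r
      rw [pow_succ]
      exact h ((f ^ r : Module.End W.K (W.H Y)) ∘ₗ W.corr d)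
        (isCat_CC.comp_mem (hpow r) (map_corr_mem hd))
    have h2 : Commute (pa W Y) f := LinearMap.ext fun a => CC.pa_comm hfC a
    exact Y129.trace_nil (h2.isNilpotent_mul_left h1)

/-- **The dichotomy.** Either the rank of the intersection form is negligible, or numerical
equivalence on the products of powers can be tested with the trace form. -/
theorem dichotomy_closed [IsAlgClosed W.K] [Nontrivial (W.H X)] {z : W.H X}
    (hz : z ∈ algSpan W X) (hz1 : W.tr X z = 1) :
    (∀ ε : ℝ, 0 < ε → ∃ n₀ : ℕ, ∀ n ≥ n₀, (numRank W (pw X n) : ℝ) ≤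
      ε * Module.finrank W.K (algSpan W (pw X n))) ∨
    GoodSet W {Y | ∃ n, Nonempty (Y ≅ pw X n)} := by
  have hX : 0 < Module.finrank W.K (W.H X) := Module.finrank_pos
  have hpos : ∀ n, 0 < (algSys W).al X n := by
    intro n
    obtain ⟨m, hm, hm1⟩ := (algSys W).exists_lam (X := X) hz hz1 n
    refine (algSys W).a_pos ((algSys W).xp_mem_C hm hm) ?_
    rw [Pool.Agent.Y129.Half.tr_xp, hm1, mul_one]
  rcases Pool.Agent.Y129.Half.ratio_dichotomy hpos ((algSys W).al_convex X)
    ((Module.finrank W.K (W.H X) : ℝ) ^ 2) with ⟨c, hc, hcB, h⟩ | hB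
  · left
    intro ε hε
    obtain ⟨n₀, hn₀⟩ := Pool.Agent.Y129.Half.Sys.small_of (S := algSys W) (T := algSys W)
      hc hcB h hX hε
    refine ⟨n₀, fun n hn => ?_⟩
    obtain ⟨i⟩ := iso_pw X n
    have h1 := hn₀ n hn
    rw [algSys_a, numRank_iso i, (algSys W).finrank_C_iso i] at h1
    exact h1
  · right
    refine ⟨?_, ?_⟩
    · rintro Y Z ⟨a, ⟨i⟩⟩ ⟨c, ⟨j⟩⟩
      exact ⟨_, prod_iso_pw i j⟩
    · rintro Y Z ⟨a, ⟨i⟩⟩ ⟨m, ⟨j⟩⟩
      apply good_of_nilpotent
      intro c hc hc'
      obtain ⟨θ⟩ := iso_pw X m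
      have h1 : (1 : W.H Z) ≠ 0 := by
        have h2 : 0 < Module.finrank W.K (W.H Z) := by
          rw [Pool.Agent.Y129.Half.finrank_iso j, finrank_pw]
          exact pow_pos hX _
        have h3 : Nontrivial (W.H Z) := Module.nontrivial_of_finrank_pos (R := W.K) h2
        exact one_ne_zero
      refine (algSys W).nilpotent_iso hpos hB hX (P := Z) (j.trans θ.symm) h1 ?_
      rw [Pool.Agent.Y129.Half.Sys.mem_NOp]
      exact ⟨c, mem_algNum.2 ⟨hc, hc'⟩, rfl⟩

lemma numRank_pos_of {z : W.H X} (hz : z ∈ algSpan W X) (hz1 : W.tr X z = 1) :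
    0 < numRank W X := by
  rw [← algSys_a]
  exact (algSys W).a_pos hz hz1

/-- There are algebraic classes of trace one on all powers. -/
lemma exists_pt_pw {z : W.H X} (hz : z ∈ algSpan W X) (hz1 : W.tr X z = 1) (n : ℕ) :
    ∃ w ∈ algSpan W (pw X n), W.tr (pw X n) w = 1 := by
  induction n with
  | zero => exact ⟨z, hz, hz1⟩
  | succ n ih =>
    obtain ⟨w, hw, hw1⟩ := ih
    refine ⟨(W.map (fst X (pw X n)) z * W.map (snd X (pw X n)) w : W.H (X.prod (pw X n))),
      algSpan_mul (map_algSpan _ hz) (map_algSpan _ hw), ?_⟩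
    have h := W.tr_prod (X := X) (Y := pw X n) z w
    rw [hz1, hw1, mul_one] at h
    exact h

/-- The law for algebraically closed coefficient fields. -/
theorem law_closed [IsAlgClosed W.K] [Nontrivial (W.H X)] {z : W.H X}
    (hz : z ∈ algSpan W X) (hz1 : W.tr X z = 1)
    {G : ∀ n, Submodule W.K (W.H (pw X n))} (hG : StableSystem W X G)
    (hA : ∀ n, algSpan W (pw X n) ≤ G n) :
    (∃ N : ℕ, (∀ n, Module.finrank W.K (G (2 * n + 1)) ≤ N * numRank W (pw X (2 * n + 1))) ∧
      Tendsto (fun n => (Module.finrank W.K (G n) : ℝ) / numRank W (pw X n)) atTop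
        (𝓝 (N : ℝ))) ∨
    Tendsto (fun n => (Module.finrank W.K (G n) : ℝ) / numRank W (pw X n)) atTop atTop := by
  rcases dichotomy_closed hz hz1 with h | h
  · right
    rw [tendsto_atTop]
    intro A
    set B : ℝ := max A 1 with hB
    have hB0 : 0 < B := lt_of_lt_of_le one_pos (le_max_right _ _)
    obtain ⟨n₀, hn₀⟩ := h B⁻¹ (inv_pos.2 hB0)
    rw [eventually_atTop]
    refine ⟨n₀, fun n hn => (le_max_left A 1).trans ?_⟩
    obtain ⟨w, hw, hw1⟩ := exists_pt_pw hz hz1 n
    have hpos : (0 : ℝ) < numRank W (pw X n) := by exact_mod_cast numRank_pos_of hw hw1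
    rw [← hB, le_div_iff₀ hpos]
    have h1 := hn₀ n hn
    have h2 : (Module.finrank W.K (algSpan W (pw X n)) : ℝ) ≤ Module.finrank W.K (G n) := by
      exact_mod_cast Submodule.finrank_mono (hA n)
    calc B * numRank W (pw X n) ≤ B * (B⁻¹ * Module.finrank W.K (algSpan W (pw X n))) :=
          mul_le_mul_of_nonneg_left h1 hB0.le
      _ = Module.finrank W.K (algSpan W (pw X n)) := by
          rw [← mul_assoc, mul_inv_cancel₀ hB0.ne', one_mul]
      _ ≤ _ := h2
  · exact ratio_law_closed h ⟨0, ⟨Iso.refl X⟩⟩ hG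

/-- The law for all coefficient fields. -/
theorem law [Nontrivial (W.H X)] {z : W.H X}
    (hz : z ∈ algSpan W X) (hz1 : W.tr X z = 1)
    {G : ∀ n, Submodule W.K (W.H (pw X n))} (hG : StableSystem W X G)
    (hA : ∀ n, algSpan W (pw X n) ≤ G n) :
    (∃ N : ℕ, (∀ n, Module.finrank W.K (G (2 * n + 1)) ≤ N * numRank W (pw X (2 * n + 1))) ∧
      Tendsto (fun n => (Module.finrank W.K (G n) : ℝ) / numRank W (pw X n)) atTop
        (𝓝 (N : ℝ))) ∨
    Tendsto (fun n => (Module.finrank W.K (G n) : ℝ) / numRank W (pw X n)) atTop atTop := by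
  let L := AlgebraicClosure W.K
  have hcl : IsAlgClosed (baseW W L).K := (inferInstance : IsAlgClosed (AlgebraicClosure W.K))
  have hnt : Nontrivial ((baseW W L).H X) := by
    have h1 : 0 < Module.finrank L (L ⊗[W.K] W.H X) := by
      rw [Module.finrank_baseChange]
      exact Module.finrank_pos
    have h2 : Nontrivial (L ⊗[W.K] W.H X) := Module.nontrivial_of_finrank_pos (R := L) h1
    exact h2
  have hspan : ∀ (Y : 𝒱.Obj) (w : W.H Y), w ∈ algSpan W Y →
      ((1 : L) ⊗ₜ[W.K] w : (baseW W L).H Y) ∈ algSpan (baseW W L) Y := by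
    intro Y w hw
    induction hw using Submodule.span_induction with
    | mem x hx =>
      obtain ⟨j, z, hz, rfl⟩ := Set.mem_iUnion.1 hx
      exact Submodule.subset_span (Set.mem_iUnion.2 ⟨j, z, hz, rfl⟩)
    | zero =>
      rw [TensorProduct.tmul_zero]
      exact Submodule.zero_mem _
    | add x y _ _ hx hy =>
      rw [TensorProduct.tmul_add]
      exact Submodule.add_mem _ hx hy
    | smul r x _ hx =>
      have h1 : ((1 : L) ⊗ₜ[W.K] (r • x) : L ⊗[W.K] W.H Y) =
          (algebraMap W.K L r) • ((1 : L) ⊗ₜ[W.K] x) := by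
        rw [TensorProduct.tmul_smul, algebraMap_smul]
      rw [h1]
      exact Submodule.smul_mem _ _ hx
  have hpt : (baseW W L).tr X ((1 : L) ⊗ₜ[W.K] z : (baseW W L).H X) = 1 := by
    have h1 : (baseW W L).tr X ((1 : L) ⊗ₜ[W.K] z : (baseW W L).H X) =
        formBase L (W.tr X) ((1 : L) ⊗ₜ[W.K] z) := rfl
    rw [h1, formBase_tmul, hz1, map_one, mul_one]
    rfl
  obtain ⟨G', hG', hA', h2⟩ : ∃ G' : ∀ n, Submodule (baseW W L).K ((baseW W L).H (pw X n)),
      StableSystem (baseW W L) X G' ∧ (∀ n, algSpan (baseW W L) (pw X n) ≤ G' n) ∧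
      ∀ n, Module.finrank (baseW W L).K (G' n) = Module.finrank W.K (G n) := by
    refine ⟨_, hG.base L, fun n => ?_, fun n => finrank_baseChange L (G n)⟩
    rw [algSpan, Submodule.span_le]
    intro c hc
    obtain ⟨j, z, hz, rfl⟩ := Set.mem_iUnion.1 hc
    exact Submodule.tmul_mem_baseChange_of_mem (1 : L)
      (hA n (Submodule.subset_span (Set.mem_iUnion.2 ⟨j, z, hz, rfl⟩)))
  have h1 := law_closed (hspan X z hz) hpt hG' hA'
  simp only [h2, numRank_base] at h1
  exact h1

end Pool.Agent.Y129
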